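import Pool.Agent.V1153.PK.Val

/-!
Algebraic discs with centres away from the rational curves.
-/

set_option autoImplicit false

namespace Pool.Agent.V1153.KB

open Filter Topology Set Metric MvPolynomial
open Pool.Agent.V1153.UG

variable {n : ℕ}

theorem order_ivt {s : ℕ} (d : Fin (2 * s + 1) → ℝ → ℝ)
    (hd : ∀ k, ContinuousOn (d k) (Icc 0 1)) {η : ℝ} (h0 : ∀ k, η ≤ d k 0)
    (h1 : ∃ T : Finset (Fin (2 * s + 1)), T.card = s + 1 ∧ ∀ k ∈ T, d k 1 ≤ η) :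
    ∃ ρ ∈ Icc (0 : ℝ) 1, (∃ T : Finset (Fin (2 * s + 1)), T.card = s + 1 ∧ ∀ k ∈ T, η ≤ d k ρ) ∧
      ∃ T : Finset (Fin (2 * s + 1)), T.card = s + 1 ∧ ∀ k ∈ T, d k ρ ≤ η := by
  classical
  let A : Set ℝ := ⋃ T ∈ Finset.powersetCard (s + 1) (Finset.univ : Finset (Fin (2 * s + 1))),
    ⋂ k ∈ T, (Icc 0 1 ∩ d k ⁻¹' Ici η)
  let B : Set ℝ := ⋃ T ∈ Finset.powersetCard (s + 1) (Finset.univ : Finset (Fin (2 * s + 1))),
    ⋂ k ∈ T, (Icc 0 1 ∩ d k ⁻¹' Iic η)
  have hA : IsClosed A := by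
    refine isClosed_biUnion_finset fun T _ => isClosed_biInter fun k _ => ?_
    exact (hd k).preimage_isClosed_of_isClosed isClosed_Icc isClosed_Ici
  have hB : IsClosed B := by
    refine isClosed_biUnion_finset fun T _ => isClosed_biInter fun k _ => ?_
    exact (hd k).preimage_isClosed_of_isClosed isClosed_Icc isClosed_Iic
  have memA : ∀ ρ ∈ Icc (0 : ℝ) 1, ρ ∈ A ↔
      ∃ T : Finset (Fin (2 * s + 1)), T.card = s + 1 ∧ ∀ k ∈ T, η ≤ d k ρ := by
    intro ρ hρ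
    simp only [A, mem_iUnion, mem_iInter, Finset.mem_powersetCard]
    constructor
    · rintro ⟨T, ⟨-, hT⟩, h⟩
      exact ⟨T, hT, fun k hk => (h k hk).2⟩
    · rintro ⟨T, hT, h⟩
      exact ⟨T, ⟨Finset.subset_univ _, hT⟩, fun k hk => ⟨hρ, h k hk⟩⟩
  have memB : ∀ ρ ∈ Icc (0 : ℝ) 1, ρ ∈ B ↔
      ∃ T : Finset (Fin (2 * s + 1)), T.card = s + 1 ∧ ∀ k ∈ T, d k ρ ≤ η := by
    intro ρ hρ
    simp only [B, mem_iUnion, mem_iInter, Finset.mem_powersetCard]
    constructor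
    · rintro ⟨T, ⟨-, hT⟩, h⟩
      exact ⟨T, hT, fun k hk => (h k hk).2⟩
    · rintro ⟨T, hT, h⟩
      exact ⟨T, ⟨Finset.subset_univ _, hT⟩, fun k hk => ⟨hρ, h k hk⟩⟩
  have hcov : Icc (0 : ℝ) 1 ⊆ A ∪ B := by
    intro ρ hρ
    let T0 : Finset (Fin (2 * s + 1)) := Finset.univ.filter fun k => η ≤ d k ρ
    by_cases h : s + 1 ≤ T0.card
    · obtain ⟨T, hT, hTc⟩ := Finset.exists_subset_card_eq h
      exact Or.inl ((memA ρ hρ).2 ⟨T, hTc, fun k hk => (Finset.mem_filter.1 (hT hk)).2⟩)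
    · have h2 : s + 1 ≤ (T0ᶜ).card := by
        rw [Finset.card_compl, Fintype.card_fin]
        omega
      obtain ⟨T, hT, hTc⟩ := Finset.exists_subset_card_eq h2
      refine Or.inr ((memB ρ hρ).2 ⟨T, hTc, fun k hk => ?_⟩)
      have h3 := Finset.mem_compl.1 (hT hk)
      by_contra h4
      push Not at h4
      exact h3 (Finset.mem_filter.2 ⟨Finset.mem_univ _, h4.le⟩)
  have h0I : (0 : ℝ) ∈ Icc (0 : ℝ) 1 := ⟨le_rfl, zero_le_one⟩
  have h1I : (1 : ℝ) ∈ Icc (0 : ℝ) 1 := ⟨zero_le_one, le_rfl⟩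
  have h0A : (0 : ℝ) ∈ A := by
    rw [memA 0 h0I]
    have h2 : s + 1 ≤ (Finset.univ : Finset (Fin (2 * s + 1))).card := by
      rw [Finset.card_univ, Fintype.card_fin]
      omega
    obtain ⟨T, -, hTc⟩ := Finset.exists_subset_card_eq h2
    exact ⟨T, hTc, fun k _ => h0 k⟩
  have h1B : (1 : ℝ) ∈ B := (memB 1 h1I).2 h1
  obtain ⟨ρ, hρ, hρA, hρB⟩ := isPreconnected_closed_iff.1 (isPreconnected_Icc (a := (0 : ℝ))
    (b := 1)) A B hA hB hcov ⟨0, h0I, h0A⟩ ⟨1, h1I, h1B⟩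
  exact ⟨ρ, hρ, (memA ρ hρ).1 hρA, (memB ρ hρ).1 hρB⟩

theorem good_pt {s : ℕ} {D : Polynomial ℂ} (hD : D ≠ 0) (hs : D.natDegree ≤ s)
    {ψ : Fin (2 * s + 1) → ℂ} (hψ : Function.Injective ψ) {T : Finset (Fin (2 * s + 1))}
    (hT : T.card = s + 1) : ∃ k ∈ T, D.eval (ψ k) ≠ 0 := by
  classical
  by_contra hcon
  push Not at hcon
  have h1 : T.image ψ ⊆ D.roots.toFinset := by
    intro w hw
    obtain ⟨k, hk, rfl⟩ := Finset.mem_image.1 hw
    rw [Multiset.mem_toFinset, Polynomial.mem_roots hD]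
    exact hcon k hk
  have h2 := Finset.card_le_card h1
  rw [Finset.card_image_of_injective _ hψ, hT] at h2
  have h3 := Multiset.toFinset_card_le D.roots
  have h4 := Polynomial.card_roots' D
  omega

theorem exists_small {D : Polynomial ℂ} (hD : D ≠ 0) {r : ℝ} (hr : 0 < r) :
    ∃ w ∈ ball (0 : ℂ) r, D.eval w ≠ 0 := by
  classical
  have h1 : (D.roots.toFinset : Set ℂ).Finite := D.roots.toFinset.finite_toSet
  obtain ⟨w, hw, hw2⟩ := (infinite_ball hr).exists_notMem_finite h1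
  refine ⟨w, hw, fun h0 => hw2 ?_⟩
  rw [Finset.mem_coe, Multiset.mem_toFinset, Polynomial.mem_roots hD]
  exact h0

theorem pt_eqn {𝒰 : Ultrafilter ℕ} {v : ℕ → Fin (n + 1) → ℂ} {y : Fin (n + 1) → ℂ}
    (hy : y ≠ 0) (hlim : Tendsto (fun i => pm (v i)) 𝒰 (𝓝 (pm y)))
    {F : MvPolynomial (Fin (n + 1)) ℂ} {a : ℕ} (hF : F.IsHomogeneous a)
    (h0 : ∀ᶠ i in (𝒰 : Filter ℕ), eval (v i) F = 0) : eval y F = 0 := by
  obtain ⟨k, hk⟩ := Function.ne_iff.1 hy
  have hk' : y k ≠ 0 := hk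
  have h2 : Tendsto (fun i j => pm (v i) (j, k)) 𝒰 (𝓝 fun j => pm y (j, k)) :=
    tendsto_pi_nhds.2 fun j => (tendsto_pi_nhds.1 hlim) (j, k)
  have h3 := ((MvPolynomial.continuous_eval F).tendsto _).comp h2
  have h4 : ∀ᶠ i in (𝒰 : Filter ℕ), eval (fun j => pm (v i) (j, k)) F = 0 := by
    filter_upwards [h0] with i hi
    rw [eval_pm hF, hi, mul_zero]
  have h5 := tendsto_nhds_unique (tendsto_const_nhds.congr' (h4.mono fun i hi => hi.symm)) h3
  rw [eval_pm hF] at h5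
  refine (mul_eq_zero.1 h5.symm).resolve_left (pow_ne_zero _ (div_ne_zero ?_ ?_))
  · exact (map_ne_zero _).2 hk'
  · exact Complex.ofReal_ne_zero.2 (nsq_pos hy).ne'

/-- The rational curves of degree at most `N` in the variety with the equations `E` do not meet the
ball of radius `δ` about `x`. -/
def Away (E : Set (MvPolynomial (Fin (n + 1)) ℂ)) (N : ℕ) (x : Fin (n + 1) → ℂ) (δ : ℝ) : Prop :=
  ∀ P : Fin (n + 1) → Polynomial ℂ, GmBdd (Ideal.span E) 1 N P →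
    (∀ z, (fun j => (P j).eval z) ≠ 0) → ∀ z, δ < ‖pm (fun j => (P j).eval z) - pm x‖

theorem dich {𝒰 : Ultrafilter ℕ} {m : ℕ} {R : ℕ → ℝ} {g : ℕ → ℂ → Fin (n + 1) → ℂ}
    {E : Set (MvPolynomial (Fin (n + 1)) ℂ)} (hE : ∀ F ∈ E, ∃ a, F.IsHomogeneous a)
    (hg : ASeq 𝒰 m R g) (hgE : ∀ i, ∀ z ∈ ball (0 : ℂ) (R i), ∀ F ∈ E, eval (g i z) F = 0)
    {x : Fin (n + 1) → ℂ} {δ : ℝ} (hZ : Away E ((n + 1) * m) x δ)
    {P : Fin (n + 1) → Polynomial ℂ} {D : Polynomial ℂ} (hD : D ≠ 0)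
    (hPd : ∀ j, (P j).natDegree ≤ (n + 1) * m) (hP : ∀ z, (fun j => (P j).eval z) ≠ 0)
    (hlim : ∀ (ζ : ℕ → ℂ) (z : ℂ), D.eval z ≠ 0 → Tendsto ζ 𝒰 (𝓝 z) →
      Tendsto (fun i => pm (g i (ζ i))) 𝒰 (𝓝 (pm fun j => (P j).eval z)))
    (hz : ∃ z, ‖pm (fun j => (P j).eval z) - pm x‖ ≤ δ) (z w : ℂ) :
    pm (fun j => (P j).eval z) = pm fun j => (P j).eval w := by
  by_contra hne
  obtain ⟨z0, hz0⟩ := hz
  refine absurd (hZ P ⟨hPd, fun F hF _ => ?_, ⟨1, 0, one_ne_zero, by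
    rw [map_one, pow_zero, mul_one, map_one]⟩, ?_⟩ hP z0) (not_lt.2 hz0)
  · have hker : Ideal.span E ≤ RingHom.ker (aeval P : MvPolynomial (Fin (n + 1)) ℂ →ₐ[ℂ] _) := by
      refine Ideal.span_le.2 fun F hF => ?_
      change aeval P F = 0
      obtain ⟨a, ha⟩ := hE F hF
      have h1 : D * (aeval P F : Polynomial ℂ) = 0 := by
        apply Polynomial.funext
        intro z
        rw [Polynomial.eval_mul, Polynomial.eval_zero]
        by_cases hDz : D.eval z = 0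
        · rw [hDz, zero_mul]
        · rw [eval_aeval, pt_eqn (hP z) (hlim (fun _ => z) z hDz tendsto_const_nhds) ha ?_,
            mul_zero]
          filter_upwards [hg.ev (ζ := fun _ => z) tendsto_const_nhds] with i hi
          exact hgE i z hi F hF
      exact (mul_eq_zero.1 h1).resolve_left hD
    exact hker hF
  · by_contra hcon
    push Not at hcon
    exact hne (pm_congr (hP z) (hP w) fun j k => hcon z w j k)

theorem pm_contOn {f : ℂ → Fin (n + 1) → ℂ} {U : Set ℂ} (hd : ∀ j, ContinuousOn (fun z => f z j) U)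
    (hne : ∀ z ∈ U, f z ≠ 0) : ContinuousOn (fun z => pm (f z)) U := by
  intro z hz
  have h1 : Tendsto f (𝓝[U] z) (𝓝 (f z)) := tendsto_pi_nhds.2 fun j => hd j z hz
  exact pm_tendsto (hne z hz) h1

/-- **Algebraic discs with centres away from the rational curves.** -/
theorem pseudo {m : ℕ} {E : Set (MvPolynomial (Fin (n + 1)) ℂ)}
    (hE : ∀ F ∈ E, ∃ a, F.IsHomogeneous a) {x : Fin (n + 1) → ℂ} {δ : ℝ} (hδ : 0 < δ)
    (hδ' : δ ≤ 1 / (2 * ((n : ℝ) + 1))) (hZ : Away E ((n + 1) * m) x δ) :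
    ∃ ε > 0, ∃ C : ℝ, ∀ f, DAlg E m f → ‖pm (f 0) - pm x‖ < ε → W f 0 ≤ C := by
  classical
  by_contra hcon
  push Not at hcon
  set A : ℝ := 24 * ((n : ℝ) + 1) ^ 2 with hAdef
  have hA : 0 < A := by positivity
  have hseq : ∀ i : ℕ, ∃ (f : ℂ → Fin (n + 1) → ℂ) (b : ℂ), DAlg E m f ∧
      ‖pm (f 0) - pm x‖ < 1 / ((i : ℝ) + 1) ∧ b ≠ 0 ∧ ‖b‖ < 1 / ((i : ℝ) + 1) ∧ ‖b‖ ≤ 1 / 2 ∧
      (∀ z, ‖z‖ < ‖b‖ → ‖pm (f z) - pm (f 0)‖ < δ) ∧ δ ≤ ‖pm (f b) - pm (f 0)‖ := by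
    intro i
    have hi0 : (0 : ℝ) < (i : ℝ) + 1 := by positivity
    obtain ⟨f, hf, hfx, hW⟩ := hcon (1 / ((i : ℝ) + 1)) (by positivity) (2 * A * ((i : ℝ) + 1))
    have hcont : ContinuousOn (fun z => ‖pm (f z) - pm (f 0)‖) (closedBall 0 (1 / 2)) := by
      refine ((pm_contOn (fun j => ((hf.1.diff j).continuousOn)) hf.1.ne).mono ?_).sub
        continuousOn_const |>.norm
      exact closedBall_subset_ball (by norm_num)
    let K : Set ℂ := closedBall 0 (1 / 2) ∩ (fun z => ‖pm (f z) - pm (f 0)‖) ⁻¹' Ici δ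
    have hKc : IsCompact K := by
      refine (isCompact_closedBall (0 : ℂ) (1 / 2)).of_isClosed_subset ?_ inter_subset_left
      exact hcont.preimage_isClosed_of_isClosed isClosed_closedBall isClosed_Ici
    have hKn : K.Nonempty := by
      by_contra hK
      rw [Set.not_nonempty_iff_eq_empty] at hK
      have h1 := loc_bd (f := f) (ρ := 1 / 2) (by norm_num)
        (fun j => (hf.1.diff j).mono (ball_subset_ball (by norm_num)))
        (fun z hz => hf.1.ne z (ball_subset_ball (by norm_num) hz)) (by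
          intro z hz
          have h2 : z ∉ K := by
            rw [hK]
            exact notMem_empty z
          have h3 : ‖pm (f z) - pm (f 0)‖ < δ := by
            by_contra h4
            push Not at h4
            exact h2 ⟨ball_subset_closedBall hz, h4⟩
          exact h3.le.trans hδ') 0 (mem_ball_self (by norm_num))
      rw [← hAdef] at h1
      have h2 : A / (1 / 2) = 2 * A := by ring
      rw [h2] at h1
      have h3 : 2 * A ≤ 2 * A * ((i : ℝ) + 1) := by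
        have : (0 : ℝ) ≤ i := Nat.cast_nonneg _
        nlinarith
      linarith
    obtain ⟨b, hbK, hbmin⟩ := hKc.exists_isMinOn hKn (continuous_norm.continuousOn)
    have hbK2 : δ ≤ ‖pm (f b) - pm (f 0)‖ := hbK.2
    have hb12 : ‖b‖ ≤ 1 / 2 := mem_closedBall_zero_iff.1 hbK.1
    have hb0 : b ≠ 0 := by
      rintro rfl
      rw [sub_self, norm_zero] at hbK2
      linarith
    have hbn : 0 < ‖b‖ := norm_pos_iff.2 hb0
    have hlt : ∀ z, ‖z‖ < ‖b‖ → ‖pm (f z) - pm (f 0)‖ < δ := by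
      intro z hz
      by_contra h4
      push Not at h4
      have h5 : z ∈ K := ⟨mem_closedBall_zero_iff.2 (by linarith), h4⟩
      have h6 : ‖b‖ ≤ ‖z‖ := hbmin h5
      linarith
    refine ⟨f, b, hf, hfx, hb0, ?_, hb12, hlt, hbK2⟩
    have h1 := loc_bd (f := f) (ρ := ‖b‖) hbn
      (fun j => (hf.1.diff j).mono (ball_subset_ball (by linarith)))
      (fun z hz => hf.1.ne z (ball_subset_ball (by linarith) hz)) (fun z hz =>
        (hlt z (mem_ball_zero_iff.1 hz)).le.trans hδ') 0 (mem_ball_self (by linarith))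
    rw [← hAdef] at h1
    have h2 := hW.trans_le h1
    rw [lt_div_iff₀ hbn] at h2
    rw [lt_div_iff₀ hi0]
    have h3 : A * (2 * (‖b‖ * ((i : ℝ) + 1))) < A * 1 := by linarith
    have h4 := lt_of_mul_lt_mul_left h3 hA.le
    have h5 : 0 ≤ ‖b‖ * ((i : ℝ) + 1) := by positivity
    linarith
  choose f b hf hfx hb0 hb1 hb2 hlt hge using hseq
  obtain ⟨𝒰, h𝒰le⟩ : ∃ 𝒰 : Ultrafilter ℕ, (𝒰 : Filter ℕ) ≤ atTop :=
    ⟨Filter.hyperfilter ℕ, Nat.hyperfilter_le_atTop⟩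
  have htop : Tendsto (fun i : ℕ => (i : ℝ)) 𝒰 atTop := tendsto_natCast_atTop_atTop.mono_left h𝒰le
  have hbn : ∀ i, 0 < ‖b i‖ := fun i => norm_pos_iff.2 (hb0 i)
  -- the first rescaling
  let g : ℕ → ℂ → Fin (n + 1) → ℂ := fun i w => f i (0 + w * b i)
  let R : ℕ → ℝ := fun i => ‖b i‖⁻¹
  have hin : ∀ i, ∀ w ∈ ball (0 : ℂ) (R i), 0 + w * b i ∈ ball (0 : ℂ) 1 := by
    intro i w hw
    rw [mem_ball_zero_iff] at hw ⊢
    rw [zero_add, norm_mul]
    calc ‖w‖ * ‖b i‖ < ‖b i‖⁻¹ * ‖b i‖ := mul_lt_mul_of_pos_right hw (hbn i)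
      _ = 1 := inv_mul_cancel₀ (hbn i).ne'
  have hRi : ∀ i : ℕ, (i : ℝ) + 1 < R i := by
    intro i
    have h1 := hb1 i
    have h2 : (0 : ℝ) < (i : ℝ) + 1 := by positivity
    rw [lt_div_iff₀ h2] at h1
    change (i : ℝ) + 1 < ‖b i‖⁻¹
    rw [lt_inv_comm₀ h2 (hbn i), ← one_div, lt_div_iff₀ h2]
    exact h1
  have hRpos : ∀ i, 0 < R i := fun i => inv_pos.2 (hbn i)
  have hg : ASeq 𝒰 m R g := by
    refine ⟨fun M => ?_, fun i j => ?_, fun i z hz => (hf i).1.ne _ (hin i z hz), fun i j k => ?_⟩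
    · filter_upwards [htop.eventually_gt_atTop M] with i hi
      linarith [hRi i]
    · refine ((hf i).1.diff j).comp ?_ (hin i)
      exact (differentiableOn_const _).add (differentiableOn_id.mul (differentiableOn_const _))
    · refine ((hf i).2 j k).comp (s := b i) (t := 0) (u := 0) (v := 1)
        (φ := fun w => 0 + w * b i) (infinite_ball (hRpos i)) (hin i) (fun x _ y _ hxy => ?_)
        (fun w _ => by rw [zero_mul, zero_add]; exact one_ne_zero) fun w _ => by ring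
      exact mul_right_cancel₀ (hb0 i) (add_left_cancel hxy)
  have hgE : ∀ i, ∀ z ∈ ball (0 : ℂ) (R i), ∀ F ∈ E, eval (g i z) F = 0 := fun i z hz =>
    (hf i).1.mem _ (hin i z hz)
  have hg0e : ∀ i, g i 0 = f i 0 := fun i => by
    change f i (0 + 0 * b i) = f i 0
    rw [zero_mul, add_zero]
  have hg1e : ∀ i, g i 1 = f i (b i) := fun i => by
    change f i (0 + 1 * b i) = f i (b i)
    rw [one_mul, zero_add]
  have hg0 : Tendsto (fun i => pm (g i 0)) 𝒰 (𝓝 (pm x)) := by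
    rw [tendsto_iff_norm_sub_tendsto_zero]
    have h1 : Tendsto (fun i : ℕ => 1 / ((i : ℝ) + 1)) 𝒰 (𝓝 0) :=
      (tendsto_one_div_add_atTop_nhds_zero_nat (𝕜 := ℝ)).mono_left h𝒰le
    refine squeeze_zero (fun i => norm_nonneg _) (fun i => ?_) h1
    rw [hg0e]
    exact (hfx i).le
  have hgs : ∀ i, ∀ w : ℂ, ‖w‖ < 1 → ‖pm (g i w) - pm (g i 0)‖ < δ := by
    intro i w hw
    rw [hg0e]
    refine hlt i _ ?_
    rw [zero_add, norm_mul]
    calc ‖w‖ * ‖b i‖ < 1 * ‖b i‖ := mul_lt_mul_of_pos_right hw (hbn i)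
      _ = ‖b i‖ := one_mul _
  have hR1 : ∀ i, 1 ≤ R i := fun i => by
    have h1 := hRi i
    have h2 : (0 : ℝ) ≤ i := Nat.cast_nonneg _
    linarith
  obtain ⟨P, D, hD, hDd, hPd, hP, hlim⟩ := curve_gen hg
  -- the limit is constant
  have hPw : ∀ w : ℂ, D.eval w ≠ 0 → ‖w‖ < 1 → ‖pm (fun j => (P j).eval w) - pm x‖ ≤ δ := by
    intro w hw hw1
    refine le_of_tendsto ((hlim (fun _ => w) w hw tendsto_const_nhds).sub hg0).norm ?_
    exact Filter.Eventually.of_forall fun i => (hgs i w hw1).le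
  have hPc : ∀ z w, pm (fun j => (P j).eval z) = pm fun j => (P j).eval w := by
    obtain ⟨w, hw, hDw⟩ := exists_small hD one_pos
    exact dich hE hg hgE hZ hD hPd hP hlim ⟨w, hPw w hDw (mem_ball_zero_iff.1 hw)⟩
  have hPlip : ∀ w : ℂ, D.eval w ≠ 0 → ‖w‖ < 1 / 2 →
      ‖pm (fun j => (P j).eval w) - pm x‖ ≤ 2 * ((n : ℝ) + 1) * A * ‖w‖ := by
    intro w hw hw1
    refine le_of_tendsto ((hlim (fun _ => w) w hw tendsto_const_nhds).sub hg0).norm ?_
    refine Filter.Eventually.of_forall fun i => ?_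
    have h1 := loc_bd (f := g i) (ρ := 1) one_pos
      (fun j => (hg.diff i j).mono (ball_subset_ball (hR1 i)))
      (fun z hz => hg.ne i z (ball_subset_ball (hR1 i) hz)) (fun z hz =>
        (hgs i z (mem_ball_zero_iff.1 hz)).le.trans hδ')
    rw [← hAdef, div_one] at h1
    have h12 : ball (0 : ℂ) (1 / 2) ⊆ ball (0 : ℂ) (R i) :=
      ball_subset_ball ((by norm_num : (1 : ℝ) / 2 ≤ 1).trans (hR1 i))
    have h2 := pm_lip (f := g i) (U := ball 0 (1 / 2)) isOpen_ball (convex_ball 0 (1 / 2))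
      (fun j => (hg.diff i j).mono h12) (fun z hz => hg.ne i z (h12 hz)) h1
      (mem_ball_self (by norm_num)) (mem_ball_zero_iff.2 hw1)
    rwa [sub_zero] at h2
  have hPx : ∀ z, pm (fun j => (P j).eval z) = pm x := by
    intro z
    by_contra hne
    have h1 : 0 < ‖pm (fun j => (P j).eval z) - pm x‖ := norm_pos_iff.2 (sub_ne_zero.2 hne)
    set e : ℝ := ‖pm (fun j => (P j).eval z) - pm x‖ with he
    set L : ℝ := 2 * ((n : ℝ) + 1) * A with hL
    have hL0 : 0 < L := by positivity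
    obtain ⟨w, hw, hDw⟩ := exists_small hD (r := min (1 / 2) (e / (2 * L))) (by positivity)
    rw [mem_ball_zero_iff, lt_min_iff] at hw
    have h2 := hPlip w hDw hw.1
    rw [hPc w z, ← he] at h2
    have h3 : L * ‖w‖ < L * (e / (2 * L)) := mul_lt_mul_of_pos_left hw.2 hL0
    have h4 : L * (e / (2 * L)) = e / 2 := by
      field_simp
    linarith
  -- the second centre
  let g1 : ℕ → ℂ → Fin (n + 1) → ℂ := fun i w => g i (1 + w * 1)
  let R1 : ℕ → ℝ := fun i => R i - 1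
  have hin1 : ∀ i, ∀ w ∈ ball (0 : ℂ) (R1 i), 1 + w * 1 ∈ ball (0 : ℂ) (R i) := by
    intro i w hw
    rw [mem_ball_zero_iff] at hw ⊢
    have h1 := norm_add_le (1 : ℂ) (w * 1)
    rw [norm_one, mul_one] at h1
    rw [mul_one]
    have h2 : ‖w‖ < R i - 1 := hw
    linarith
  have hR1pos : ∀ᶠ i in (𝒰 : Filter ℕ), 0 < R1 i := by
    filter_upwards [hg.rad 1] with i hi
    change 0 < R i - 1
    linarith
  have hg1 : ASeq 𝒰 m R1 g1 := by
    refine ⟨fun M => ?_, fun i j => ?_, fun i z hz => hg.ne i _ (hin1 i z hz), fun i j k => ?_⟩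
    · filter_upwards [hg.rad (M + 1)] with i hi
      change M < R i - 1
      linarith
    · refine (hg.diff i j).comp ?_ (hin1 i)
      exact (differentiableOn_const _).add (differentiableOn_id.mul (differentiableOn_const _))
    · have hpos : 0 < R1 i := by
        change 0 < R i - 1
        have h1 := hRi i
        have h2 : 2 ≤ R i := by
          change 2 ≤ ‖b i‖⁻¹
          rw [le_inv_comm₀ two_pos (hbn i)]
          linarith [hb2 i]
        linarith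
      refine (hg.alg i j k).comp (s := 1) (t := 1) (u := 0) (v := 1)
        (φ := fun w => 1 + w * 1) (infinite_ball hpos) (hin1 i) (fun x _ y _ hxy => ?_)
        (fun w _ => by rw [zero_mul, zero_add]; exact one_ne_zero) fun w _ => by ring
      exact mul_right_cancel₀ one_ne_zero (add_left_cancel hxy)
  obtain ⟨Y, hY, hval⟩ := values (𝒰 := 𝒰) hg1.alg
  obtain ⟨η, hη, hηY⟩ := (Ioo_infinite hδ).exists_notMem_finite
    (hY.image fun v => ‖v - pm x‖)
  set s : ℕ := (n + 1) * (n + 1) * (m + m) with hs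
  let ω : Fin (2 * s + 1) → ℂ := fun k => ((k : ℕ) : ℂ) + 1
  have hωn : ∀ k, ‖ω k‖ ≤ 2 * s + 1 := by
    intro k
    refine (norm_add_le _ _).trans ?_
    rw [norm_one, RCLike.norm_natCast]
    have h1 : ((k : ℕ) : ℝ) ≤ 2 * s := by
      have := k.2
      exact_mod_cast (by omega : (k : ℕ) ≤ 2 * s)
    linarith
  have hωinj : Function.Injective ω := by
    intro k l h
    have h1 : ((k : ℕ) : ℂ) = ((l : ℕ) : ℂ) := add_right_cancel h
    exact Fin.ext (by exact_mod_cast h1)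
  let d : ℕ → Fin (2 * s + 1) → ℝ → ℝ := fun i k ρ => ‖pm (g1 i ((ρ : ℂ) * ω k)) - pm x‖
  have hgood : ∀ᶠ i in (𝒰 : Filter ℕ), (∀ k, η < d i k 0) ∧ (∃ T : Finset (Fin (2 * s + 1)),
      T.card = s + 1 ∧ ∀ k ∈ T, d i k 1 ≤ η) ∧ 2 * (s : ℝ) + 1 < R1 i := by
    have e1 : ∀ᶠ i in (𝒰 : Filter ℕ), ∀ k, η < d i k 0 := by
      have h1 : ∀ᶠ i in (𝒰 : Filter ℕ), ‖pm (g i 0) - pm x‖ < δ - η := by
        have h2 := (tendsto_iff_norm_sub_tendsto_zero.1 hg0).eventually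
          (gt_mem_nhds (sub_pos.2 hη.2))
        exact h2
      filter_upwards [h1] with i hi k
      change η < ‖pm (g i (1 + ((0 : ℝ) : ℂ) * ω k * 1)) - pm x‖
      rw [Complex.ofReal_zero, zero_mul, zero_mul, add_zero, hg1e]
      have h2 := hge i
      have h3 : ‖pm (f i (b i)) - pm (f i 0)‖ ≤ ‖pm (f i (b i)) - pm x‖ +
          ‖pm (g i 0) - pm x‖ := by
        rw [hg0e]
        have h4 : pm (f i (b i)) - pm (f i 0) = (pm (f i (b i)) - pm x) -
          (pm (f i 0) - pm x) := by abel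
        rw [h4]
        exact norm_sub_le _ _
      linarith
    have e2 : ∀ᶠ i in (𝒰 : Filter ℕ), ∃ T : Finset (Fin (2 * s + 1)), T.card = s + 1 ∧
        ∀ k ∈ T, d i k 1 ≤ η := by
      let Tg : Finset (Fin (2 * s + 1)) := Finset.univ.filter fun k => D.eval (1 + ω k) ≠ 0
      have hTg : s + 1 ≤ Tg.card := by
        by_contra hc
        have h2 : s + 1 ≤ (Tgᶜ).card := by
          rw [Finset.card_compl, Fintype.card_fin]
          omega
        obtain ⟨T, hT, hTc⟩ := Finset.exists_subset_card_eq h2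
        obtain ⟨k, hk, h3⟩ := good_pt hD hDd (ψ := fun k => 1 + ω k)
          (fun k l h => hωinj (add_left_cancel h)) hTc
        exact (Finset.mem_compl.1 (hT hk)) (Finset.mem_filter.2 ⟨Finset.mem_univ _, h3⟩)
      obtain ⟨T, hT, hTc⟩ := Finset.exists_subset_card_eq hTg
      have h1 : ∀ k ∈ T, ∀ᶠ i in (𝒰 : Filter ℕ), d i k 1 ≤ η := by
        intro k hk
        have h2 := (Finset.mem_filter.1 (hT hk)).2
        have h3 := hlim (fun _ => 1 + ω k) (1 + ω k) h2 tendsto_const_nhds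
        rw [hPx] at h3
        have h4 := (tendsto_iff_norm_sub_tendsto_zero.1 h3).eventually (gt_mem_nhds hη.1)
        filter_upwards [h4] with i hi
        change ‖pm (g i (1 + ((1 : ℝ) : ℂ) * ω k * 1)) - pm x‖ ≤ η
        rw [Complex.ofReal_one, one_mul, mul_one]
        exact hi.le
      have h2 := (Finset.eventually_all T).2 h1
      filter_upwards [h2] with i hi
      exact ⟨T, hTc, hi⟩
    filter_upwards [e1, e2, hg1.rad (2 * (s : ℝ) + 1)] with i h1 h2 h3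
    exact ⟨h1, h2, h3⟩
  have hscale : ∀ i, ∃ (ρ : ℝ) (T T' : Finset (Fin (2 * s + 1))), 0 < ρ ∧ ρ ≤ 1 ∧
      (((∀ k, η < d i k 0) ∧ (∃ T : Finset (Fin (2 * s + 1)),
        T.card = s + 1 ∧ ∀ k ∈ T, d i k 1 ≤ η) ∧ 2 * (s : ℝ) + 1 < R1 i) →
        (T.card = s + 1 ∧ ∀ k ∈ T, η ≤ d i k ρ) ∧ (T'.card = s + 1 ∧ ∀ k ∈ T', d i k ρ ≤ η)) := by
    intro i
    by_cases hi : (∀ k, η < d i k 0) ∧ (∃ T : Finset (Fin (2 * s + 1)),
        T.card = s + 1 ∧ ∀ k ∈ T, d i k 1 ≤ η) ∧ 2 * (s : ℝ) + 1 < R1 i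
    · obtain ⟨h0, h1, h2⟩ := id hi
      have hmaps : ∀ k, ∀ ρ ∈ Icc (0 : ℝ) 1, (ρ : ℂ) * ω k ∈ ball (0 : ℂ) (R1 i) := by
        intro k ρ hρ
        rw [mem_ball_zero_iff, norm_mul, Complex.norm_real, Real.norm_of_nonneg hρ.1]
        calc ρ * ‖ω k‖ ≤ 1 * (2 * s + 1) := mul_le_mul hρ.2 (hωn k) (norm_nonneg _) zero_le_one
          _ < R1 i := by rw [one_mul]; exact h2
      have hdc : ∀ k, ContinuousOn (d i k) (Icc 0 1) := by
        intro k
        have h3 := pm_contOn (f := g1 i) (fun j => (hg1.diff i j).continuousOn) (hg1.ne i)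
        have h4 : ContinuousOn (fun ρ : ℝ => (ρ : ℂ) * ω k) (Icc 0 1) := by fun_prop
        exact ((h3.comp h4 (hmaps k)).sub continuousOn_const).norm
      obtain ⟨ρ, hρ, ⟨T, hT⟩, T', hT'⟩ := order_ivt (d i) hdc (fun k => (h0 k).le) h1
      refine ⟨ρ, T, T', lt_of_le_of_ne hρ.1 ?_, hρ.2, fun _ => ⟨hT, hT'⟩⟩
      rintro rfl
      have h3 : T'.Nonempty := by
        rw [← Finset.card_pos, hT'.1]
        omega
      obtain ⟨k, hk⟩ := h3
      have h4 := hT'.2 k hk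
      have h5 := h0 k
      linarith
    · exact ⟨1, ∅, ∅, one_pos, le_rfl, fun h => absurd h hi⟩
  choose ρ T T' hρ0 hρ1 hTT using hscale
  -- the second rescaling
  let h : ℕ → ℂ → Fin (n + 1) → ℂ := fun i w => g1 i (0 + w * (ρ i : ℂ))
  let R2 : ℕ → ℝ := fun i => R1 i / ρ i
  have hin2 : ∀ i, ∀ w ∈ ball (0 : ℂ) (R2 i), 0 + w * (ρ i : ℂ) ∈ ball (0 : ℂ) (R1 i) := by
    intro i w hw
    rw [mem_ball_zero_iff] at hw ⊢
    rw [zero_add, norm_mul, Complex.norm_real, Real.norm_of_nonneg (hρ0 i).le]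
    have h1 : ‖w‖ < R1 i / ρ i := hw
    rwa [lt_div_iff₀ (hρ0 i)] at h1
  have hR1p : ∀ i, 0 < R1 i := by
    intro i
    change 0 < R i - 1
    have h2 : 2 ≤ R i := by
      change 2 ≤ ‖b i‖⁻¹
      rw [le_inv_comm₀ two_pos (hbn i)]
      linarith [hb2 i]
    linarith
  have hh : ASeq 𝒰 m R2 h := by
    refine ⟨fun M => ?_, fun i j => ?_, fun i z hz => hg1.ne i _ (hin2 i z hz), fun i j k => ?_⟩
    · filter_upwards [hg1.rad M] with i hi
      refine hi.trans_le ?_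
      change R1 i ≤ R1 i / ρ i
      rw [le_div_iff₀ (hρ0 i)]
      have := hR1p i
      nlinarith [hρ1 i]
    · refine (hg1.diff i j).comp ?_ (hin2 i)
      exact (differentiableOn_const _).add (differentiableOn_id.mul (differentiableOn_const _))
    · refine (hg1.alg i j k).comp (s := (ρ i : ℂ)) (t := 0) (u := 0) (v := 1)
        (φ := fun w => 0 + w * (ρ i : ℂ)) (infinite_ball (div_pos (hR1p i) (hρ0 i))) (hin2 i)
        (fun x _ y _ hxy => ?_)
        (fun w _ => by rw [zero_mul, zero_add]; exact one_ne_zero) fun w _ => by ring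
      exact mul_right_cancel₀ (Complex.ofReal_ne_zero.2 (hρ0 i).ne') (add_left_cancel hxy)
  have hhE : ∀ i, ∀ z ∈ ball (0 : ℂ) (R2 i), ∀ F ∈ E, eval (h i z) F = 0 := fun i z hz =>
    hgE i _ (hin1 i _ (hin2 i z hz))
  obtain ⟨P', D', hD', hDd', hPd', hP', hlim'⟩ := curve_gen hh
  have hdh : ∀ i k, d i k (ρ i) = ‖pm (h i (ω k)) - pm x‖ := by
    intro i k
    change ‖pm (g1 i ((ρ i : ℂ) * ω k)) - pm x‖ = ‖pm (g1 i (0 + ω k * (ρ i : ℂ))) - pm x‖
    rw [zero_add, mul_comm]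
  obtain ⟨T0, hT0⟩ := ultra_fin (𝒰 := 𝒰) T
  obtain ⟨T0', hT0'⟩ := ultra_fin (𝒰 := 𝒰) T'
  have hev : ∀ᶠ i in (𝒰 : Filter ℕ), (T0.card = s + 1 ∧ ∀ k ∈ T0, η ≤ d i k (ρ i)) ∧
      (T0'.card = s + 1 ∧ ∀ k ∈ T0', d i k (ρ i) ≤ η) := by
    filter_upwards [hT0, hT0', hgood] with i h1 h2 h3
    have h4 := hTT i h3
    rw [h1, h2] at h4
    exact h4
  obtain ⟨i0, hi0⟩ := hev.exists
  obtain ⟨k, hk, hDk⟩ := good_pt hD' hDd' hωinj hi0.1.1
  obtain ⟨k', hk', hDk'⟩ := good_pt hD' hDd' hωinj hi0.2.1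
  have hkge : η ≤ ‖pm (fun j => (P' j).eval (ω k)) - pm x‖ := by
    refine ge_of_tendsto ((hlim' (fun _ => ω k) _ hDk tendsto_const_nhds).sub_const _).norm ?_
    filter_upwards [hev] with i hi
    have h1 := hi.1.2 k hk
    rwa [hdh] at h1
  have hkle : ‖pm (fun j => (P' j).eval (ω k')) - pm x‖ ≤ η := by
    refine le_of_tendsto ((hlim' (fun _ => ω k') _ hDk' tendsto_const_nhds).sub_const _).norm ?_
    filter_upwards [hev] with i hi
    have h1 := hi.2.2 k' hk'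
    rwa [hdh] at h1
  have hPc' : ∀ z w, pm (fun j => (P' j).eval z) = pm fun j => (P' j).eval w :=
    dich hE hh hhE hZ hD' hPd' hP' hlim' ⟨ω k', hkle.trans hη.2.le⟩
  have hηe : ‖pm (fun j => (P' j).eval 0) - pm x‖ = η := by
    refine le_antisymm ?_ ?_
    · rw [hPc' 0 (ω k')]
      exact hkle
    · rw [hPc' 0 (ω k)]
      exact hkge
  apply hηY
  refine ⟨pm fun j => (P' j).eval 0, ?_, hηe⟩
  refine hval ρ hρ0 D' hD' _ (hP' 0) fun z hz => ⟨?_, ?_⟩
  · filter_upwards [hh.ev (ζ := fun _ => z) tendsto_const_nhds] with i hi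
    have h1 := hin2 i z hi
    rwa [zero_add, mul_comm] at h1
  · obtain ⟨y', hy', hyt, hyp⟩ := hh.vec (ζ := fun _ => z) tendsto_const_nhds
    refine ⟨fun i => ((‖h i z‖⁻¹ : ℝ) : ℂ), y', hy', ?_, fun j => ?_⟩
    · have h1 := tendsto_nhds_unique hyp (hlim' (fun _ => z) z hz tendsto_const_nhds)
      rw [h1, hPc' z 0]
    · refine (hyt j).congr fun i => ?_
      change _ * g1 i (0 + z * (ρ i : ℂ)) j = _ * g1 i ((ρ i : ℂ) * z) j
      rw [zero_add, mul_comm z]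

end Pool.Agent.V1153.KB
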