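import Pool.Agent.V1153.LK.Stab

/-!
Continuous families of forms.
-/

set_option autoImplicit false

namespace Pool.Agent.V1153.KB

open Filter Topology Set Metric MvPolynomial
open Pool.Agent.V1153.UG

variable {n : ℕ}

/-- a family of forms of degree `a` whose coefficients are continuous functions of the parameter -/
structure CoefFam {T : Type} [TopologicalSpace T] (a : ℕ)
    (F : T → MvPolynomial (Fin (n + 1)) ℂ) : Prop where
  hom : ∀ t, (F t).IsHomogeneous a
  cont : ∀ m, Continuous fun t => coeff m (F t)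

theorem CoefFam.cfam {T : Type} [TopologicalSpace T] {a : ℕ}
    {F : T → MvPolynomial (Fin (n + 1)) ℂ} (h : CoefFam a F) : CFam a F := by
  refine ⟨h.hom, ?_⟩
  have hfin : {m : Fin (n + 1) →₀ ℕ | m.degree = a}.Finite := by
    refine (Finsupp.finite_of_degree_le a).subset ?_
    intro m hm
    exact le_of_eq hm
  have key : (fun p : T × (Fin (n + 1) → ℂ) => eval p.2 (F p.1)) = fun p =>
      ∑ m ∈ hfin.toFinset, coeff m (F p.1) * ∏ i, p.2 i ^ m i := by
    funext p
    rw [eval_eq']
    refine Finset.sum_subset (fun m hm => ?_) fun m _ hm => by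
      rw [notMem_support_iff.1 hm, zero_mul]
    rw [Set.Finite.mem_toFinset]
    by_contra hne
    exact (mem_support_iff.1 hm) ((h.hom p.1).coeff_eq_zero hne)
  rw [key]
  refine continuous_finsetSum _ fun m _ => ((h.cont m).comp continuous_fst).mul ?_
  exact continuous_finsetProd _ fun i _ => ((continuous_apply i).comp continuous_snd).pow _

theorem DAlg.le {m N : ℕ} (hmN : m ≤ N) {E : Set (MvPolynomial (Fin (n + 1)) ℂ)}
    {f : ℂ → Fin (n + 1) → ℂ} (h : DAlg E m f) : DAlg E N f :=
  ⟨h.1, fun j k => (h.2 j k).le hmN⟩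

end Pool.Agent.V1153.KB
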