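import Pool.Agent.V1153.PK.Fin

/-!
Definitions for discs in quasi-projective varieties.
-/

set_option autoImplicit false

namespace Pool.Agent.V1153.KB

open Filter Topology Set Metric MvPolynomial
open Pool.Agent.V1153.UG
open scoped ENNReal

variable {n : ℕ}

/-- `P` gives a nonconstant map of degree at most `N` from the affine line to the complement of
`Q = 0` in the variety with the equations `E`. -/
structure LineC (E : Set (MvPolynomial (Fin (n + 1)) ℂ)) (Q : MvPolynomial (Fin (n + 1)) ℂ)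
    (N : ℕ) (P : Fin (n + 1) → Polynomial ℂ) : Prop where
  deg : ∀ j, (P j).natDegree ≤ N
  ne : ∀ z, (fun j => (P j).eval z) ≠ 0
  mem : ∀ z, ∀ F ∈ E, eval (fun j => (P j).eval z) F = 0
  off : ∀ z, eval (fun j => (P j).eval z) Q ≠ 0
  nc : ∃ s t j k, (P j).eval s * (P k).eval t ≠ (P k).eval s * (P j).eval t

/-- The curves of the affine line of degree at most `N` do not meet the ball of radius `δ` about
`x`. -/
def AwayQ (E : Set (MvPolynomial (Fin (n + 1)) ℂ)) (Q : MvPolynomial (Fin (n + 1)) ℂ) (N : ℕ)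
    (x : Fin (n + 1) → ℂ) (δ : ℝ) : Prop :=
  ∀ P : Fin (n + 1) → Polynomial ℂ, LineC E Q N P →
    ∀ z, δ < ‖pm (fun j => (P j).eval z) - pm x‖

/-- the image of the disc does not meet `Q = 0` -/
def OffD (Q : MvPolynomial (Fin (n + 1)) ℂ) (f : ℂ → Fin (n + 1) → ℂ) : Prop :=
  ∀ z ∈ ball (0 : ℂ) 1, eval (f z) Q ≠ 0

/-- the algebraic discs of bidegree at most `(m, m)` in the complement of `Q = 0` in the variety with
the equations `E` -/
def DAlgQ (E : Set (MvPolynomial (Fin (n + 1)) ℂ)) (Q : MvPolynomial (Fin (n + 1)) ℂ) (m : ℕ)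
    (f : ℂ → Fin (n + 1) → ℂ) : Prop := DAlg E m f ∧ OffD Q f

/-- the discs of complexity at most `(s, r, e, d)` in the complement of `Q = 0` in the variety with
the equations `E` -/
def DCxQ (E : Set (MvPolynomial (Fin (n + 1)) ℂ)) (Q : MvPolynomial (Fin (n + 1)) ℂ)
    (s r e d : ℕ) (f : ℂ → Fin (n + 1) → ℂ) : Prop :=
  RDisc E 1 f ∧ OffD Q f ∧ Bdd (ball 0 1) Q s r e d f

/-- For some form `G` which does not vanish on the variety with the ideal `I` the derivatives at the
centre of the discs in `𝒟` are bounded for centres in compact subsets of the complement of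
`Q G = 0`. -/
def PseudoBddQ (I : Ideal (MvPolynomial (Fin (n + 1)) ℂ)) (Q : MvPolynomial (Fin (n + 1)) ℂ)
    (q : ℕ) (𝒟 : (ℂ → Fin (n + 1) → ℂ) → Prop) : Prop :=
  ∃ (G : MvPolynomial (Fin (n + 1)) ℂ) (γ : ℕ), G.IsHomogeneous γ ∧ G ∉ I ∧
    BddOff (Q * G) (q + γ) 𝒟

/-- For each `N` the nonconstant maps of degree at most `N` from the affine line to the complement of
`Q = 0` have images in one proper closed subset. -/
def LineThin (I : Ideal (MvPolynomial (Fin (n + 1)) ℂ)) (Q : MvPolynomial (Fin (n + 1)) ℂ) :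
    Prop :=
  ∀ N : ℕ, ∃ G : MvPolynomial (Fin (n + 1)) ℂ, (∃ m, G.IsHomogeneous m) ∧ G ∉ I ∧
    ∀ P, LineC (homs I) Q N P → ∀ t, eval (fun j => (P j).eval t) G = 0

/-- The Kobayashi pseudodistance given by the discs in `𝒟` of each point `x` of `X` outside of `G = 0`
and each other point `y` of `X` is positive, where `X` is the complement of `Q = 0` in the variety
with the equations `E`. -/
def HypOff (E : Set (MvPolynomial (Fin (n + 1)) ℂ)) (Q G : MvPolynomial (Fin (n + 1)) ℂ)
    (𝒟 : (ℂ → Fin (n + 1) → ℂ) → Prop) : Prop :=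
  ∀ x y : Fin (n + 1) → ℂ, x ≠ 0 → y ≠ 0 → (∀ F ∈ E, eval x F = 0) → (∀ F ∈ E, eval y F = 0) →
    eval x Q ≠ 0 → eval y Q ≠ 0 → eval x G ≠ 0 → ¬ Same x y → 0 < kob 𝒟 x y

/-- For some form `G` which does not vanish on the variety with the ideal `I` the Kobayashi
pseudodistance given by the discs in `𝒟` is positive outside of `G = 0`. -/
def PseudoKob (I : Ideal (MvPolynomial (Fin (n + 1)) ℂ)) (Q : MvPolynomial (Fin (n + 1)) ℂ)
    (𝒟 : (ℂ → Fin (n + 1) → ℂ) → Prop) : Prop :=
  ∃ G : MvPolynomial (Fin (n + 1)) ℂ, (∃ γ, G.IsHomogeneous γ) ∧ G ∉ I ∧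
    HypOff (homs I) Q G 𝒟

end Pool.Agent.V1153.KB
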