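import Pool.Agent.V1153.PK.DefQ
import Pool.Agent.V1153.LK.Stab

/-!
Definitions for discs in complements of hypersurfaces and the strata of the boundary.
-/

set_option autoImplicit false

namespace Pool.Agent.V1153.KB

open Filter Topology Set Metric MvPolynomial
open Pool.Agent.V1153.UG
open Pool.Agent.TH143.GT (FunField)
open Pool.Agent.W602.GT (LogGeneralType)
open Pool.Agent.W603.GR (OffQ)

variable {n : ℕ}

/-- The equations of the stratum with the index set `J`: it consists of the points of the variety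
with the equations `E` at which the forms `Q l` vanish for `l ∈ J` and do not vanish for `l ∉ J`. -/
def strE (E : Set (MvPolynomial (Fin (n + 1)) ℂ)) {κ : Type}
    (Q : κ → MvPolynomial (Fin (n + 1)) ℂ) (J : Finset κ) : Set (MvPolynomial (Fin (n + 1)) ℂ) :=
  E ∪ {H | ∃ l ∈ J, H = Q l}

/-- The product of the forms which do not vanish at the points of the stratum. -/
noncomputable def strQ {κ : Type} [Fintype κ] [DecidableEq κ]
    (Q : κ → MvPolynomial (Fin (n + 1)) ℂ) (J : Finset κ) : MvPolynomial (Fin (n + 1)) ℂ :=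
  ∏ l ∈ Jᶜ, Q l

/-- For all `t` near `t0` the derivatives at the centre of the discs in `𝒟 t` are at most `C` for the
Fubini-Study metric, and the Kobayashi pseudodistance given by the discs in `𝒟 t` is at least `c`
times the distance in the projective space. -/
def LocHyp {T : Type} [TopologicalSpace T] (t0 : T) (𝒟 : T → (ℂ → Fin (n + 1) → ℂ) → Prop) :
    Prop :=
  ∃ C c : ℝ, 0 < c ∧ ∀ᶠ t in 𝓝 t0, (∀ f, 𝒟 t f → fs f 0 ≤ C) ∧ KobGe c (𝒟 t)

/-- All integral closed subvarieties with more than one point of the complement of `Q = 0` in the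
variety with the equations `E` are of log general type. -/
def AllLog (E : Set (MvPolynomial (Fin (n + 1)) ℂ)) (Q : MvPolynomial (Fin (n + 1)) ℂ) (q : ℕ) :
    Prop :=
  ∀ I : Ideal (MvPolynomial (Fin (n + 1)) ℂ), I.IsPrime → Ideal.span E ≤ I → Q ∉ I →
    (∃ v w : Fin (n + 1) → ℂ, (∀ F ∈ I, (∃ d, F.IsHomogeneous d) → eval v F = 0) ∧
      (∀ F ∈ I, (∃ d, F.IsHomogeneous d) → eval w F = 0) ∧ eval v Q ≠ 0 ∧ eval w Q ≠ 0 ∧
      ∃ i j, v i * w j ≠ v j * w i) →
    ∃ (K : Type) (_ : Field K) (_ : Algebra ℂ K) (w : ℕ) (y : Fin (n + 1) → K),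
      FunField I Q K w y ∧ LogGeneralType ℂ K w (OffQ Q q y)

end Pool.Agent.V1153.KB
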