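import Pool.Agent.V1153.PK.Mod

/-!
Kobayashi hyperbolicity modulo a proper closed subset.
-/

set_option autoImplicit false

namespace Pool.Agent.V1153.KB

open Filter Topology Set Metric MvPolynomial
open Pool.Agent.V1153.UG Pool.Agent.V1153.UR
open scoped ENNReal

variable {n : ℕ}

theorem cx_algQ' {s r e d N : ℕ} {I : Ideal (MvPolynomial (Fin (n + 1)) ℂ)}
    {E : Set (MvPolynomial (Fin (n + 1)) ℂ)} {Q G : MvPolynomial (Fin (n + 1)) ℂ} {γ : ℕ}
    (hG : G.IsHomogeneous γ)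
    (hIE : ∀ x : Fin (n + 1) → ℂ, (∀ F ∈ E, eval x F = 0) → ∀ F ∈ I, (∃ m, F.IsHomogeneous m) →
      eval x F = 0)
    (hN : ∀ U h, Arc I Q s r e d U h → (∀ z ∈ U, eval (h z) G = 0) ∨ ∀ j l, ∃ m ≤ N,
      AlgPair m U (fun z => h z j) fun z => h z l)
    {f : ℂ → Fin (n + 1) → ℂ} (hf : DCxQ E Q s r e d f) {a : ℂ} (ha : a ∈ ball (0 : ℂ) 1)
    (h0 : eval (f a) G ≠ 0) : DAlgQ E Q N f := by
  obtain ⟨hf, hoff, U, q, y, g, hU, ⟨z0, hz0⟩, hUS, hsys, hg, hcx, hcu⟩ := hf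
  have hmem : ∀ z ∈ ball (0 : ℂ) 1, ∀ F ∈ I, (∃ m, F.IsHomogeneous m) →
      eval (f z) F = 0 := fun z hz => hIE (f z) (hf.mem z hz)
  obtain ⟨ζ, hζ, ε, hε, hb, hA⟩ := Bdd.arc isOpen_ball hf.ne hmem hU ⟨z0, hz0, hUS hz0⟩ hsys hg
    hcx hcu
  rcases hN _ _ hA with h1 | h1
  · exfalso
    have hd : DifferentiableOn ℂ (fun z => eval (f z) G) (ball 0 1) := diffOn_eval hf.diff G
    have han : AnalyticOnNhd ℂ (fun z => eval (f z) G) (ball 0 1) := hd.analyticOnNhd isOpen_ball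
    refine h0 (han.eqOn_zero_of_preconnected_of_eventuallyEq_zero
      (convex_ball 0 1).isPreconnected hζ.2 ?_ ha)
    filter_upwards [ball_mem_nhds ζ hε] with z hz
    have h2 := h1 z hz
    rw [eval_homog hG] at h2
    exact (mul_eq_zero.1 h2).resolve_left (pow_ne_zero _ (hg z (hb hz).1))
  · refine ⟨⟨hf, fun j k => ?_⟩, hoff⟩
    obtain ⟨m, hm, h2⟩ := h1 j k
    have h3 := (AlgP.of_pair (pair_scale (fun z hz => hg z (hb hz).1) h2)).le hm
    exact h3.extend isOpen_ball (convex_ball 0 1).isPreconnected isOpen_ball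
      ⟨ζ, mem_ball_self hε⟩ (fun z hz => (hb hz).2) (hf.diff j) (hf.diff k)

/-- **Uniform version.** -/
theorem off_kob (n D s r e d : ℕ) : ∃ N, ∀ (E : Set (MvPolynomial (Fin (n + 1)) ℂ))
    (Q G : MvPolynomial (Fin (n + 1)) ℂ) (q γ : ℕ), (∀ F ∈ E, ∃ a ≤ D, F.IsHomogeneous a) →
      q ≤ D → Q.IsHomogeneous q → γ ≤ D → G.IsHomogeneous γ → VanGm (Ideal.span E) Q N G →
        HypOff E Q G (DCxQ E Q s r e d) := by
  obtain ⟨N, hN⟩ := family n D s r e d
  refine ⟨(n + 1) * N, fun E Q G q γ hE hq hQ hγ hG hv => ?_⟩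
  have hle : N ≤ (n + 1) * N := Nat.le_mul_of_pos_left _ (by omega)
  have hv' : VanGm (Ideal.span E) Q N G := fun P hP =>
    hv P ⟨fun j => (hP.deg j).trans hle, hP.mem, hP.off, hP.nc⟩
  obtain ⟨-, -, h1⟩ := hN E Q G hE ⟨q, hq, hQ⟩ ⟨γ, hγ, hG⟩ hv'
  have hom : ∀ F ∈ E, ∃ a, F.IsHomogeneous a := fun F hF => by
    obtain ⟨a, -, ha⟩ := hE F hF
    exact ⟨a, ha⟩
  intro x y hx hy _ _ hxQ _ hxG hxy
  refine kob_pos_off (m := N) hom hQ hG (fun P hP t => hv P hP.gm t) (fun f hf =>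
    ⟨hf.1, fun a ha h0 => ?_⟩) hx hy hxQ hxG hxy
  refine cx_algQ' (I := Ideal.span E) hG (fun x hx F hF hh => span_zero x hx F hF hh)
    (fun U h hA => ?_) hf ha h0
  by_cases hc : ∃ j l, ∀ m ≤ N, ¬ AlgPair m U (fun z => h z j) fun z => h z l
  · exact Or.inl (h1 U h hA hc)
  · right
    push Not at hc
    exact hc

theorem off_kob_alg {m : ℕ} {E : Set (MvPolynomial (Fin (n + 1)) ℂ)}
    (hE : ∀ F ∈ E, ∃ a, F.IsHomogeneous a) {Q : MvPolynomial (Fin (n + 1)) ℂ} {q : ℕ}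
    (hQ : Q.IsHomogeneous q) {G : MvPolynomial (Fin (n + 1)) ℂ} {γ : ℕ} (hG : G.IsHomogeneous γ)
    (hv : ∀ P, LineC E Q ((n + 1) * m) P → ∀ t, eval (fun j => (P j).eval t) G = 0) :
    HypOff E Q G (DAlgQ E Q m) := fun _ _ hx hy _ _ hxQ _ hxG hxy =>
  kob_pos_off hE hQ hG hv (fun _ hf => ⟨hf.1.1, fun _ _ _ => hf⟩) hx hy hxQ hxG hxy

/-- a second point on a curve -/
theorem second_pt {P : Fin (n + 1) → Polynomial ℂ} (hne : ∀ z, (fun j => (P j).eval z) ≠ 0)
    (hnc : ∃ s t j k, (P j).eval s * (P k).eval t ≠ (P k).eval s * (P j).eval t) (t0 : ℂ) :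
    ∃ t, t ≠ 0 ∧ ¬ Same (fun j => (P j).eval t0) fun j => (P j).eval t := by
  by_contra hcon
  push Not at hcon
  have hall : ∀ t, Same (fun j => (P j).eval t0) fun j => (P j).eval t := by
    intro t j k
    have h1 : Polynomial.X * (Polynomial.C ((P j).eval t0) * P k -
        Polynomial.C ((P k).eval t0) * P j) = 0 := by
      apply Polynomial.funext
      intro s
      rw [Polynomial.eval_mul, Polynomial.eval_X, Polynomial.eval_zero, Polynomial.eval_sub,
        Polynomial.eval_mul, Polynomial.eval_mul, Polynomial.eval_C, Polynomial.eval_C]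
      by_cases hs : s = 0
      · rw [hs, zero_mul]
      · have h2 : (P j).eval t0 * (P k).eval s = (P k).eval t0 * (P j).eval s := hcon s hs j k
        rw [h2, sub_self, mul_zero]
    have h2 := (mul_eq_zero.1 h1).resolve_left Polynomial.X_ne_zero
    have h3 := congrArg (fun p : Polynomial ℂ => p.eval t) h2
    simp only [Polynomial.eval_sub, Polynomial.eval_mul, Polynomial.eval_C,
      Polynomial.eval_zero] at h3
    exact sub_eq_zero.1 h3
  obtain ⟨s, t, j, k, h1⟩ := hnc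
  have h2 := pm_congr (hne t0) (hne s) (hall s)
  have h3 := pm_congr (hne t0) (hne t) (hall t)
  exact h1 (pm_inj (hne s) (hne t) (h2.symm.trans h3) j k)

theorem exp_disc {I : Ideal (MvPolynomial (Fin (n + 1)) ℂ)} {Q : MvPolynomial (Fin (n + 1)) ℂ}
    {q : ℕ} (hQ : Q.IsHomogeneous q) {N : ℕ} {P' : Fin (n + 1) → Polynomial ℂ}
    (hP' : GmBdd I Q N P') (hne : ∀ z, (fun j => (P' j).eval z) ≠ 0)
    (hoff : ∀ z, z ≠ 0 → eval (fun j => (P' j).eval z) Q ≠ 0) (s c : ℂ) :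
    DCxQ (homs I) Q 1 2 (q * N + N + 1) 0 fun z j => (P' j).eval (Complex.exp (s + z * c)) := by
  have hd : ∀ j, Differentiable ℂ fun w => (P' j).eval (Complex.exp w) := fun j =>
    (P' j).differentiable.comp Complex.differentiable_exp
  refine ⟨⟨fun j => ((hd j).comp (by fun_prop :
    Differentiable ℂ fun z : ℂ => s + z * c)).differentiableOn, fun z _ => hne _,
    fun z _ F hF => ?_⟩, fun z _ => hoff _ (Complex.exp_ne_zero _), ?_⟩
  · rw [← eval_aeval, hP'.mem F hF.1 hF.2, Polynomial.eval_zero]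
  · refine exp_bdd1 (q := 1) (i := 0) (κ := c) (φ := fun z => s + z * c)
      (U := ball 0 1) hQ hP' one_ne_zero (fun j => (one_mul _).symm) isOpen_ball Subset.rfl
      (by rw [Polynomial.natDegree_one]) (fun z _ => by
        rw [Polynomial.eval_one]
        exact one_ne_zero) (Nat.zero_le _) (Nat.le_succ _) (by omega) (fun z _ => ?_)
      ⟨0, mem_ball_self one_pos, by
        rw [Polynomial.eval_one]
        exact one_ne_zero⟩
    have h1 : HasDerivAt (fun z : ℂ => s + z * c) (1 * c) z :=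
      ((hasDerivAt_id z).mul_const c).const_add _
    refine h1.congr_deriv ?_
    rw [pow_zero, mul_one, one_mul]

theorem line_disc {E : Set (MvPolynomial (Fin (n + 1)) ℂ)} {Q : MvPolynomial (Fin (n + 1)) ℂ}
    {N : ℕ} {P : Fin (n + 1) → Polynomial ℂ} (hP : LineC E Q N P) (t c : ℂ) :
    DAlgQ E Q N fun z j => (P j).eval (t + z * c) := by
  have hN1 : 1 ≤ N := by
    by_contra h0
    obtain ⟨s, t, j, k, h1⟩ := hP.nc
    apply h1
    have h2 : ∀ j, (P j).natDegree = 0 := fun j => by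
      have := hP.deg j
      omega
    rw [Polynomial.eq_C_of_natDegree_eq_zero (h2 j),
      Polynomial.eq_C_of_natDegree_eq_zero (h2 k)]
    simp only [Polynomial.eval_C]
    ring
  refine ⟨⟨⟨fun j => ?_, fun z _ => hP.ne _, fun z _ => hP.mem _⟩,
        fun j k => ?_⟩, fun z _ => hP.off _⟩
  · exact ((P j).differentiable.comp (by fun_prop :
      Differentiable ℂ fun z : ℂ => t + z * c)).differentiableOn
  · have hcomp : ∀ j : Fin (n + 1),
        ((P j).comp (Polynomial.C t + Polynomial.X * Polynomial.C c)).natDegree ≤ N := by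
      intro j
      refine Polynomial.natDegree_comp_le.trans ?_
      have h1 : (Polynomial.C t + Polynomial.X * Polynomial.C c).natDegree ≤ 1 := by
        refine (Polynomial.natDegree_add_le _ _).trans (max_le ?_ ?_)
        · rw [Polynomial.natDegree_C]
          exact Nat.zero_le _
        · exact (Polynomial.natDegree_mul_C_le _ _).trans Polynomial.natDegree_X_le
      calc _ ≤ N * 1 := Nat.mul_le_mul (hP.deg j) h1
        _ = N := mul_one _
    have h1 := algP_poly hN1 (ball 0 1) (hcomp j) (hcomp k)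
    simp only [Polynomial.eval_comp, Polynomial.eval_add, Polynomial.eval_C,
      Polynomial.eval_mul, Polynomial.eval_X] at h1
    exact h1

theorem kobQ_iff {I : Ideal (MvPolynomial (Fin (n + 1)) ℂ)} (hI : I.IsPrime)
    {Q : MvPolynomial (Fin (n + 1)) ℂ} {q : ℕ} (hQ : Q.IsHomogeneous q) :
    ¬ GmRuled I Q ↔ ∀ s r e d, PseudoKob I Q (DCxQ (homs I) Q s r e d) := by
  have hom : ∀ F ∈ homs I, ∃ a, F.IsHomogeneous a := fun F hF => hF.2
  have hthin := thin_iff hI hQ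
  constructor
  · intro h s r e d
    obtain ⟨G1, m0, ⟨γ1, hG1⟩, hG1I, harc⟩ := arc_thin hI hQ (hthin.2 h) s r e d
    obtain ⟨G2, ⟨γ2, hG2⟩, hG2I, hv⟩ := hthin.2 h ((n + 1) * m0)
    refine ⟨G1 * G2, ⟨γ1 + γ2, hG1.mul hG2⟩, fun hm => ?_, ?_⟩
    · rcases hI.mem_or_mem hm with h1 | h1
      · exact hG1I h1
      · exact hG2I h1
    · intro x y hx hy _ _ hxQ _ hxG hxy
      refine kob_pos_off (m := m0) hom hQ (hG1.mul hG2) (fun P hP t => ?_) (fun f hf =>
        ⟨hf.1, fun a ha h0 => ?_⟩) hx hy hxQ hxG hxy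
      · rw [map_mul, hv P (gm_homs.1 hP.gm) t, mul_zero]
      · rw [map_mul] at h0
        have hIE : ∀ x : Fin (n + 1) → ℂ, (∀ F ∈ homs I, eval x F = 0) → ∀ F ∈ I,
            (∃ m, F.IsHomogeneous m) → eval x F = 0 := fun x hx F hF hh => hx F ⟨hF, hh⟩
        exact cx_algQ' (I := I) hG1 hIE harc hf ha (left_ne_zero_of_mul h0)
  · intro h
    rw [← hthin]
    intro N
    obtain ⟨G, ⟨γ, hG⟩, hGI, hB⟩ := h 1 2 (q * N + N + 1) 0
    refine ⟨G, ⟨γ, hG⟩, hGI, fun P hP t => ?_⟩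
    by_contra ht
    obtain ⟨P', hP', hne, hoff, hGG⟩ := gm_prim hQ hP
    obtain ⟨t2, ht2⟩ := hGG G γ hG ⟨t, ht⟩
    obtain ⟨t0, ht0⟩ : ∃ t, (Polynomial.X * (aeval P' G : Polynomial ℂ)).eval t ≠ 0 := by
      refine poly_ne (mul_ne_zero Polynomial.X_ne_zero ?_)
      intro h
      apply ht2
      rw [← eval_aeval, h, Polynomial.eval_zero]
    rw [Polynomial.eval_mul, Polynomial.eval_X, eval_aeval] at ht0
    have ht00 := left_ne_zero_of_mul ht0
    obtain ⟨t1, ht1, hns⟩ := second_pt hne hP'.nc t0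
    have hmem : ∀ t, ∀ F ∈ homs I, eval (fun j => (P' j).eval t) F = 0 := fun t F hF => by
      rw [← eval_aeval, hP'.mem F hF.1 hF.2, Polynomial.eval_zero]
    have h1 := hB _ _ (hne t0) (hne t1) (hmem t0) (hmem t1) (hoff t0 ht00) (hoff t1 ht1)
      (right_ne_zero_of_mul ht0) hns
    have h2 := kob_ent (𝒟 := DCxQ (homs I) Q 1 2 (q * N + N + 1) 0)
      (h := fun w j => (P' j).eval (Complex.exp w)) (s := Complex.log t0) (t := Complex.log t1)
      fun c => exp_disc hQ hP' hne hoff _ c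
    simp only [Complex.exp_log ht00, Complex.exp_log ht1] at h2
    rw [h2] at h1
    exact lt_irrefl _ h1

theorem kobQ_line {I : Ideal (MvPolynomial (Fin (n + 1)) ℂ)}
    {Q : MvPolynomial (Fin (n + 1)) ℂ} {q : ℕ} (hQ : Q.IsHomogeneous q) :
    LineThin I Q ↔ ∀ m, PseudoKob I Q (DAlgQ (homs I) Q m) := by
  have hom : ∀ F ∈ homs I, ∃ a, F.IsHomogeneous a := fun F hF => hF.2
  constructor
  · intro h m
    obtain ⟨G, ⟨γ, hG⟩, hGI, hv⟩ := h ((n + 1) * m)
    exact ⟨G, ⟨γ, hG⟩, hGI, off_kob_alg hom hQ hG hv⟩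
  · intro h N
    obtain ⟨G, hG, hGI, hB⟩ := h N
    refine ⟨G, hG, hGI, fun P hP t => ?_⟩
    by_contra ht
    obtain ⟨t1, -, hns⟩ := second_pt hP.ne hP.nc t
    have h1 := hB _ _ (hP.ne t) (hP.ne t1) (hP.mem t) (hP.mem t1) (hP.off t) (hP.off t1) ht hns
    have h2 := kob_ent (𝒟 := DAlgQ (homs I) Q N) (h := fun w j => (P j).eval w) (s := t)
      (t := t1) fun c => line_disc hP _ c
    rw [h2] at h1
    exact lt_irrefl _ h1

end Pool.Agent.V1153.KB
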