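import Pool.Agent.V1153.PK.Bub
import Pool.Agent.V1153.UR.Rec

/-!
Derivatives of discs with centres away from the rational curves.
-/

set_option autoImplicit false

namespace Pool.Agent.V1153.KB

open Filter Topology Set Metric MvPolynomial
open Pool.Agent.V1153.UG Pool.Agent.V1153.UR

variable {n : ℕ}

/-- For each `c > 0` the norms of the derivatives at the centre are bounded for the discs in `𝒟` with
a centre `f 0` such that `|G(f 0)| ≥ c |f 0| ^ γ`; for a form `G` of degree `γ` these centres are the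
points of a compact subset of the complement of `G = 0`, and each compact subset of it is contained
in such a set. -/
def BddOff (G : MvPolynomial (Fin (n + 1)) ℂ) (γ : ℕ) (𝒟 : (ℂ → Fin (n + 1) → ℂ) → Prop) : Prop :=
  ∀ c : ℝ, 0 < c → ∃ C : ℝ, ∀ f, 𝒟 f → c * ‖f 0‖ ^ γ ≤ ‖eval (f 0) G‖ → fs f 0 ≤ C

theorem away_of_van {E : Set (MvPolynomial (Fin (n + 1)) ℂ)} {N : ℕ}
    {G : MvPolynomial (Fin (n + 1)) ℂ} {γ : ℕ} (hG : G.IsHomogeneous γ)
    (hv : VanGm (Ideal.span E) 1 N G) {x : Fin (n + 1) → ℂ} (hx : x ≠ 0) (hxG : eval x G ≠ 0) :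
    ∃ δ > 0, δ ≤ 1 / (2 * ((n : ℝ) + 1)) ∧ Away E N x δ := by
  by_contra hcon
  push Not at hcon
  have hseq : ∀ i : ℕ, ∃ y : Fin (n + 1) → ℂ, y ≠ 0 ∧ eval y G = 0 ∧
      ‖pm y - pm x‖ ≤ 1 / ((i : ℝ) + 1) := by
    intro i
    have h1 : 0 < min (1 / (2 * ((n : ℝ) + 1))) (1 / ((i : ℝ) + 1)) := by positivity
    have h2 := hcon _ h1 (min_le_left _ _)
    unfold Away at h2
    push Not at h2
    obtain ⟨P, hP, hPne, z, hz⟩ := h2
    exact ⟨_, hPne z, hv P hP z, hz.trans (min_le_right _ _)⟩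
  choose y hy0 hyG hyx using hseq
  obtain ⟨𝒰, h𝒰le⟩ : ∃ 𝒰 : Ultrafilter ℕ, (𝒰 : Filter ℕ) ≤ atTop :=
    ⟨Filter.hyperfilter ℕ, Nat.hyperfilter_le_atTop⟩
  refine hxG (pt_eqn (𝒰 := 𝒰) hx ?_ hG (Filter.Eventually.of_forall hyG))
  rw [tendsto_iff_norm_sub_tendsto_zero]
  have h1 : Tendsto (fun i : ℕ => 1 / ((i : ℝ) + 1)) 𝒰 (𝓝 0) :=
    (tendsto_one_div_add_atTop_nhds_zero_nat (𝕜 := ℝ)).mono_left h𝒰le
  exact squeeze_zero (fun i => norm_nonneg _) hyx h1

theorem off_alg {m : ℕ} {E : Set (MvPolynomial (Fin (n + 1)) ℂ)}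
    (hE : ∀ F ∈ E, ∃ a, F.IsHomogeneous a) {G : MvPolynomial (Fin (n + 1)) ℂ} {γ : ℕ}
    (hG : G.IsHomogeneous γ) (hv : VanGm (Ideal.span E) 1 ((n + 1) * m) G) :
    BddOff G γ (DAlg E m) := by
  intro c hc
  by_contra hcon
  push Not at hcon
  choose f hf hfG hW using fun i : ℕ => hcon ((n + 1) * i)
  obtain ⟨𝒰, h𝒰le⟩ : ∃ 𝒰 : Ultrafilter ℕ, (𝒰 : Filter ℕ) ≤ atTop :=
    ⟨Filter.hyperfilter ℕ, Nat.hyperfilter_le_atTop⟩
  have hf0 : ∀ i, f i 0 ≠ 0 := fun i => (hf i).1.ne 0 (mem_ball_self one_pos)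
  let v : ℕ → Fin (n + 1) → ℂ := fun i j => ((‖f i 0‖⁻¹ : ℝ) : ℂ) * f i 0 j
  have hvn : ∀ i, ‖v i‖ = 1 := by
    intro i
    have h1 : v i = ((‖f i 0‖⁻¹ : ℝ) : ℂ) • f i 0 := by
      funext j
      rfl
    rw [h1, norm_smul, Complex.norm_real, Real.norm_of_nonneg (inv_nonneg.2 (norm_nonneg _)),
      inv_mul_cancel₀ (norm_ne_zero_iff.2 (hf0 i))]
  obtain ⟨x, hx⟩ := ultra_lim (𝒰 := 𝒰) (a := v) (C := 1)
    (Filter.Eventually.of_forall fun i => (hvn i).le)
  have hx1 : ‖x‖ = 1 := by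
    refine tendsto_nhds_unique hx.norm ?_
    simp only [hvn]
    exact tendsto_const_nhds
  have hx0 : x ≠ 0 := by
    intro h0
    rw [h0, norm_zero] at hx1
    exact zero_ne_one hx1
  have hvG : ∀ i, c ≤ ‖eval (v i) G‖ := by
    intro i
    have h1 : eval (v i) G = (((‖f i 0‖⁻¹ : ℝ) : ℂ)) ^ γ * eval (f i 0) G := eval_homog hG _ _
    have h2 : 0 < ‖f i 0‖ := norm_pos_iff.2 (hf0 i)
    rw [h1, norm_mul, norm_pow, Complex.norm_real,
      Real.norm_of_nonneg (inv_nonneg.2 (norm_nonneg _)), inv_pow, inv_mul_eq_div,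
      le_div_iff₀ (pow_pos h2 _)]
    exact hfG i
  have hxG : eval x G ≠ 0 := by
    have h1 : Tendsto (fun i => ‖eval (v i) G‖) 𝒰 (𝓝 ‖eval x G‖) :=
      (((MvPolynomial.continuous_eval G).tendsto x).comp hx).norm
    have h2 := ge_of_tendsto h1 (Filter.Eventually.of_forall hvG)
    intro h0
    rw [h0, norm_zero] at h2
    linarith
  obtain ⟨δ, hδ, hδ', hA⟩ := away_of_van hG hv hx0 hxG
  obtain ⟨ε, hε, C, hC⟩ := pseudo hE hδ hδ' hA
  have hpm : Tendsto (fun i => pm (f i 0)) 𝒰 (𝓝 (pm x)) := by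
    refine (pm_tendsto hx0 hx).congr fun i => ?_
    exact pm_smul (Complex.ofReal_ne_zero.2 (inv_ne_zero (norm_ne_zero_iff.2 (hf0 i)))) (hf0 i)
  have h1 := (tendsto_iff_norm_sub_tendsto_zero.1 hpm).eventually (gt_mem_nhds hε)
  have htop : Tendsto (fun i : ℕ => (i : ℝ)) 𝒰 atTop := tendsto_natCast_atTop_atTop.mono_left h𝒰le
  obtain ⟨i, h2, h3⟩ := (h1.and (htop.eventually_gt_atTop C)).exists
  have h4 := hC (f i) (hf i) h2
  have h5 := hW i
  have h6 := fs_le (f := f i) (z := 0) (hf0 i)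
  have h7 : ((n : ℝ) + 1) * W (f i) 0 ≤ (n + 1) * C :=
    mul_le_mul_of_nonneg_left h4 (by positivity)
  have h8 : ((n : ℝ) + 1) * C < (n + 1) * i := mul_lt_mul_of_pos_left h3 (by positivity)
  linarith

theorem cx_alg {s r e d N : ℕ} {I : Ideal (MvPolynomial (Fin (n + 1)) ℂ)}
    {E : Set (MvPolynomial (Fin (n + 1)) ℂ)} {G : MvPolynomial (Fin (n + 1)) ℂ} {γ : ℕ}
    (hG : G.IsHomogeneous γ)
    (hIE : ∀ x : Fin (n + 1) → ℂ, (∀ F ∈ E, eval x F = 0) → ∀ F ∈ I, (∃ m, F.IsHomogeneous m) →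
      eval x F = 0)
    (hN : ∀ U h, Arc I 1 s r e d U h → (∀ z ∈ U, eval (h z) G = 0) ∨ ∀ j l, ∃ m ≤ N,
      AlgPair m U (fun z => h z j) fun z => h z l)
    {f : ℂ → Fin (n + 1) → ℂ} (hf : DCx E s r e d f) (h0 : eval (f 0) G ≠ 0) : DAlg E N f := by
  obtain ⟨hf, U, q, y, g, hU, ⟨z0, hz0⟩, hUS, hsys, hg, hcx, hcu⟩ := hf
  have hmem : ∀ z ∈ ball (0 : ℂ) 1, ∀ F ∈ I, (∃ m, F.IsHomogeneous m) →
      eval (f z) F = 0 := fun z hz => hIE (f z) (hf.mem z hz)
  obtain ⟨ζ, hζ, ε, hε, hb, hA⟩ := Bdd.arc isOpen_ball hf.ne hmem hU ⟨z0, hz0, hUS hz0⟩ hsys hg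
    hcx hcu
  rcases hN _ _ hA with h1 | h1
  · exfalso
    have hd : DifferentiableOn ℂ (fun z => eval (f z) G) (ball 0 1) := diffOn_eval hf.diff G
    have han : AnalyticOnNhd ℂ (fun z => eval (f z) G) (ball 0 1) := hd.analyticOnNhd isOpen_ball
    refine h0 (han.eqOn_zero_of_preconnected_of_eventuallyEq_zero
      (convex_ball 0 1).isPreconnected hζ.2 ?_ (mem_ball_self one_pos))
    filter_upwards [ball_mem_nhds ζ hε] with z hz
    have h2 := h1 z hz
    rw [eval_homog hG] at h2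
    exact (mul_eq_zero.1 h2).resolve_left (pow_ne_zero _ (hg z (hb hz).1))
  · refine ⟨hf, fun j k => ?_⟩
    obtain ⟨m, hm, h2⟩ := h1 j k
    have h3 := (AlgP.of_pair (pair_scale (fun z hz => hg z (hb hz).1) h2)).le hm
    exact h3.extend isOpen_ball (convex_ball 0 1).isPreconnected isOpen_ball
      ⟨ζ, mem_ball_self hε⟩ (fun z hz => (hb hz).2) (hf.diff j) (hf.diff k)

theorem BddOff.sub {G : MvPolynomial (Fin (n + 1)) ℂ} {γ : ℕ}
    {𝒟 𝒟' : (ℂ → Fin (n + 1) → ℂ) → Prop} (h : BddOff G γ 𝒟)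
    (hs : ∀ f, 𝒟' f → f 0 ≠ 0 ∧ (eval (f 0) G ≠ 0 → 𝒟 f)) : BddOff G γ 𝒟' := by
  intro c hc
  obtain ⟨C, hC⟩ := h c hc
  refine ⟨C, fun f hf hfG => ?_⟩
  obtain ⟨h1, h2⟩ := hs f hf
  refine hC f (h2 fun h0 => ?_) hfG
  rw [h0, norm_zero] at hfG
  have h3 : 0 < c * ‖f 0‖ ^ γ := mul_pos hc (pow_pos (norm_pos_iff.2 h1) _)
  linarith

theorem span_zero {E : Set (MvPolynomial (Fin (n + 1)) ℂ)} (x : Fin (n + 1) → ℂ)
    (h : ∀ F ∈ E, eval x F = 0) (F : MvPolynomial (Fin (n + 1)) ℂ) (hF : F ∈ Ideal.span E)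
    (_ : ∃ m, F.IsHomogeneous m) : eval x F = 0 := by
  have h1 : Ideal.span E ≤ RingHom.ker (eval x) := Ideal.span_le.2 fun F hF => h F hF
  exact h1 hF

/-- **Uniform version.** -/
theorem off_cx (n D s r e d : ℕ) : ∃ N, ∀ (E : Set (MvPolynomial (Fin (n + 1)) ℂ))
    (G : MvPolynomial (Fin (n + 1)) ℂ) (γ : ℕ), (∀ F ∈ E, ∃ a ≤ D, F.IsHomogeneous a) → γ ≤ D →
      G.IsHomogeneous γ → VanGm (Ideal.span E) 1 N G → BddOff G γ (DCx E s r e d) := by
  obtain ⟨N, hN⟩ := family n D s r e d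
  refine ⟨(n + 1) * N, fun E G γ hE hγ hG hv => ?_⟩
  have hle : N ≤ (n + 1) * N := Nat.le_mul_of_pos_left _ (by omega)
  have hv' : VanGm (Ideal.span E) 1 N G := fun P hP =>
    hv P ⟨fun j => (hP.deg j).trans hle, hP.mem, hP.off, hP.nc⟩
  obtain ⟨-, -, h1⟩ := hN E 1 G hE ⟨0, Nat.zero_le _, isHomogeneous_one _ _⟩ ⟨γ, hγ, hG⟩ hv'
  refine (off_alg (m := N) (fun F hF => ?_) hG hv).sub fun f hf =>
    ⟨hf.1.ne 0 (mem_ball_self one_pos), fun h0 => ?_⟩
  · obtain ⟨a, -, ha⟩ := hE F hF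
    exact ⟨a, ha⟩
  · refine cx_alg (I := Ideal.span E) hG (fun x hx F hF hh => span_zero x hx F hF hh)
      (fun U h hA => ?_) hf h0
    by_cases hc : ∃ j l, ∀ m ≤ N, ¬ AlgPair m U (fun z => h z j) fun z => h z l
    · exact Or.inl (h1 U h hA hc)
    · right
      push Not at hc
      exact hc

/-- the forms in the ideal -/
def homs (I : Ideal (MvPolynomial (Fin (n + 1)) ℂ)) : Set (MvPolynomial (Fin (n + 1)) ℂ) :=
  {F | F ∈ I ∧ ∃ a, F.IsHomogeneous a}

theorem gm_homs {I : Ideal (MvPolynomial (Fin (n + 1)) ℂ)} {Q : MvPolynomial (Fin (n + 1)) ℂ}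
    {N : ℕ} {P : Fin (n + 1) → Polynomial ℂ} :
    GmBdd (Ideal.span (homs I)) Q N P ↔ GmBdd I Q N P := by
  refine ⟨fun h => ⟨h.deg, fun F hF hh => h.mem F (Ideal.subset_span ⟨hF, hh⟩) hh, h.off, h.nc⟩,
    fun h => ⟨h.deg, fun F hF _ => ?_, h.off, h.nc⟩⟩
  have hker : Ideal.span (homs I) ≤
      RingHom.ker (aeval P : MvPolynomial (Fin (n + 1)) ℂ →ₐ[ℂ] _) :=
    Ideal.span_le.2 fun F hF => h.mem F hF.1 hF.2
  exact hker hF

/-- the discs in a rational curve -/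
theorem rat_disc' {E : Set (MvPolynomial (Fin (n + 1)) ℂ)} (hE : ∀ F ∈ E, ∃ a, F.IsHomogeneous a)
    {N : ℕ} {P : Fin (n + 1) → Polynomial ℂ} (hP : GmBdd (Ideal.span E) 1 N P) :
    ∃ P' : Fin (n + 1) → Polynomial ℂ, (∀ (G : MvPolynomial (Fin (n + 1)) ℂ) (γ : ℕ),
      G.IsHomogeneous γ → (∃ t, eval (fun j => (P j).eval t) G ≠ 0) →
        ∃ t, eval (fun j => (P' j).eval t) G ≠ 0) ∧ (∀ t, (fun j => (P' j).eval t) ≠ 0) ∧
      (∀ t, ∀ F ∈ E, eval (fun j => (P' j).eval t) F = 0) ∧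
      (∃ s t, ¬ Same (fun j => (P' j).eval s) fun j => (P' j).eval t) ∧
      (∃ t, ∃ a b, (Polynomial.derivative (P' a)).eval t * (P' b).eval t ≠
        (P' a).eval t * (Polynomial.derivative (P' b)).eval t) ∧
      (∀ s c : ℂ, DAlg E N fun z j => (P' j).eval (s + z * c)) ∧
      ∀ s r e d, N ≤ e → ∀ u c : ℂ, DCx E s r e d fun z j => (P' j).eval (u + z * c) := by
  obtain ⟨g, P', hg, hPP, hpr⟩ := hP.prim (isHomogeneous_one _ _)
  have hdeg : ∀ j, (P' j).natDegree ≤ N := by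
    intro j
    by_cases h0 : P' j = 0
    · rw [h0, Polynomial.natDegree_zero]
      exact Nat.zero_le _
    · have h1 := hP.deg j
      rw [hPP j, Polynomial.natDegree_mul hg h0] at h1
      omega
  have hne : ∀ t, (fun j => (P' j).eval t) ≠ 0 := by
    intro t h0
    obtain ⟨j, hj⟩ := hpr.ne t
    exact hj (congrFun h0 j)
  have hmem : ∀ t, ∀ F ∈ E, eval (fun j => (P' j).eval t) F = 0 := fun t F hF =>
    hpr.mem t F (Ideal.subset_span hF) (hE F hF)
  have hN1 : 1 ≤ N := by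
    by_contra h0
    obtain ⟨s, t, j, k, -, -, h1⟩ := hpr.nc
    apply h1
    have h2 : ∀ j, (P' j).natDegree = 0 := fun j => by
      have := hdeg j
      omega
    rw [Polynomial.eq_C_of_natDegree_eq_zero (h2 j), Polynomial.eq_C_of_natDegree_eq_zero (h2 k)]
    simp only [Polynomial.eval_C]
    ring
  have hR : ∀ s c : ℂ, RDisc E 1 fun z j => (P' j).eval (s + z * c) := fun s c =>
    ⟨fun j => ((P' j).differentiable.comp (by fun_prop :
      Differentiable ℂ fun z : ℂ => s + z * c)).differentiableOn, fun z _ => hne _,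
      fun z _ => hmem _⟩
  have hcomp : ∀ (s c : ℂ) (j : Fin (n + 1)),
      ((P' j).comp (Polynomial.C s + Polynomial.X * Polynomial.C c)).natDegree ≤ N := by
    intro s c j
    refine Polynomial.natDegree_comp_le.trans ?_
    have h1 : (Polynomial.C s + Polynomial.X * Polynomial.C c).natDegree ≤ 1 := by
      refine (Polynomial.natDegree_add_le _ _).trans (max_le ?_ ?_)
      · rw [Polynomial.natDegree_C]
        exact Nat.zero_le _
      · exact (Polynomial.natDegree_mul_C_le _ _).trans Polynomial.natDegree_X_le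
    calc _ ≤ N * 1 := Nat.mul_le_mul (hdeg j) h1
      _ = N := mul_one _
  have heval : ∀ (s c z : ℂ) (j : Fin (n + 1)),
      ((P' j).comp (Polynomial.C s + Polynomial.X * Polynomial.C c)).eval z =
        (P' j).eval (s + z * c) := by
    intro s c z j
    rw [Polynomial.eval_comp, Polynomial.eval_add, Polynomial.eval_C, Polynomial.eval_mul,
      Polynomial.eval_X, Polynomial.eval_C]
  refine ⟨P', ?_, hne, hmem, ?_, ?_, fun s c => ⟨hR s c, fun j k => ?_⟩, fun s r e d he u c =>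
    ⟨hR u c, ?_⟩⟩
  · rintro G γ hG ⟨t, ht⟩
    refine ⟨t, fun h0 => ht ?_⟩
    have h1 : (fun j => (P j).eval t) = fun j => g.eval t * (P' j).eval t := by
      funext j
      rw [hPP j, Polynomial.eval_mul]
    rw [h1, eval_homog hG, h0, mul_zero]
  · obtain ⟨s, t, j, k, -, -, h1⟩ := hpr.nc
    exact ⟨s, t, fun h2 => h1 (h2 j k)⟩
  · obtain ⟨s, t, j, k, -, -, h1⟩ := hpr.nc
    obtain ⟨a, b, hab⟩ := wr_of_nc ⟨s, t, j, k, h1⟩
    by_contra hcon
    push Not at hcon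
    apply hab
    apply Polynomial.funext
    intro t
    rw [Polynomial.eval_mul, Polynomial.eval_mul]
    exact hcon t a b
  · have h1 := algP_poly hN1 (ball 0 1) (hcomp s c j) (hcomp s c k)
    simp only [heval] at h1
    exact h1
  · refine ⟨ball 0 1, 1, fun _ _ _ => 0, fun _ => 1, isOpen_ball, ⟨0, mem_ball_self one_pos⟩,
      Subset.rfl, ⟨?_, fun z _ => ?_, fun l a => ?_⟩, fun _ _ => one_ne_zero, fun j => ?_, ?_⟩
    · rw [Polynomial.natDegree_one]
      exact Nat.zero_le _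
    · rw [Polynomial.eval_one]
      exact one_ne_zero
    · refine ⟨fun _ _ => 0, fun z _ => ?_⟩
      simp only [mul_zero, Finset.sum_const_zero]
      exact hasDerivAt_const z 0
    · obtain ⟨c', hc'⟩ := pev_poly ((P' j).comp (Polynomial.C u + Polynomial.X * Polynomial.C c))
        ((hcomp u c j).trans he) (Sum.inl true : Vx s r)
      refine ⟨c', fun z _ => ?_⟩
      rw [hc', one_mul]
      exact (heval u c z j).symm
    · obtain ⟨c', hc'⟩ := pev_C (e := e) (ι := Vx s r) (1 : ℂ)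
      refine ⟨c', fun z _ => ?_⟩
      rw [hc', map_one, mul_one]


theorem off_unbdd {E : Set (MvPolynomial (Fin (n + 1)) ℂ)} (hE : ∀ F ∈ E, ∃ a, F.IsHomogeneous a)
    {N : ℕ} {P : Fin (n + 1) → Polynomial ℂ} (hP : GmBdd (Ideal.span E) 1 N P)
    {G : MvPolynomial (Fin (n + 1)) ℂ} {γ : ℕ} (hG : G.IsHomogeneous γ)
    (hPG : ∃ t, eval (fun j => (P j).eval t) G ≠ 0) :
    ¬ BddOff G γ (DAlg E N) ∧ ∀ s r e d, N ≤ e → ¬ BddOff G γ (DCx E s r e d) := by
  obtain ⟨P', h0, hne, hmem, -, ⟨t1, a, b, hab⟩, h5, h6⟩ := rat_disc' hE hP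
  obtain ⟨t2, ht2⟩ := h0 G γ hG hPG
  -- a good point
  obtain ⟨t, ht⟩ : ∃ t, ((aeval P' G : Polynomial ℂ) * (Polynomial.derivative (P' a) * P' b -
      P' a * Polynomial.derivative (P' b))).eval t ≠ 0 := by
    refine poly_ne (mul_ne_zero ?_ ?_)
    · intro h
      apply ht2
      rw [← eval_aeval, h, Polynomial.eval_zero]
    · intro h
      apply hab
      have h1 := congrArg (fun p : Polynomial ℂ => p.eval t1) h
      simp only [Polynomial.eval_sub, Polynomial.eval_mul, Polynomial.eval_zero] at h1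
      exact sub_eq_zero.1 h1
  rw [Polynomial.eval_mul, Polynomial.eval_sub, Polynomial.eval_mul, Polynomial.eval_mul,
    eval_aeval] at ht
  have htG := left_ne_zero_of_mul ht
  have htw := right_ne_zero_of_mul ht
  have key : ∀ 𝒟 : (ℂ → Fin (n + 1) → ℂ) → Prop,
      (∀ s c : ℂ, 𝒟 fun z j => (P' j).eval (s + z * c)) → ¬ BddOff G γ 𝒟 := by
    intro 𝒟 h𝒟 hB
    have hpos : 0 < ‖fun j => (P' j).eval t‖ := norm_pos_iff.2 (hne t)
    obtain ⟨C, hC⟩ := hB (‖eval (fun j => (P' j).eval t) G‖ / ‖fun j => (P' j).eval t‖ ^ γ)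
      (div_pos (norm_pos_iff.2 htG) (pow_pos hpos _))
    set w : ℝ := W (fun z j => (P' j).eval z) t with hwdef
    have hw0 : 0 < w := by
      have h1 : 0 < ‖wr (fun z j => (P' j).eval z) t‖ := by
        rw [norm_pos_iff]
        intro h0
        have h2 := congrFun h0 (a, b)
        change (P' a).eval t * deriv (fun w => (P' b).eval w) t -
          (P' b).eval t * deriv (fun w => (P' a).eval w) t = 0 at h2
        rw [Polynomial.deriv, Polynomial.deriv] at h2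
        apply htw
        linear_combination -h2
      rw [hwdef]
      unfold W
      positivity
    have key : ∀ x : ℝ, 0 ≤ x → x * w ≤ 2 * (n + 1) * C := by
      intro x hx
      have h1 := hC _ (h𝒟 t (x : ℂ)) (by
        simp only [zero_mul, add_zero]
        rw [div_mul_cancel₀ _ (pow_pos hpos _).ne'])
      have h2 := le_fs (f := fun z j => (P' j).eval (t + z * (x : ℂ))) (z := 0) (by
        simp only [zero_mul, add_zero]
        exact hne t)
      have h3 := W_affine (f := fun z j => (P' j).eval z) (a := t) (b := (x : ℂ)) (w := 0)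
        (fun j => (P' j).differentiable _)
      rw [zero_mul, add_zero, Complex.norm_real, Real.norm_of_nonneg hx] at h3
      change W (fun z j => (P' j).eval (t + z * (x : ℂ))) 0 = _ at h3
      rw [h3] at h2
      refine h2.trans ?_
      exact mul_le_mul_of_nonneg_left h1 (by positivity)
    have hC0 : 0 ≤ 2 * ((n : ℝ) + 1) * C := by
      have := key 0 le_rfl
      linarith
    have h4 := key ((2 * (n + 1) * C + 1) / w) (by positivity)
    rw [div_mul_cancel₀ _ hw0.ne'] at h4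
    linarith
  exact ⟨key _ h5, fun s r e d he => key _ (h6 s r e d he)⟩

/-- For some form `G` which does not vanish on the variety with the ideal `I` the derivatives at the
centre of the discs in `𝒟` are bounded for centres in compact subsets of the complement of `G = 0`. -/
def PseudoBdd (I : Ideal (MvPolynomial (Fin (n + 1)) ℂ)) (𝒟 : (ℂ → Fin (n + 1) → ℂ) → Prop) :
    Prop :=
  ∃ (G : MvPolynomial (Fin (n + 1)) ℂ) (γ : ℕ), G.IsHomogeneous γ ∧ G ∉ I ∧ BddOff G γ 𝒟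

/-- **Uniruled varieties.** -/
theorem pseudo_tfae {I : Ideal (MvPolynomial (Fin (n + 1)) ℂ)} (hI : I.IsPrime) :
    List.TFAE [¬ GmRuled I 1, ∀ m, PseudoBdd I (DAlg (homs I) m),
      ∀ s r e d, PseudoBdd I (DCx (homs I) s r e d)] := by
  have h1h : (1 : MvPolynomial (Fin (n + 1)) ℂ).IsHomogeneous 0 := isHomogeneous_one _ _
  have hom : ∀ F ∈ homs I, ∃ a, F.IsHomogeneous a := fun F hF => hF.2
  have hthin := thin_iff hI h1h
  tfae_have 1 → 2 := by
    intro h m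
    obtain ⟨G, ⟨γ, hG⟩, hGI, hv⟩ := hthin.2 h ((n + 1) * m)
    exact ⟨G, γ, hG, hGI, off_alg hom hG fun P hP => hv P (gm_homs.1 hP)⟩
  tfae_have 1 → 3 := by
    intro h s r e d
    obtain ⟨G1, m0, ⟨γ1, hG1⟩, hG1I, harc⟩ := arc_thin hI h1h (hthin.2 h) s r e d
    obtain ⟨G2, ⟨γ2, hG2⟩, hG2I, hv⟩ := hthin.2 h ((n + 1) * m0)
    have hG := hG1.mul hG2
    refine ⟨G1 * G2, γ1 + γ2, hG, fun hm => ?_, ?_⟩
    · rcases hI.mem_or_mem hm with h1 | h1
      · exact hG1I h1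
      · exact hG2I h1
    · refine (off_alg (m := m0) hom hG fun P hP t => ?_).sub fun f hf =>
        ⟨hf.1.ne 0 (mem_ball_self one_pos), fun h0 => ?_⟩
      · rw [map_mul, hv P (gm_homs.1 hP) t, mul_zero]
      · rw [map_mul] at h0
        have hIE : ∀ x : Fin (n + 1) → ℂ, (∀ F ∈ homs I, eval x F = 0) → ∀ F ∈ I,
            (∃ m, F.IsHomogeneous m) → eval x F = 0 := fun x hx F hF hh => hx F ⟨hF, hh⟩
        exact cx_alg (I := I) hG1 hIE harc hf (left_ne_zero_of_mul h0)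
  tfae_have 2 → 1 := by
    intro h
    rw [← hthin]
    intro N
    obtain ⟨G, γ, hG, hGI, hB⟩ := h N
    refine ⟨G, ⟨γ, hG⟩, hGI, fun P hP t => ?_⟩
    by_contra ht
    exact (off_unbdd hom (gm_homs.2 hP) hG ⟨t, ht⟩).1 hB
  tfae_have 3 → 1 := by
    intro h
    rw [← hthin]
    intro N
    obtain ⟨G, γ, hG, hGI, hB⟩ := h 0 0 N 0
    refine ⟨G, ⟨γ, hG⟩, hGI, fun P hP t => ?_⟩
    by_contra ht
    exact (off_unbdd hom (gm_homs.2 hP) hG ⟨t, ht⟩).2 0 0 N 0 le_rfl hB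
  tfae_finish

end Pool.Agent.V1153.KB
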