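import Pool.Agent.V1153.PK.LogB

/-!
Derivatives of discs in quasi-projective varieties.
-/

set_option autoImplicit false

namespace Pool.Agent.V1153.KB

open Filter Topology Set Metric MvPolynomial
open Pool.Agent.V1153.UG Pool.Agent.V1153.UR

variable {n : ℕ}

/-- exponential curves are of bounded complexity -/
theorem exp_bdd1 {I : Ideal (MvPolynomial (Fin (n + 1)) ℂ)}
    {Q : MvPolynomial (Fin (n + 1)) ℂ} {d0 : ℕ} (hQ : Q.IsHomogeneous d0) {N : ℕ}
    {P : Fin (n + 1) → Polynomial ℂ} (h : GmBdd I Q N P) {g : Polynomial ℂ} (_ : g ≠ 0)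
    {P' : Fin (n + 1) → Polynomial ℂ} (hP : ∀ j, P j = g * P' j) {S U : Set ℂ} (hU : IsOpen U)
    (hUS : U ⊆ S) {q : Polynomial ℂ} {d e i : ℕ} (hqd : q.natDegree ≤ d)
    (hq : ∀ z ∈ U, q.eval z ≠ 0) (hi : i ≤ e) (he : d0 * N + N ≤ e) (_ : 1 ≤ e) {φ : ℂ → ℂ}
    {κ : ℂ} (hφ : ∀ z ∈ U, HasDerivAt φ (κ * (q.eval z)⁻¹ ^ i) z)
    (hVx : ∃ z ∈ U, g.eval (Complex.exp (φ z)) ≠ 0) :
    Bdd S Q 1 2 e d fun z j => (P' j).eval (Complex.exp (φ z)) := by
  classical
  let V : Set ℂ := {z | z ∈ U ∧ g.eval (Complex.exp (φ z)) ≠ 0}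
  have hcont : ContinuousOn (fun z => g.eval (Complex.exp (φ z))) U := by
    intro z hz
    have h1 : ContinuousAt φ z := (hφ z hz).continuousAt
    exact (g.continuous.continuousAt.comp (Complex.continuous_exp.continuousAt.comp
      h1)).continuousWithinAt
  have hV : IsOpen V := by
    have h1 := hcont.isOpen_inter_preimage hU (isOpen_compl_singleton (x := (0 : ℂ)))
    exact h1
  have hVne : V.Nonempty := by
    obtain ⟨z, hz, hz2⟩ := hVx
    exact ⟨z, hz, hz2⟩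
  let y : Fin 1 → Fin 2 → ℂ → ℂ := fun _ a z =>
    if a = 0 then Complex.exp (φ z) else Complex.exp (-φ z)
  refine ⟨V, q, y, fun z => g.eval (Complex.exp (φ z)), hV, hVne, fun z hz => hUS hz.1,
    ⟨hqd, fun z hz => hq z hz.1, ?_⟩, fun z hz => hz.2, ?_, ?_⟩
  · intro l a
    obtain ⟨c0, hc0⟩ := pev_C (ι := Vx 1 2) (e := e) (0 : ℂ)
    obtain ⟨c1, hc1⟩ := pev_pow (ι := Vx 1 2) (e := e) κ (Sum.inl false) i hi
    obtain ⟨c2, hc2⟩ := pev_pow (ι := Vx 1 2) (e := e) (-κ) (Sum.inl false) i hi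
    refine ⟨fun b => if b = a then (if a = 0 then c1 else c2) else c0, fun z hz => ?_⟩
    have hd := hφ z hz.1
    fin_cases a
    · have h1 : HasDerivAt (fun z => Complex.exp (φ z))
          (Complex.exp (φ z) * (κ * (q.eval z)⁻¹ ^ i)) z := hd.cexp
      refine h1.congr_deriv ?_
      rw [Fin.sum_univ_two]
      simp only [Fin.zero_eta, if_true, Fin.isValue, one_ne_zero, if_false]
      rw [hc1, hc0, zero_mul, add_zero]
      have h3 : y 0 0 z = Complex.exp (φ z) := if_pos rfl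
      rw [Subsingleton.elim l 0, h3]
      change _ = κ * (q.eval z)⁻¹ ^ i * _
      ring
    · have h1 : HasDerivAt (fun z => Complex.exp (-φ z))
          (Complex.exp (-φ z) * -(κ * (q.eval z)⁻¹ ^ i)) z := hd.neg.cexp
      refine h1.congr_deriv ?_
      rw [Fin.sum_univ_two]
      simp only [Fin.mk_one, if_true, Fin.isValue, one_ne_zero, if_false, zero_ne_one]
      rw [hc2, hc0, zero_mul, zero_add]
      have h3 : y 0 1 z = Complex.exp (-φ z) := if_neg (by simp)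
      rw [Subsingleton.elim l 0, h3]
      change _ = -κ * (q.eval z)⁻¹ ^ i * _
      ring
  · intro j
    obtain ⟨c, hc⟩ := pev_poly (e := e) (P j) (by have := h.deg j; omega)
      (Sum.inr (0, 0) : Vx 1 2)
    refine ⟨c, fun z hz => ?_⟩
    rw [hc]
    have h3 : y 0 0 z = Complex.exp (φ z) := if_pos rfl
    change _ = (P j).eval (y 0 0 z)
    rw [h3, hP j, Polynomial.eval_mul]
  · obtain ⟨c0, k, hc0, hk⟩ := h.off
    have hk2 : k ≤ d0 * N := by
      have h1 := deg_Q hQ h.deg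
      rwa [hk, Polynomial.natDegree_C_mul_X_pow _ _ hc0] at h1
    obtain ⟨c, hc⟩ := pev_pow (e := e) (c0⁻¹) (Sum.inr (0, 1) : Vx 1 2) k (by omega)
    refine ⟨c, fun z hz => ?_⟩
    rw [hc]
    have h3 : y 0 1 z = Complex.exp (-φ z) := if_neg (by simp)
    change c0⁻¹ * (y 0 1 z) ^ k * _ = 1
    rw [h3]
    have h1 : (fun j => g.eval (Complex.exp (φ z)) * (P' j).eval (Complex.exp (φ z))) =
        fun j => (P j).eval (Complex.exp (φ z)) := by
      funext j
      rw [hP j, Polynomial.eval_mul]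
    rw [h1, ← eval_aeval (P := P), hk, Polynomial.eval_mul, Polynomial.eval_C,
      Polynomial.eval_pow, Polynomial.eval_X, Complex.exp_neg]
    have h2 : Complex.exp (φ z) ≠ 0 := Complex.exp_ne_zero _
    have h4 : (Complex.exp (φ z))⁻¹ ^ k * Complex.exp (φ z) ^ k = 1 := by
      rw [← mul_pow, inv_mul_cancel₀ h2, one_pow]
    linear_combination (c0⁻¹ * c0) * h4 + inv_mul_cancel₀ hc0

theorem nbhd_ne {G : MvPolynomial (Fin (n + 1)) ℂ} {γ : ℕ} (hG : G.IsHomogeneous γ)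
    {x : Fin (n + 1) → ℂ} (hx : x ≠ 0) (hxG : eval x G ≠ 0) :
    ∃ δ > 0, δ ≤ 1 / (2 * ((n : ℝ) + 1)) ∧ ∀ y : Fin (n + 1) → ℂ, y ≠ 0 →
      ‖pm y - pm x‖ ≤ δ → eval y G ≠ 0 := by
  by_contra hcon
  push Not at hcon
  have hseq : ∀ i : ℕ, ∃ y : Fin (n + 1) → ℂ, y ≠ 0 ∧ eval y G = 0 ∧
      ‖pm y - pm x‖ ≤ 1 / ((i : ℝ) + 1) := by
    intro i
    have h1 : 0 < min (1 / (2 * ((n : ℝ) + 1))) (1 / ((i : ℝ) + 1)) := by positivity
    have h2 := hcon _ h1 (min_le_left _ _)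
    obtain ⟨y, hy, hyx, hyG⟩ := h2
    exact ⟨y, hy, hyG, hyx.trans (min_le_right _ _)⟩
  choose y hy0 hyG hyx using hseq
  obtain ⟨𝒰, h𝒰le⟩ : ∃ 𝒰 : Ultrafilter ℕ, (𝒰 : Filter ℕ) ≤ atTop :=
    ⟨Filter.hyperfilter ℕ, Nat.hyperfilter_le_atTop⟩
  refine hxG (pt_eqn (𝒰 := 𝒰) hx ?_ hG (Filter.Eventually.of_forall hyG))
  rw [tendsto_iff_norm_sub_tendsto_zero]
  have h1 : Tendsto (fun i : ℕ => 1 / ((i : ℝ) + 1)) 𝒰 (𝓝 0) :=
    (tendsto_one_div_add_atTop_nhds_zero_nat (𝕜 := ℝ)).mono_left h𝒰le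
  exact squeeze_zero (fun i => norm_nonneg _) hyx h1

theorem off_algQ {m : ℕ} {E : Set (MvPolynomial (Fin (n + 1)) ℂ)}
    (hE : ∀ F ∈ E, ∃ a, F.IsHomogeneous a) {Q : MvPolynomial (Fin (n + 1)) ℂ} {q : ℕ}
    (hQ : Q.IsHomogeneous q) {G0 : MvPolynomial (Fin (n + 1)) ℂ} {γ0 : ℕ}
    (hG0 : G0.IsHomogeneous γ0)
    (hv : ∀ P, LineC E Q ((n + 1) * m) P → ∀ t, eval (fun j => (P j).eval t) G0 = 0) :
    BddOff (Q * G0) (q + γ0) (DAlgQ E Q m) := by
  have hG := hQ.mul hG0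
  set G := Q * G0 with hGdef
  set γ := q + γ0 with hγdef
  intro c hc
  by_contra hcon
  push Not at hcon
  choose f hf hfG hW using fun i : ℕ => hcon ((n + 1) * i)
  obtain ⟨𝒰, h𝒰le⟩ : ∃ 𝒰 : Ultrafilter ℕ, (𝒰 : Filter ℕ) ≤ atTop :=
    ⟨Filter.hyperfilter ℕ, Nat.hyperfilter_le_atTop⟩
  have hf0 : ∀ i, f i 0 ≠ 0 := fun i => (hf i).1.1.ne 0 (mem_ball_self one_pos)
  let v : ℕ → Fin (n + 1) → ℂ := fun i j => ((‖f i 0‖⁻¹ : ℝ) : ℂ) * f i 0 j
  have hvn : ∀ i, ‖v i‖ = 1 := by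
    intro i
    have h1 : v i = ((‖f i 0‖⁻¹ : ℝ) : ℂ) • f i 0 := by
      funext j
      rfl
    rw [h1, norm_smul, Complex.norm_real, Real.norm_of_nonneg (inv_nonneg.2 (norm_nonneg _)),
      inv_mul_cancel₀ (norm_ne_zero_iff.2 (hf0 i))]
  obtain ⟨x, hx⟩ := ultra_lim (𝒰 := 𝒰) (a := v) (C := 1)
    (Filter.Eventually.of_forall fun i => (hvn i).le)
  have hx1 : ‖x‖ = 1 := by
    refine tendsto_nhds_unique hx.norm ?_
    simp only [hvn]
    exact tendsto_const_nhds
  have hx0 : x ≠ 0 := by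
    intro h0
    rw [h0, norm_zero] at hx1
    exact zero_ne_one hx1
  have hvG : ∀ i, c ≤ ‖eval (v i) G‖ := by
    intro i
    have h1 : eval (v i) G = (((‖f i 0‖⁻¹ : ℝ) : ℂ)) ^ γ * eval (f i 0) G := eval_homog hG _ _
    have h2 : 0 < ‖f i 0‖ := norm_pos_iff.2 (hf0 i)
    rw [h1, norm_mul, norm_pow, Complex.norm_real,
      Real.norm_of_nonneg (inv_nonneg.2 (norm_nonneg _)), inv_pow, inv_mul_eq_div,
      le_div_iff₀ (pow_pos h2 _)]
    exact hfG i
  have hxG : eval x G ≠ 0 := by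
    have h1 : Tendsto (fun i => ‖eval (v i) G‖) 𝒰 (𝓝 ‖eval x G‖) :=
      (((MvPolynomial.continuous_eval G).tendsto x).comp hx).norm
    have h2 := ge_of_tendsto h1 (Filter.Eventually.of_forall hvG)
    intro h0
    rw [h0, norm_zero] at h2
    linarith
  obtain ⟨δ, hδ, hδ', hnb⟩ := nbhd_ne hG hx0 hxG
  obtain ⟨ε, hε, C, hC⟩ := pseudoQ hE hQ hδ hδ' (fun y hy h => by
    have h1 := hnb y hy h
    rw [hGdef, map_mul] at h1
    exact left_ne_zero_of_mul h1) fun P hP z => by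
    by_contra h
    have h1 := hnb _ (hP.ne z) (not_lt.1 h)
    rw [hGdef, map_mul] at h1
    exact right_ne_zero_of_mul h1 (hv P hP z)
  have hpm : Tendsto (fun i => pm (f i 0)) 𝒰 (𝓝 (pm x)) := by
    refine (pm_tendsto hx0 hx).congr fun i => ?_
    exact pm_smul (Complex.ofReal_ne_zero.2 (inv_ne_zero (norm_ne_zero_iff.2 (hf0 i)))) (hf0 i)
  have h1 := (tendsto_iff_norm_sub_tendsto_zero.1 hpm).eventually (gt_mem_nhds hε)
  have htop : Tendsto (fun i : ℕ => (i : ℝ)) 𝒰 atTop := tendsto_natCast_atTop_atTop.mono_left h𝒰le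
  obtain ⟨i, h2, h3⟩ := (h1.and (htop.eventually_gt_atTop C)).exists
  have h4 := hC (f i) (hf i).1 (hf i).2 h2
  have h5 := hW i
  have h6 := fs_le (f := f i) (z := 0) (hf0 i)
  have h7 : ((n : ℝ) + 1) * W (f i) 0 ≤ (n + 1) * C :=
    mul_le_mul_of_nonneg_left h4 (by positivity)
  have h8 : ((n : ℝ) + 1) * C < (n + 1) * i := mul_lt_mul_of_pos_left h3 (by positivity)
  linarith


theorem LineC.gm {E : Set (MvPolynomial (Fin (n + 1)) ℂ)} {Q : MvPolynomial (Fin (n + 1)) ℂ}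
    {N : ℕ} {P : Fin (n + 1) → Polynomial ℂ} (h : LineC E Q N P) :
    GmBdd (Ideal.span E) Q N P := by
  refine ⟨h.deg, fun F hF hh => ?_, ?_, h.nc⟩
  · apply Polynomial.funext
    intro z
    rw [eval_aeval, Polynomial.eval_zero]
    exact span_zero _ (h.mem z) F hF hh
  · have hev : ∀ z, (aeval P Q : Polynomial ℂ).eval z ≠ 0 := fun z => by
      rw [eval_aeval]
      exact h.off z
    have hd : (aeval P Q : Polynomial ℂ).natDegree = 0 := by
      by_contra hd
      obtain ⟨z, hz⟩ := Complex.exists_root (Polynomial.natDegree_pos_iff_degree_pos.1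
        (Nat.pos_of_ne_zero hd))
      exact hev z hz
    have h1 := Polynomial.eq_C_of_natDegree_eq_zero hd
    refine ⟨(aeval P Q : Polynomial ℂ).coeff 0, 0, fun h0 => hev 0 ?_, ?_⟩
    · rw [h1, h0, Polynomial.eval_C]
    · rw [pow_zero, mul_one]
      exact h1

theorem cx_algQ {s r e d N : ℕ} {I : Ideal (MvPolynomial (Fin (n + 1)) ℂ)}
    {E : Set (MvPolynomial (Fin (n + 1)) ℂ)} {Q G : MvPolynomial (Fin (n + 1)) ℂ} {γ : ℕ}
    (hG : G.IsHomogeneous γ)
    (hIE : ∀ x : Fin (n + 1) → ℂ, (∀ F ∈ E, eval x F = 0) → ∀ F ∈ I, (∃ m, F.IsHomogeneous m) →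
      eval x F = 0)
    (hN : ∀ U h, Arc I Q s r e d U h → (∀ z ∈ U, eval (h z) G = 0) ∨ ∀ j l, ∃ m ≤ N,
      AlgPair m U (fun z => h z j) fun z => h z l)
    {f : ℂ → Fin (n + 1) → ℂ} (hf : DCxQ E Q s r e d f) (h0 : eval (f 0) G ≠ 0) :
    DAlgQ E Q N f := by
  obtain ⟨hf, hoff, U, q, y, g, hU, ⟨z0, hz0⟩, hUS, hsys, hg, hcx, hcu⟩ := hf
  have hmem : ∀ z ∈ ball (0 : ℂ) 1, ∀ F ∈ I, (∃ m, F.IsHomogeneous m) →
      eval (f z) F = 0 := fun z hz => hIE (f z) (hf.mem z hz)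
  obtain ⟨ζ, hζ, ε, hε, hb, hA⟩ := Bdd.arc isOpen_ball hf.ne hmem hU ⟨z0, hz0, hUS hz0⟩ hsys hg
    hcx hcu
  rcases hN _ _ hA with h1 | h1
  · exfalso
    have hd : DifferentiableOn ℂ (fun z => eval (f z) G) (ball 0 1) := diffOn_eval hf.diff G
    have han : AnalyticOnNhd ℂ (fun z => eval (f z) G) (ball 0 1) := hd.analyticOnNhd isOpen_ball
    refine h0 (han.eqOn_zero_of_preconnected_of_eventuallyEq_zero
      (convex_ball 0 1).isPreconnected hζ.2 ?_ (mem_ball_self one_pos))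
    filter_upwards [ball_mem_nhds ζ hε] with z hz
    have h2 := h1 z hz
    rw [eval_homog hG] at h2
    exact (mul_eq_zero.1 h2).resolve_left (pow_ne_zero _ (hg z (hb hz).1))
  · refine ⟨⟨hf, fun j k => ?_⟩, hoff⟩
    obtain ⟨m, hm, h2⟩ := h1 j k
    have h3 := (AlgP.of_pair (pair_scale (fun z hz => hg z (hb hz).1) h2)).le hm
    exact h3.extend isOpen_ball (convex_ball 0 1).isPreconnected isOpen_ball
      ⟨ζ, mem_ball_self hε⟩ (fun z hz => (hb hz).2) (hf.diff j) (hf.diff k)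

/-- **Uniform version.** -/
theorem off_cxQ (n D s r e d : ℕ) : ∃ N, ∀ (E : Set (MvPolynomial (Fin (n + 1)) ℂ))
    (Q G : MvPolynomial (Fin (n + 1)) ℂ) (q γ : ℕ), (∀ F ∈ E, ∃ a ≤ D, F.IsHomogeneous a) →
      q ≤ D → Q.IsHomogeneous q → γ ≤ D → G.IsHomogeneous γ → VanGm (Ideal.span E) Q N G →
        BddOff (Q * G) (q + γ) (DCxQ E Q s r e d) := by
  obtain ⟨N, hN⟩ := family n D s r e d
  refine ⟨(n + 1) * N, fun E Q G q γ hE hq hQ hγ hG hv => ?_⟩
  have hle : N ≤ (n + 1) * N := Nat.le_mul_of_pos_left _ (by omega)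
  have hv' : VanGm (Ideal.span E) Q N G := fun P hP =>
    hv P ⟨fun j => (hP.deg j).trans hle, hP.mem, hP.off, hP.nc⟩
  obtain ⟨-, -, h1⟩ := hN E Q G hE ⟨q, hq, hQ⟩ ⟨γ, hγ, hG⟩ hv'
  refine (off_algQ (m := N) (fun F hF => ?_) hQ hG fun P hP t => hv P hP.gm t).sub fun f hf =>
    ⟨hf.1.ne 0 (mem_ball_self one_pos), fun h0 => ?_⟩
  · obtain ⟨a, -, ha⟩ := hE F hF
    exact ⟨a, ha⟩
  · rw [map_mul] at h0
    refine cx_algQ (I := Ideal.span E) hG (fun x hx F hF hh => span_zero x hx F hF hh)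
      (fun U h hA => ?_) hf (right_ne_zero_of_mul h0)
    by_cases hc : ∃ j l, ∀ m ≤ N, ¬ AlgPair m U (fun z => h z j) fun z => h z l
    · exact Or.inl (h1 U h hA hc)
    · right
      push Not at hc
      exact hc

/-- curves without common zeros -/
theorem gm_prim {I : Ideal (MvPolynomial (Fin (n + 1)) ℂ)} {Q : MvPolynomial (Fin (n + 1)) ℂ}
    {q : ℕ} (hQ : Q.IsHomogeneous q) {N : ℕ} {P : Fin (n + 1) → Polynomial ℂ}
    (h : GmBdd I Q N P) : ∃ P' : Fin (n + 1) → Polynomial ℂ, GmBdd I Q N P' ∧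
      (∀ z, (fun j => (P' j).eval z) ≠ 0) ∧
      (∀ z, z ≠ 0 → eval (fun j => (P' j).eval z) Q ≠ 0) ∧
      ∀ (G : MvPolynomial (Fin (n + 1)) ℂ) (γ : ℕ), G.IsHomogeneous γ →
        (∃ t, eval (fun j => (P j).eval t) G ≠ 0) →
          ∃ t, eval (fun j => (P' j).eval t) G ≠ 0 := by
  obtain ⟨g, P', hg, hPP, hpr⟩ := h.prim hQ
  refine ⟨P', ⟨fun j => ?_, fun F hF hh => ?_, ?_, ?_⟩, fun z h0 => ?_, hpr.off, ?_⟩
  · by_cases h0 : P' j = 0
    · rw [h0, Polynomial.natDegree_zero]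
      exact Nat.zero_le _
    · have h1 := h.deg j
      rw [hPP j, Polynomial.natDegree_mul hg h0] at h1
      omega
  · apply Polynomial.funext
    intro z
    rw [eval_aeval, Polynomial.eval_zero]
    exact hpr.mem z F hF hh
  · obtain ⟨c, k, hc, hk⟩ := h.off
    have h1 : (aeval P Q : Polynomial ℂ) = g ^ q * aeval P' Q := by
      rw [← aeval_scale hQ]
      congr 1
      congr 1
      funext j
      exact hPP j
    have h2 : (aeval P' Q : Polynomial ℂ) ∣ Polynomial.X ^ k := by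
      have h3 : (aeval P' Q : Polynomial ℂ) ∣ Polynomial.C c * Polynomial.X ^ k :=
        ⟨g ^ q, by rw [← hk, h1, mul_comm]⟩
      exact (Polynomial.isUnit_C.2 (isUnit_iff_ne_zero.2 hc)).dvd_mul_left.1 h3
    obtain ⟨i, -, u, hu⟩ := (dvd_prime_pow Polynomial.prime_X k).1 h2
    obtain ⟨b, hb, hbu⟩ := Polynomial.isUnit_iff.1 u.isUnit
    have hb0 : b ≠ 0 := isUnit_iff_ne_zero.1 hb
    refine ⟨b⁻¹, i, inv_ne_zero hb0, ?_⟩
    rw [← hu, ← hbu, mul_comm, mul_assoc, ← Polynomial.C_mul, mul_inv_cancel₀ hb0, map_one,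
      mul_one]
  · obtain ⟨s, t, j, k, -, -, h1⟩ := hpr.nc
    exact ⟨s, t, j, k, h1⟩
  · obtain ⟨j, hj⟩ := hpr.ne z
    exact hj (congrFun h0 j)
  · rintro G γ hG ⟨t, ht⟩
    refine ⟨t, fun h0 => ht ?_⟩
    have h1 : (fun j => (P j).eval t) = fun j => g.eval t * (P' j).eval t := by
      funext j
      rw [hPP j, Polynomial.eval_mul]
    rw [h1, eval_homog hG, h0, mul_zero]

/-- entire curves and unbounded derivatives -/
theorem ent_unbdd {𝒟 : (ℂ → Fin (n + 1) → ℂ) → Prop} {h : ℂ → Fin (n + 1) → ℂ}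
    (hd : ∀ j, Differentiable ℂ fun z => h z j) (hne : ∀ z, h z ≠ 0) {s : ℂ}
    {G : MvPolynomial (Fin (n + 1)) ℂ} {γ : ℕ} (hG : eval (h s) G ≠ 0) (hW : 0 < W h s)
    (h𝒟 : ∀ c : ℂ, 𝒟 fun z => h (s + z * c)) : ¬ BddOff G γ 𝒟 := by
  intro hB
  have hpos : 0 < ‖h s‖ := norm_pos_iff.2 (hne s)
  obtain ⟨C, hC⟩ := hB (‖eval (h s) G‖ / ‖h s‖ ^ γ)
    (div_pos (norm_pos_iff.2 hG) (pow_pos hpos _))
  have key : ∀ x : ℝ, 0 ≤ x → x * W h s ≤ 2 * (n + 1) * C := by
    intro x hx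
    have h1 := hC _ (h𝒟 (x : ℂ)) (by
      simp only [zero_mul, add_zero]
      rw [div_mul_cancel₀ _ (pow_pos hpos _).ne'])
    have h2 := le_fs (f := fun z => h (s + z * (x : ℂ))) (z := 0) (by
      simp only [zero_mul, add_zero]
      exact hne s)
    have h3 := W_affine (f := h) (a := s) (b := (x : ℂ)) (w := 0) (fun j => hd j _)
    rw [zero_mul, add_zero, Complex.norm_real, Real.norm_of_nonneg hx] at h3
    rw [h3] at h2
    refine h2.trans ?_
    exact mul_le_mul_of_nonneg_left h1 (by positivity)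
  have hC0 : 0 ≤ 2 * ((n : ℝ) + 1) * C := by
    have := key 0 le_rfl
    linarith
  have h4 := key ((2 * (n + 1) * C + 1) / W h s) (by positivity)
  rw [div_mul_cancel₀ _ hW.ne'] at h4
  linarith

theorem exp_unbdd {I : Ideal (MvPolynomial (Fin (n + 1)) ℂ)} {Q : MvPolynomial (Fin (n + 1)) ℂ}
    {q : ℕ} (hQ : Q.IsHomogeneous q) {N : ℕ} {P : Fin (n + 1) → Polynomial ℂ}
    (hP : GmBdd I Q N P) {G : MvPolynomial (Fin (n + 1)) ℂ} {γ : ℕ} (hG : G.IsHomogeneous γ)
    (hPG : ∃ t, eval (fun j => (P j).eval t) G ≠ 0) :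
    ¬ BddOff (Q * G) (q + γ) (DCxQ (homs I) Q 1 2 (q * N + N + 1) 0) := by
  obtain ⟨P', hP', hne, hoff, hGG⟩ := gm_prim hQ hP
  obtain ⟨t2, ht2⟩ := hGG G γ hG hPG
  obtain ⟨a, b, hab⟩ := wr_of_nc hP'.nc
  obtain ⟨t, ht⟩ : ∃ t, (Polynomial.X * (aeval P' G : Polynomial ℂ) *
      (Polynomial.derivative (P' a) * P' b - P' a * Polynomial.derivative (P' b))).eval t ≠ 0 := by
    refine poly_ne (mul_ne_zero (mul_ne_zero Polynomial.X_ne_zero ?_) (sub_ne_zero.2 hab))
    intro h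
    apply ht2
    rw [← eval_aeval, h, Polynomial.eval_zero]
  rw [Polynomial.eval_mul, Polynomial.eval_mul, Polynomial.eval_X, Polynomial.eval_sub,
    Polynomial.eval_mul, Polynomial.eval_mul, eval_aeval] at ht
  have htw := right_ne_zero_of_mul ht
  have htG := right_ne_zero_of_mul (left_ne_zero_of_mul ht)
  have ht0 := left_ne_zero_of_mul (left_ne_zero_of_mul ht)
  have hs : Complex.exp (Complex.log t) = t := Complex.exp_log ht0
  have hd : ∀ j, Differentiable ℂ fun w => (P' j).eval (Complex.exp w) := fun j =>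
    (P' j).differentiable.comp Complex.differentiable_exp
  refine ent_unbdd (h := fun w j => (P' j).eval (Complex.exp w)) (s := Complex.log t) hd
    (fun z => hne _) ?_ ?_ fun c => ?_
  · simp only [hs, map_mul]
    exact mul_ne_zero (hoff t ht0) htG
  · have h1 : wr (fun w j => (P' j).eval (Complex.exp w)) (Complex.log t) ≠ 0 := by
      intro h0
      have h2 := congrFun h0 (a, b)
      have h3 : ∀ j, deriv (fun w => (P' j).eval (Complex.exp w)) (Complex.log t) =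
          (Polynomial.derivative (P' j)).eval t * t := by
        intro j
        have h4 := ((P' j).hasDerivAt (Complex.exp (Complex.log t))).comp (Complex.log t)
          (Complex.hasDerivAt_exp (Complex.log t))
        rw [hs] at h4
        exact h4.deriv
      change (P' a).eval (Complex.exp (Complex.log t)) *
        deriv (fun w => (P' b).eval (Complex.exp w)) (Complex.log t) -
          (P' b).eval (Complex.exp (Complex.log t)) *
            deriv (fun w => (P' a).eval (Complex.exp w)) (Complex.log t) = 0 at h2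
      rw [h3, h3, hs] at h2
      apply htw
      have h5 : t * ((Polynomial.derivative (P' a)).eval t * (P' b).eval t -
          (P' a).eval t * (Polynomial.derivative (P' b)).eval t) = 0 := by
        linear_combination -h2
      exact (mul_eq_zero.1 h5).resolve_left ht0
    have h2 : 0 < ‖wr (fun w j => (P' j).eval (Complex.exp w)) (Complex.log t)‖ :=
      norm_pos_iff.2 h1
    have h3 : 0 < ‖(fun j => (P' j).eval (Complex.exp (Complex.log t)))‖ :=
      norm_pos_iff.2 (hne _)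
    exact div_pos h2 (pow_pos h3 2)
  · refine ⟨⟨fun j => ((hd j).comp (by fun_prop :
      Differentiable ℂ fun z : ℂ => Complex.log t + z * c)).differentiableOn, fun z _ => hne _,
      fun z _ F hF => ?_⟩, fun z _ => hoff _ (Complex.exp_ne_zero _), ?_⟩
    · rw [← eval_aeval, hP'.mem F hF.1 hF.2, Polynomial.eval_zero]
    · refine exp_bdd1 (q := 1) (i := 0) (κ := c) (φ := fun z => Complex.log t + z * c)
        (U := ball 0 1) hQ hP' one_ne_zero (fun j => (one_mul _).symm) isOpen_ball Subset.rfl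
        (by rw [Polynomial.natDegree_one]) (fun z _ => by
          rw [Polynomial.eval_one]
          exact one_ne_zero) (Nat.zero_le _) (Nat.le_succ _) (by omega) (fun z _ => ?_)
        ⟨0, mem_ball_self one_pos, by
          rw [Polynomial.eval_one]
          exact one_ne_zero⟩
      have h1 : HasDerivAt (fun z : ℂ => Complex.log t + z * c) (1 * c) z :=
        ((hasDerivAt_id z).mul_const c).const_add _
      refine h1.congr_deriv ?_
      rw [pow_zero, mul_one, one_mul]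

theorem pseudoQ_iff {I : Ideal (MvPolynomial (Fin (n + 1)) ℂ)} (hI : I.IsPrime)
    {Q : MvPolynomial (Fin (n + 1)) ℂ} {q : ℕ} (hQ : Q.IsHomogeneous q) :
    ¬ GmRuled I Q ↔ ∀ s r e d, PseudoBddQ I Q q (DCxQ (homs I) Q s r e d) := by
  have hom : ∀ F ∈ homs I, ∃ a, F.IsHomogeneous a := fun F hF => hF.2
  have hthin := thin_iff hI hQ
  constructor
  · intro h s r e d
    obtain ⟨G1, m0, ⟨γ1, hG1⟩, hG1I, harc⟩ := arc_thin hI hQ (hthin.2 h) s r e d
    obtain ⟨G2, ⟨γ2, hG2⟩, hG2I, hv⟩ := hthin.2 h ((n + 1) * m0)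
    have hG := hG1.mul hG2
    refine ⟨G1 * G2, γ1 + γ2, hG, fun hm => ?_, ?_⟩
    · rcases hI.mem_or_mem hm with h1 | h1
      · exact hG1I h1
      · exact hG2I h1
    · refine (off_algQ (m := m0) hom hQ hG fun P hP t => ?_).sub fun f hf =>
        ⟨hf.1.ne 0 (mem_ball_self one_pos), fun h0 => ?_⟩
      · rw [map_mul, hv P (gm_homs.1 hP.gm) t, mul_zero]
      · rw [map_mul, map_mul] at h0
        have hIE : ∀ x : Fin (n + 1) → ℂ, (∀ F ∈ homs I, eval x F = 0) → ∀ F ∈ I,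
            (∃ m, F.IsHomogeneous m) → eval x F = 0 := fun x hx F hF hh => hx F ⟨hF, hh⟩
        exact cx_algQ (I := I) hG1 hIE harc hf (left_ne_zero_of_mul (right_ne_zero_of_mul h0))
  · intro h
    rw [← hthin]
    intro N
    obtain ⟨G, γ, hG, hGI, hB⟩ := h 1 2 (q * N + N + 1) 0
    refine ⟨G, ⟨γ, hG⟩, hGI, fun P hP t => ?_⟩
    by_contra ht
    exact exp_unbdd hQ hP hG ⟨t, ht⟩ hB

theorem pseudoQ_line {I : Ideal (MvPolynomial (Fin (n + 1)) ℂ)}
    {Q : MvPolynomial (Fin (n + 1)) ℂ} {q : ℕ} (hQ : Q.IsHomogeneous q) :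
    LineThin I Q ↔ ∀ m, PseudoBddQ I Q q (DAlgQ (homs I) Q m) := by
  have hom : ∀ F ∈ homs I, ∃ a, F.IsHomogeneous a := fun F hF => hF.2
  constructor
  · intro h m
    obtain ⟨G, ⟨γ, hG⟩, hGI, hv⟩ := h ((n + 1) * m)
    exact ⟨G, γ, hG, hGI, off_algQ hom hQ hG hv⟩
  · intro h N
    obtain ⟨G, γ, hG, hGI, hB⟩ := h N
    refine ⟨G, ⟨γ, hG⟩, hGI, fun P hP t2 => ?_⟩
    by_contra ht2
    obtain ⟨a, b, hab⟩ := wr_of_nc hP.nc
    have hN1 : 1 ≤ N := by
      by_contra h0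
      obtain ⟨s, t, j, k, h1⟩ := hP.nc
      apply h1
      have h2 : ∀ j, (P j).natDegree = 0 := fun j => by
        have := hP.deg j
        omega
      rw [Polynomial.eq_C_of_natDegree_eq_zero (h2 j),
        Polynomial.eq_C_of_natDegree_eq_zero (h2 k)]
      simp only [Polynomial.eval_C]
      ring
    obtain ⟨t, ht⟩ : ∃ t, ((aeval P G : Polynomial ℂ) * (Polynomial.derivative (P a) * P b -
        P a * Polynomial.derivative (P b))).eval t ≠ 0 := by
      refine poly_ne (mul_ne_zero ?_ (sub_ne_zero.2 hab))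
      intro h
      apply ht2
      rw [← eval_aeval, h, Polynomial.eval_zero]
    rw [Polynomial.eval_mul, Polynomial.eval_sub, Polynomial.eval_mul, Polynomial.eval_mul,
      eval_aeval] at ht
    have htG := left_ne_zero_of_mul ht
    have htw := right_ne_zero_of_mul ht
    refine ent_unbdd (h := fun w j => (P j).eval w) (s := t) (fun j => (P j).differentiable)
      hP.ne ?_ ?_ (fun c => ⟨⟨⟨fun j => ?_, fun z _ => hP.ne _, fun z _ => hP.mem _⟩,
        fun j k => ?_⟩, fun z _ => hP.off _⟩) hB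
    · rw [map_mul]
      exact mul_ne_zero (hP.off t) htG
    · have h1 : wr (fun w j => (P j).eval w) t ≠ 0 := by
        intro h0
        have h2 := congrFun h0 (a, b)
        change (P a).eval t * deriv (fun w => (P b).eval w) t -
          (P b).eval t * deriv (fun w => (P a).eval w) t = 0 at h2
        rw [Polynomial.deriv, Polynomial.deriv] at h2
        apply htw
        linear_combination -h2
      exact div_pos (norm_pos_iff.2 h1) (pow_pos (norm_pos_iff.2 (hP.ne t)) 2)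
    · exact ((P j).differentiable.comp (by fun_prop :
        Differentiable ℂ fun z : ℂ => t + z * c)).differentiableOn
    · have hcomp : ∀ j : Fin (n + 1),
          ((P j).comp (Polynomial.C t + Polynomial.X * Polynomial.C c)).natDegree ≤ N := by
        intro j
        refine Polynomial.natDegree_comp_le.trans ?_
        have h1 : (Polynomial.C t + Polynomial.X * Polynomial.C c).natDegree ≤ 1 := by
          refine (Polynomial.natDegree_add_le _ _).trans (max_le ?_ ?_)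
          · rw [Polynomial.natDegree_C]
            exact Nat.zero_le _
          · exact (Polynomial.natDegree_mul_C_le _ _).trans Polynomial.natDegree_X_le
        calc _ ≤ N * 1 := Nat.mul_le_mul (hP.deg j) h1
          _ = N := mul_one _
      have h1 := algP_poly hN1 (ball 0 1) (hcomp j) (hcomp k)
      simp only [Polynomial.eval_comp, Polynomial.eval_add, Polynomial.eval_C,
        Polynomial.eval_mul, Polynomial.eval_X] at h1
      exact h1

end Pool.Agent.V1153.KB
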