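import Pool.Agent.V1153.PK.DefS
import Pool.Agent.V1153.PK.Mod2

/-!
Discs in complements of hypersurfaces and the strata of the boundary.
-/

set_option autoImplicit false

namespace Pool.Agent.V1153.KB

open Filter Topology Set Metric MvPolynomial
open Pool.Agent.V1153.UG Pool.Agent.V1153.UR

variable {n : ℕ} {κ : Type} [Fintype κ] [DecidableEq κ]

theorem strQ_eval (Q : κ → MvPolynomial (Fin (n + 1)) ℂ) (J : Finset κ) (x : Fin (n + 1) → ℂ) :
    eval x (strQ Q J) ≠ 0 ↔ ∀ l, l ∉ J → eval x (Q l) ≠ 0 := by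
  unfold strQ
  rw [map_prod, Finset.prod_ne_zero_iff]
  simp only [Finset.mem_compl]

theorem line_of_str {E : Set (MvPolynomial (Fin (n + 1)) ℂ)}
    {Q : κ → MvPolynomial (Fin (n + 1)) ℂ} {J : Set κ} {N : ℕ} {P : Fin (n + 1) → Polynomial ℂ}
    (h : LineStr E Q J N P) : ∃ J' : Finset κ, (J' : Set κ) = J ∧
      LineC (strE E Q J') (strQ Q J') N P := by
  classical
  refine ⟨J.toFinset, Set.coe_toFinset J, h.deg, h.ne, fun z F hF => ?_, fun z => ?_, h.nc⟩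
  · rcases hF with hF | ⟨l, hl, rfl⟩
    · exact h.mem z F hF
    · exact h.van l (Set.mem_toFinset.1 hl) z
  · rw [strQ_eval]
    exact fun l hl => h.off l (fun h1 => hl (Set.mem_toFinset.2 h1)) z

theorem offD_off {Q : κ → MvPolynomial (Fin (n + 1)) ℂ} {f : ℂ → Fin (n + 1) → ℂ}
    (h : OffD (∏ l, Q l) f) : Off Q f := by
  intro l z hz
  have h1 := h z hz
  rw [map_prod, Finset.prod_ne_zero_iff] at h1
  exact h1 l (Finset.mem_univ _)

theorem strQ_empty (Q : κ → MvPolynomial (Fin (n + 1)) ℂ) : strQ Q ∅ = ∏ l, Q l := by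
  unfold strQ
  rw [Finset.compl_empty]

theorem strE_empty (E : Set (MvPolynomial (Fin (n + 1)) ℂ))
    (Q : κ → MvPolynomial (Fin (n + 1)) ℂ) : strE E Q ∅ = E := by
  unfold strE
  simp

/-- curves of the affine line give discs with large derivatives -/
theorem line_big {E : Set (MvPolynomial (Fin (n + 1)) ℂ)} {Q : MvPolynomial (Fin (n + 1)) ℂ}
    {m : ℕ} {P : Fin (n + 1) → Polynomial ℂ} (hP : LineC E Q m P) {C : ℝ}
    (hC : ∀ f, DAlgQ E Q m f → fs f 0 ≤ C) : False := by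
  obtain ⟨a, b, hab⟩ := wr_of_nc hP.gm.nc
  obtain ⟨w, hw2⟩ := poly_ne (sub_ne_zero.2 hab)
  refine ent_unbdd (𝒟 := DAlgQ E Q m) (h := fun w j => (P j).eval w) (s := w)
    (G := 1) (γ := 0) (fun j => (P j).differentiable) hP.ne ?_ ?_ (fun c' => line_disc hP w c') ?_
  · rw [map_one]
    exact one_ne_zero
  · have h2 : wr (fun w j => (P j).eval w) w ≠ 0 := by
      intro h0
      have h3 := congrFun h0 (a, b)
      change (P a).eval w * deriv (fun w => (P b).eval w) w -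
        (P b).eval w * deriv (fun w => (P a).eval w) w = 0 at h3
      rw [Polynomial.deriv, Polynomial.deriv] at h3
      apply hw2
      rw [Polynomial.eval_sub, Polynomial.eval_mul, Polynomial.eval_mul]
      linear_combination -h3
    exact div_pos (norm_pos_iff.2 h2) (pow_pos (norm_pos_iff.2 (hP.ne w)) 2)
  · exact fun _ _ => ⟨C, fun f hf _ => hC f hf⟩

section

variable {T : Type} [TopologicalSpace T] [FirstCountableTopology T] {ι : Type}

/-- **Algebraic discs in families of complements.** -/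
theorem str_alg (m : ℕ) {F : ι → T → MvPolynomial (Fin (n + 1)) ℂ} (hF : ∀ l, ∃ a, CFam a (F l))
    {Q : κ → T → MvPolynomial (Fin (n + 1)) ℂ} (hQ : ∀ l, ∃ a, CFam a (Q l)) (t0 : T)
    (hno : ∀ (J : Finset κ) (P : Fin (n + 1) → Polynomial ℂ),
      ¬ LineC (strE (fib F t0) (fun l => Q l t0) J) (strQ (fun l => Q l t0) J) ((n + 1) * m) P) :
    ∃ C : ℝ, ∀ᶠ t in 𝓝 t0, (∀ P, ¬ LineC (fib F t) (∏ l, Q l t) m P) ∧
      ∀ 𝒟 : (ℂ → Fin (n + 1) → ℂ) → Prop, (∀ f, 𝒟 f → DAlgQ (fib F t) (∏ l, Q l t) m f) →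
        (∀ f, 𝒟 f → fs f 0 ≤ (n + 1) * C) ∧ KobGe (kc n C) 𝒟 := by
  obtain ⟨C, hC⟩ := fam_bound m F hF Q hQ t0 fun J P hP => by
    obtain ⟨J', -, h1⟩ := line_of_str hP
    exact hno J' P h1
  refine ⟨C, ?_⟩
  filter_upwards [hC] with t ht
  have hfs : ∀ f, DAlgQ (fib F t) (∏ l, Q l t) m f → fs f 0 ≤ (n + 1) * C := fun f hf =>
    (fs_le (hf.1.1.ne 0 (mem_ball_self one_pos))).trans
      (mul_le_mul_of_nonneg_left (ht f hf.1 (offD_off hf.2)) (by positivity))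
  refine ⟨fun P hP => line_big hP hfs, fun 𝒟 h𝒟 => ⟨fun f hf => hfs f (h𝒟 f hf), ?_⟩⟩
  exact kob_ge ht fun f hf => ⟨(h𝒟 f hf).1, offD_off (h𝒟 f hf).2⟩

end

/-- **Discs of bounded complexity in families of complements.** -/
theorem str_cx (n D s r e d : ℕ) : ∃ N, ∀ (T : Type) [TopologicalSpace T]
    [FirstCountableTopology T] (ι κ : Type) [Fintype κ] [DecidableEq κ]
    (F : ι → T → MvPolynomial (Fin (n + 1)) ℂ) (Q : κ → T → MvPolynomial (Fin (n + 1)) ℂ)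
    (a : κ → ℕ), (∀ l, ∃ b ≤ D, CFam b (F l)) → (∀ l, CFam (a l) (Q l)) → ∑ l, a l ≤ D →
      ∀ t0 : T, (∀ᶠ t in 𝓝 t0, ∀ P, ¬ GmBdd (Ideal.span (fib F t)) (∏ l, Q l t) N P) →
        (∀ J : Finset κ, J.Nonempty → ∀ P,
          ¬ LineC (strE (fib F t0) (fun l => Q l t0) J) (strQ (fun l => Q l t0) J) N P) →
        LocHyp t0 fun t => DCxQ (fib F t) (∏ l, Q l t) s r e d := by
  obtain ⟨N, hN⟩ := fam_none n D s r e d
  refine ⟨(n + 1) * N, fun T _ _ ι κ _ _ F Q a hF hQ ha t0 hgm hno => ?_⟩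
  have hle : N ≤ (n + 1) * N := Nat.le_mul_of_pos_left _ (by omega)
  obtain ⟨C, hC⟩ := str_alg N (F := F) (fun l => by
    obtain ⟨b, -, hb⟩ := hF l
    exact ⟨b, hb⟩) (Q := Q) (fun l => ⟨a l, hQ l⟩) t0 fun J P hP => by
    rcases J.eq_empty_or_nonempty with rfl | hJ
    · rw [strE_empty, strQ_empty] at hP
      exact hgm.self_of_nhds P hP.gm
    · exact hno J hJ P hP
  refine ⟨(n + 1) * C, kc n C, kc_pos n C, ?_⟩
  filter_upwards [hC, hgm] with t ht hg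
  have hE : ∀ G ∈ fib F t, ∃ b ≤ D, G.IsHomogeneous b := by
    rintro _ ⟨l, rfl⟩
    obtain ⟨b, hb, h3⟩ := hF l
    exact ⟨b, hb, h3.hom t⟩
  have hQh : (∏ l, Q l t).IsHomogeneous (∑ l, a l) :=
    MvPolynomial.IsHomogeneous.prod _ _ _ fun l _ => (hQ l).hom t
  obtain ⟨-, -, h3⟩ := hN (fib F t) (∏ l, Q l t) ⟨hE, _, ha, hQh⟩ fun P hP =>
    hg P ⟨fun j => (hP.deg j).trans hle, hP.mem, hP.off, hP.nc⟩
  refine ht.2 _ fun f hf => ?_
  refine cx_algQ (I := Ideal.span (fib F t)) (G := 1) (γ := 0) (isHomogeneous_one _ _)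
    (fun x hx F hF hh => span_zero x hx F hF hh) (fun U h hA => Or.inr (h3 U h hA)) hf ?_
  rw [map_one]
  exact one_ne_zero

/-- the converse -/
theorem no_gm_of {E : Set (MvPolynomial (Fin (n + 1)) ℂ)} (hE : ∀ F ∈ E, ∃ a, F.IsHomogeneous a)
    {Q : MvPolynomial (Fin (n + 1)) ℂ} {q : ℕ} (hQ : Q.IsHomogeneous q) {N : ℕ}
    (h : (∃ C : ℝ, ∀ f, DCxQ E Q 1 2 (q * N + N + 1) 0 f → fs f 0 ≤ C) ∨
      ∃ c : ℝ, 0 < c ∧ KobGe c (DCxQ E Q 1 2 (q * N + N + 1) 0))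
    (P : Fin (n + 1) → Polynomial ℂ) : ¬ GmBdd (Ideal.span E) Q N P := by
  intro hP
  have hsub : ∀ f, DCxQ (homs (Ideal.span E)) Q 1 2 (q * N + N + 1) 0 f →
      DCxQ E Q 1 2 (q * N + N + 1) 0 f := fun f hf =>
    ⟨⟨hf.1.diff, hf.1.ne, fun z hz H hH => hf.1.mem z hz H ⟨Ideal.subset_span hH, hE H hH⟩⟩, hf.2⟩
  rcases h with ⟨C, hC⟩ | ⟨c, hc, hK⟩
  · refine exp_unbdd hQ hP (G := 1) (γ := 0) (isHomogeneous_one _ _) ⟨0, ?_⟩ ?_
    · rw [map_one]
      exact one_ne_zero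
    · exact fun _ _ => ⟨C, fun f hf _ => hC f (hsub f hf)⟩
  · obtain ⟨P', hP', hne, hoff, -⟩ := gm_prim hQ hP
    obtain ⟨t1, ht1, hns⟩ := second_pt hne hP'.nc 1
    have h2 := kob_ent (𝒟 := DCxQ E Q 1 2 (q * N + N + 1) 0)
      (h := fun w j => (P' j).eval (Complex.exp w)) (s := 0) (t := Complex.log t1)
      fun c => hsub _ (exp_disc hQ hP' hne hoff 0 c)
    have h3 := hK _ _ (hne (Complex.exp 0)) (hne (Complex.exp (Complex.log t1)))
    rw [h2] at h3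
    have h4 := ENNReal.ofReal_eq_zero.1 (le_antisymm h3 bot_le)
    rw [Complex.exp_zero, Complex.exp_log ht1] at h4
    have h5 : 0 < ‖pm (fun j => (P' j).eval 1) - pm fun j => (P' j).eval t1‖ := by
      refine norm_pos_iff.2 (sub_ne_zero.2 fun h => hns fun j k => ?_)
      exact pm_inj (hne 1) (hne t1) h j k
    nlinarith

/-- strata whose subvarieties are of log general type -/
theorem no_gm_of_log {E : Set (MvPolynomial (Fin (n + 1)) ℂ)}
    (hE : ∀ F ∈ E, ∃ a, F.IsHomogeneous a) {Q : MvPolynomial (Fin (n + 1)) ℂ} {q : ℕ}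
    (hQ : Q.IsHomogeneous q) (h : AllLog E Q q) (N : ℕ) (P : Fin (n + 1) → Polynomial ℂ) :
    ¬ GmBdd (Ideal.span E) Q N P := by
  intro hP
  have h1 : InNotLog E Q q 1 := fun I hI hEI hQI _ hvw => h I hI hEI hQI hvw
  have h2 := h1.gm hE hQ (isHomogeneous_one _ _) N P hP 0
  rw [map_one] at h2
  exact one_ne_zero h2

end Pool.Agent.V1153.KB
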