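import Pool.Agent.V1153.LK.Lip

/-!
Limits of algebraic functions on growing discs: the general case.
-/

set_option autoImplicit false

namespace Pool.Agent.V1153.KB

open Filter Topology Set Metric
open Pool.Agent.V1153.UG Pool.Agent.Y377.IL

/-- **Limits of algebraic functions on growing discs are rational.** -/
theorem lim_gen {𝒰 : Ultrafilter ℕ} {R : ℕ → ℝ} (hR : ∀ M : ℝ, ∀ᶠ i in (𝒰 : Filter ℕ), M < R i)
    {m : ℕ} {a b : ℕ → ℂ → ℂ} (ha : ∀ i, DifferentiableOn ℂ (a i) (ball 0 (R i)))
    (hb : ∀ i, DifferentiableOn ℂ (b i) (ball 0 (R i)))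
    (halg : ∀ i, AlgP m (ball 0 (R i)) (a i) (b i)) :
    ∃ B H : Polynomial ℂ, (B ≠ 0 ∨ H ≠ 0) ∧ B.natDegree ≤ m ∧ H.natDegree ≤ m ∧
      ∀ (ζ : ℕ → ℂ) (z : ℂ), Tendsto ζ 𝒰 (𝓝 z) → ∀ (μ : ℕ → ℂ) (ya yb : ℂ),
        Tendsto (fun i => μ i * a i (ζ i)) 𝒰 (𝓝 ya) →
        Tendsto (fun i => μ i * b i (ζ i)) 𝒰 (𝓝 yb) → B.eval z * ya = H.eval z * yb := by
  classical
  have hevb : ∀ (ζ : ℕ → ℂ) (z : ℂ), Tendsto ζ 𝒰 (𝓝 z) → ∀ᶠ i in (𝒰 : Filter ℕ),
      ‖ζ i‖ < ‖z‖ + 1 ∧ 2 * (‖z‖ + 1) < R i ∧ ζ i ∈ ball (0 : ℂ) (R i) := by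
    intro ζ z hζ
    filter_upwards [hR (2 * (‖z‖ + 1)), hζ.norm.eventually (gt_mem_nhds (lt_add_one ‖z‖))]
      with i h1 h2
    refine ⟨h2, h1, ?_⟩
    rw [mem_ball_zero_iff]
    linarith [norm_nonneg z]
  choose c hc hcz using fun i => (halg i).norm
  obtain ⟨cL, hcL⟩ := ultra_lim (𝒰 := 𝒰) (a := c) (C := 1)
    (Filter.Eventually.of_forall fun i => (hc i).le)
  have hcL1 : ‖cL‖ = 1 := by
    refine tendsto_nhds_unique hcL.norm ?_
    simp only [hc]
    exact tendsto_const_nhds
  -- the choice of `τ`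
  obtain ⟨τ, α0, hτ⟩ : ∃ (τ : ℂ) (α : Fin (m + 1)),
      ∑ β : Fin (m + 1), cL β α * (-τ) ^ (m - (β : ℕ)) ≠ 0 := by
    have h1 : cL ≠ 0 := by
      intro h0
      rw [h0, norm_zero] at hcL1
      exact zero_ne_one hcL1
    obtain ⟨β0, hβ0⟩ := Function.ne_iff.1 h1
    obtain ⟨α0, hα0⟩ := Function.ne_iff.1 hβ0
    have hα0' : cL β0 α0 ≠ 0 := hα0
    let q : Polynomial ℂ := ∑ β : Fin (m + 1), Polynomial.C (cL β α0) *
      Polynomial.X ^ (m - (β : ℕ))
    have hq : q ≠ 0 := by
      intro h0
      apply hα0'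
      have h2 := congrArg (fun q : Polynomial ℂ => q.coeff (m - (β0 : ℕ))) h0
      simp only [q, Polynomial.finsetSum_coeff, Polynomial.coeff_C_mul, Polynomial.coeff_X_pow,
        Polynomial.coeff_zero] at h2
      rw [Finset.sum_eq_single β0] at h2
      · simpa using h2
      · intro b _ hb
        rw [if_neg (fun h3 => hb (Fin.ext (by
          have := b.2
          have := β0.2
          omega))), mul_zero]
      · intro h3
        exact absurd (Finset.mem_univ _) h3
    obtain ⟨t, ht⟩ := poly_ne hq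
    refine ⟨-t, α0, ?_⟩
    rw [neg_neg]
    simp only [q, Polynomial.eval_finsetSum, Polynomial.eval_mul, Polynomial.eval_C,
      Polynomial.eval_pow, Polynomial.eval_X] at ht
    exact ht
  let AC : (Fin (m + 1) → Fin (m + 1) → ℂ) → Fin (m + 1) → ℂ := fun c α =>
    ∑ β : Fin (m + 1), c β α * (-τ) ^ (m - (β : ℕ))
  have hACc : Continuous AC := by
    refine continuous_pi fun α => continuous_finsetSum _ fun β _ => ?_
    have h1 : Continuous fun c : Fin (m + 1) → Fin (m + 1) → ℂ => c β α := by fun_prop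
    exact h1.mul continuous_const
  let A : ℕ → Polynomial ℂ := fun i =>
    ∑ α : Fin (m + 1), Polynomial.C (AC (c i) α) * Polynomial.X ^ (α : ℕ)
  let AL : Polynomial ℂ := ∑ α : Fin (m + 1), Polynomial.C (AC cL α) * Polynomial.X ^ (α : ℕ)
  have hALdeg : AL.natDegree ≤ m := by
    refine Polynomial.natDegree_sum_le_of_forall_le _ _ fun α _ => ?_
    refine (Polynomial.natDegree_C_mul_X_pow_le _ _).trans ?_
    omega
  have hAL0 : AL ≠ 0 := by
    intro h0
    apply hτ
    have h2 := congrArg (fun q : Polynomial ℂ => q.coeff (α0 : ℕ)) h0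
    simp only [AL, Polynomial.finsetSum_coeff, Polynomial.coeff_C_mul, Polynomial.coeff_X_pow,
      Polynomial.coeff_zero] at h2
    rw [Finset.sum_eq_single α0] at h2
    · simpa using h2
    · intro b _ hb
      rw [if_neg (fun h3 => hb (Fin.ext h3.symm)), mul_zero]
    · intro h3
      exact absurd (Finset.mem_univ _) h3
  have hAe : ∀ i z, (A i).eval z = ∑ β : Fin (m + 1),
      (∑ α : Fin (m + 1), c i β α * z ^ (α : ℕ)) * (-τ) ^ (m - (β : ℕ)) := by
    intro i z
    simp only [A, AC, Polynomial.eval_finsetSum, Polynomial.eval_mul, Polynomial.eval_C,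
      Polynomial.eval_pow, Polynomial.eval_X, Finset.sum_mul]
    rw [Finset.sum_comm]
    refine Finset.sum_congr rfl fun β _ => Finset.sum_congr rfl fun α _ => ?_
    ring
  by_cases hE : ∀ᶠ i in 𝒰, ∃ z ∈ ball (0 : ℂ) (R i), b i z + τ * a i z ≠ 0
  · -- the extension of the quotient
    let K : ℝ := (m + 1) * (1 + ‖τ‖) ^ m * ((m + 1) * (m + 1))
    have hK : 0 ≤ K := by positivity
    have hex : ∀ i, ∃ H : ℂ → ℂ, (∃ z ∈ ball (0 : ℂ) (R i), b i z + τ * a i z ≠ 0) →
        DifferentiableOn ℂ H (ball 0 (R i)) ∧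
          (∀ z ∈ ball (0 : ℂ) (R i), (A i).eval z * a i z = H z * (b i z + τ * a i z)) ∧
          ∀ z ∈ ball (0 : ℂ) (R i), ‖H z‖ ≤ K * (1 + ‖z‖) ^ m := by
      intro i
      by_cases hi : ∃ z ∈ ball (0 : ℂ) (R i), b i z + τ * a i z ≠ 0
      · obtain ⟨H, h1, h2, h3⟩ := ext_quot (a := fun z => (A i).eval z * a i z)
          (b := fun z => b i z + τ * a i z) (R := R i)
          ((A i).differentiable.differentiableOn.mul (ha i))
          ((hb i).add ((differentiableOn_const _).mul (ha i))) hi
          (M := fun z => K * (1 + ‖z‖) ^ m) (by fun_prop) (by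
            intro z hz hne
            have h4 := root_bd (fun β => ∑ α : Fin (m + 1), c i β α * z ^ (α : ℕ)) τ
              (a i z / (b i z + τ * a i z)) (by
                have h5 : 1 - τ * (a i z / (b i z + τ * a i z)) = b i z / (b i z + τ * a i z) := by
                  field_simp
                  ring
                rw [h5]
                have h6 : ∀ β : Fin (m + 1), (∑ α : Fin (m + 1), c i β α * z ^ (α : ℕ)) *
                    (a i z / (b i z + τ * a i z)) ^ (β : ℕ) *
                      (b i z / (b i z + τ * a i z)) ^ (m - (β : ℕ)) =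
                    ((b i z + τ * a i z) ^ m)⁻¹ * ((∑ α : Fin (m + 1), c i β α * z ^ (α : ℕ)) *
                      a i z ^ (β : ℕ) * b i z ^ (m - (β : ℕ))) := by
                  intro β
                  have h7 : (b i z + τ * a i z) ^ m = (b i z + τ * a i z) ^ (β : ℕ) *
                      (b i z + τ * a i z) ^ (m - (β : ℕ)) := by
                    rw [← pow_add]
                    congr 1
                    omega
                  rw [h7, div_pow, div_pow]
                  field_simp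
                rw [Finset.sum_congr rfl fun β _ => h6 β, ← Finset.mul_sum, hcz i z hz, mul_zero])
            rw [← hAe] at h4
            change ‖(A i).eval z * a i z / (b i z + τ * a i z)‖ ≤ K * (1 + ‖z‖) ^ m
            rw [mul_div_assoc]
            refine h4.trans ?_
            have h8 : ∀ β ∈ (Finset.univ : Finset (Fin (m + 1))),
                ‖∑ α : Fin (m + 1), c i β α * z ^ (α : ℕ)‖ ≤ (m + 1) * (1 + ‖z‖) ^ m := by
              intro β _
              refine (norm_sum_le _ _).trans ?_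
              have h9 : ∀ α ∈ (Finset.univ : Finset (Fin (m + 1))),
                  ‖c i β α * z ^ (α : ℕ)‖ ≤ (1 + ‖z‖) ^ m := by
                intro α _
                rw [norm_mul, norm_pow]
                have e1 : ‖c i β α‖ ≤ 1 := by
                  rw [← hc i]
                  exact (norm_le_pi_norm (c i β) α).trans (norm_le_pi_norm (c i) β)
                have e2 : (1 : ℝ) ≤ 1 + ‖z‖ := by linarith [norm_nonneg z]
                calc ‖c i β α‖ * ‖z‖ ^ (α : ℕ) ≤ 1 * (1 + ‖z‖) ^ (α : ℕ) := by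
                      gcongr
                      linarith
                  _ ≤ (1 + ‖z‖) ^ m := by
                      rw [one_mul]
                      exact pow_le_pow_right₀ e2 (by omega)
              refine (Finset.sum_le_card_nsmul _ _ _ h9).trans ?_
              rw [Finset.card_univ, Fintype.card_fin, nsmul_eq_mul]
              push_cast
              exact le_rfl
            have h10 := Finset.sum_le_card_nsmul _ _ _ h8
            rw [Finset.card_univ, Fintype.card_fin, nsmul_eq_mul] at h10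
            push_cast at h10
            calc ((m : ℝ) + 1) * (1 + ‖τ‖) ^ m *
                ∑ β : Fin (m + 1), ‖∑ α : Fin (m + 1), c i β α * z ^ (α : ℕ)‖ ≤
                (m + 1) * (1 + ‖τ‖) ^ m * ((m + 1) * ((m + 1) * (1 + ‖z‖) ^ m)) := by
                  gcongr
              _ = K * (1 + ‖z‖) ^ m := by
                  simp only [K]
                  ring)
        exact ⟨H, fun _ => ⟨h1, h2, h3⟩⟩
      · exact ⟨0, fun h => absurd h hi⟩
    choose H hH using hex
    -- the bounds for the coefficients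
    have hcoef : ∀ l : ℕ, ∀ i, (∃ z ∈ ball (0 : ℂ) (R i), b i z + τ * a i z ≠ 0) →
        ∀ ρ : ℝ, 0 < ρ → ρ < R i →
          ‖PowerSeries.coeff l (tay 0 (H i))‖ ≤ K * (1 + ρ) ^ m / ρ ^ l := by
      intro l i hi ρ hρ hρR
      obtain ⟨h1, -, h3⟩ := hH i hi
      have h4 := Complex.norm_iteratedDeriv_le_of_forall_mem_sphere_norm_le (c := (0 : ℂ))
        (R := ρ) (C := K * (1 + ρ) ^ m) l hρ
        (h1.diffContOnCl_ball (closedBall_subset_ball hρR)) (by
          intro z hz
          rw [mem_sphere_zero_iff_norm] at hz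
          have h5 := h3 z (by rw [mem_ball_zero_iff, hz]; exact hρR)
          rwa [hz] at h5)
      rw [Pool.Agent.Y564.IL.tay_coeff, norm_div, RCLike.norm_natCast]
      have h6 : (0 : ℝ) < l.factorial := by exact_mod_cast l.factorial_pos
      rw [div_le_iff₀ h6]
      refine h4.trans (le_of_eq ?_)
      ring
    have hlim : ∀ l : ℕ, ∃ x, Tendsto (fun i => PowerSeries.coeff l (tay 0 (H i))) 𝒰 (𝓝 x) := by
      intro l
      refine ultra_lim (C := K * (1 + 1) ^ m / 1 ^ l) ?_
      filter_upwards [hE, hR 1] with i hi h1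
      exact hcoef l i hi 1 one_pos h1
    choose hL hhL using hlim
    have hL0 : ∀ l, m < l → hL l = 0 := by
      intro l hl
      have hbd : ∀ ρ : ℝ, 1 ≤ ρ → ‖hL l‖ ≤ K * 2 ^ m * ρ⁻¹ := by
        intro ρ hρ
        refine le_of_tendsto (hhL l).norm ?_
        filter_upwards [hE, hR ρ] with i hi hi2
        refine (hcoef l i hi ρ (by linarith) hi2).trans ?_
        obtain ⟨k, rfl⟩ := Nat.exists_eq_add_of_lt hl
        have h5 : (0 : ℝ) < ρ ^ (m + k + 1) := by positivity
        rw [div_le_iff₀ h5]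
        have h6 : (1 + ρ) ^ m ≤ 2 ^ m * ρ ^ m := by
          rw [← mul_pow]
          gcongr
          linarith
        have h7 : ρ ^ m ≤ ρ⁻¹ * ρ ^ (m + k + 1) := by
          rw [pow_succ, mul_comm, mul_assoc, mul_inv_cancel₀ (by linarith), mul_one]
          exact pow_le_pow_right₀ hρ (by omega)
        calc K * (1 + ρ) ^ m ≤ K * (2 ^ m * ρ ^ m) := by gcongr
          _ ≤ K * (2 ^ m * (ρ⁻¹ * ρ ^ (m + k + 1))) := by gcongr
          _ = K * 2 ^ m * ρ⁻¹ * ρ ^ (m + k + 1) := by ring
      have h1 : Tendsto (fun ρ : ℝ => K * 2 ^ m * ρ⁻¹) atTop (𝓝 0) := by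
        have h2 := (tendsto_inv_atTop_zero (𝕜 := ℝ)).const_mul (K * 2 ^ m)
        rwa [mul_zero] at h2
      have h3 : ‖hL l‖ ≤ 0 := by
        refine ge_of_tendsto h1 ?_
        filter_upwards [eventually_ge_atTop (1 : ℝ)] with ρ hρ
        exact hbd ρ hρ
      exact norm_le_zero_iff.1 h3
    obtain ⟨Hp, hHpd, hHp⟩ : ∃ Hp : Polynomial ℂ, Hp.natDegree ≤ m ∧
        (Hp : PowerSeries ℂ) = PowerSeries.mk hL := by
      refine ⟨∑ l ∈ Finset.range (m + 1), Polynomial.C (hL l) * Polynomial.X ^ l, ?_, ?_⟩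
      · refine Polynomial.natDegree_sum_le_of_forall_le _ _ fun l hl => ?_
        refine (Polynomial.natDegree_C_mul_X_pow_le _ _).trans ?_
        have := Finset.mem_range.1 hl
        omega
      · ext k
        rw [Polynomial.coeff_coe, PowerSeries.coeff_mk]
        simp only [Polynomial.finsetSum_coeff, Polynomial.coeff_C_mul, Polynomial.coeff_X_pow]
        by_cases hk : k ≤ m
        · rw [Finset.sum_eq_single k]
          · simp
          · intro l _ hl
            rw [if_neg (Ne.symm hl), mul_zero]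
          · intro h1
            exact absurd (Finset.mem_range.2 (by omega)) h1
        · rw [hL0 k (by omega)]
          refine Finset.sum_eq_zero fun l hl => ?_
          have := Finset.mem_range.1 hl
          rw [if_neg (by omega), mul_zero]
    have hcf : ∀ l, Hp.coeff l = hL l := fun l => by
      have h3 := congrArg (PowerSeries.coeff l) hHp
      rwa [Polynomial.coeff_coe, PowerSeries.coeff_mk] at h3
    have hHz : ∀ (ζ : ℕ → ℂ) (z : ℂ), Tendsto ζ 𝒰 (𝓝 z) →
        Tendsto (fun i => H i (ζ i)) 𝒰 (𝓝 (Hp.eval z)) := by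
      intro ζ z hζ
      set ρ : ℝ := 2 * (‖z‖ + 1) with hρ
      have hρ0 : 0 < ρ := by positivity
      have hsum : Summable fun l : ℕ => K * (1 + ρ) ^ m * (1 / 2 : ℝ) ^ l :=
        (summable_geometric_of_lt_one (by norm_num) (by norm_num)).mul_left _
      have h1 : Tendsto (fun i => ∑' l, PowerSeries.coeff l (tay 0 (H i)) * ζ i ^ l) 𝒰
          (𝓝 (∑' l, hL l * z ^ l)) := by
        refine tendsto_tsum_of_dominated_convergence hsum (fun l => (hhL l).mul (hζ.pow l)) ?_
        filter_upwards [hE, hevb ζ z hζ] with i hi hi2 l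
        rw [norm_mul, norm_pow]
        have h2 := hcoef l i hi ρ hρ0 hi2.2.1
        have h3 : ‖ζ i‖ ≤ ρ / 2 := by rw [hρ]; linarith [hi2.1]
        calc _ ≤ K * (1 + ρ) ^ m / ρ ^ l * (ρ / 2) ^ l := by gcongr
          _ = K * (1 + ρ) ^ m * (1 / 2) ^ l := by
            rw [div_pow, div_pow, one_pow]
            field_simp
      have h2 : ∑' l, hL l * z ^ l = Hp.eval z := by
        rw [Polynomial.eval_eq_sum_range' (Nat.lt_succ_of_le hHpd),
          tsum_eq_sum (s := Finset.range (m + 1))]
        · refine Finset.sum_congr rfl fun l _ => ?_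
          rw [hcf]
        · intro l hl
          rw [hL0 l (by
            rw [Finset.mem_range] at hl
            omega), zero_mul]
      rw [h2] at h1
      refine h1.congr' ?_
      filter_upwards [hE, hevb ζ z hζ] with i hi hi2
      have h3 := Complex.hasSum_taylorSeries_on_ball (hH i hi).1 hi2.2.2
      rw [← h3.tsum_eq]
      refine tsum_congr fun l => ?_
      rw [Pool.Agent.Y564.IL.tay_coeff, sub_zero, smul_eq_mul, smul_eq_mul]
      ring
    have hAz : ∀ (ζ : ℕ → ℂ) (z : ℂ), Tendsto ζ 𝒰 (𝓝 z) →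
        Tendsto (fun i => (A i).eval (ζ i)) 𝒰 (𝓝 (AL.eval z)) := by
      intro ζ z hζ
      simp only [A, AL, Polynomial.eval_finsetSum, Polynomial.eval_mul, Polynomial.eval_C,
        Polynomial.eval_pow, Polynomial.eval_X]
      refine tendsto_finsetSum _ fun α _ => ?_
      exact ((continuous_apply α).continuousAt.tendsto.comp
        (hACc.continuousAt.tendsto.comp hcL)).mul (hζ.pow _)
    refine ⟨AL - Polynomial.C τ * Hp, Hp, ?_, ?_, hHpd, fun ζ z hζ μ ya yb hya hyb => ?_⟩
    · by_contra h0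
      push Not at h0
      obtain ⟨h1, h2⟩ := h0
      rw [h2, mul_zero, sub_zero] at h1
      exact hAL0 h1
    · refine (Polynomial.natDegree_sub_le _ _).trans (max_le hALdeg ?_)
      exact (Polynomial.natDegree_C_mul_le _ _).trans hHpd
    · have e1 : Tendsto (fun i => (A i).eval (ζ i) * (μ i * a i (ζ i))) 𝒰
          (𝓝 (AL.eval z * ya)) := (hAz ζ z hζ).mul hya
      have e2 : Tendsto (fun i => H i (ζ i) * (μ i * b i (ζ i) + τ * (μ i * a i (ζ i)))) 𝒰
          (𝓝 (Hp.eval z * (yb + τ * ya))) := (hHz ζ z hζ).mul (hyb.add (hya.const_mul τ))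
      have e3 : ∀ᶠ i in (𝒰 : Filter ℕ), (A i).eval (ζ i) * (μ i * a i (ζ i)) =
          H i (ζ i) * (μ i * b i (ζ i) + τ * (μ i * a i (ζ i))) := by
        filter_upwards [hE, hevb ζ z hζ] with i hi hzi
        have h5 := (hH i hi).2.1 (ζ i) hzi.2.2
        linear_combination μ i * h5
      have e4 := tendsto_nhds_unique (e1.congr' e3) e2
      rw [Polynomial.eval_sub, Polynomial.eval_mul, Polynomial.eval_C]
      linear_combination e4
  · -- the degenerate case
    have hE' : ∀ᶠ i in 𝒰, ∀ z ∈ ball (0 : ℂ) (R i), b i z + τ * a i z = 0 := by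
      have h1 := Ultrafilter.eventually_not.2 hE
      filter_upwards [h1] with i hi
      push Not at hi
      exact hi
    refine ⟨Polynomial.C τ, -1, Or.inr (neg_ne_zero.2 one_ne_zero), ?_, ?_,
      fun ζ z hζ μ ya yb hya hyb => ?_⟩
    · rw [Polynomial.natDegree_C]
      exact Nat.zero_le _
    · rw [Polynomial.natDegree_neg, Polynomial.natDegree_one]
      exact Nat.zero_le _
    · have e1 : Tendsto (fun i => μ i * b i (ζ i) + τ * (μ i * a i (ζ i))) 𝒰
          (𝓝 (yb + τ * ya)) := hyb.add (hya.const_mul τ)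
      have e3 : ∀ᶠ i in (𝒰 : Filter ℕ), μ i * b i (ζ i) + τ * (μ i * a i (ζ i)) = 0 := by
        filter_upwards [hE', hevb ζ z hζ] with i hi hzi
        have h5 := hi (ζ i) hzi.2.2
        linear_combination μ i * h5
      have e4 := tendsto_nhds_unique (tendsto_const_nhds.congr' (e3.mono fun i hi => hi.symm)) e1
      rw [Polynomial.eval_C, Polynomial.eval_neg, Polynomial.eval_one]
      linear_combination -e4

end Pool.Agent.V1153.KB
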