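import Pool.Agent.V1153.PK.Coef
import Pool.Agent.V1153.PK.Str
import Pool.Agent.V1153.GH.Cst

/-!
Discs in general hypersurfaces and in complements of general hypersurfaces.
-/

set_option autoImplicit false

namespace Pool.Agent.V1153.KB

open Filter Topology Set Metric MvPolynomial
open Pool.Agent.V1153.UG

variable {n : ℕ}

/-- **General hypersurfaces.** -/
theorem hyp_gen (n d : ℕ) (hd : 2 * n ≤ d) (s r e δ m : ℕ) :
    ∃ Φ : MvPolynomial (Fin (n + 1) →₀ ℕ) ℂ,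
      (∃ F₀ : MvPolynomial (Fin (n + 1)) ℂ, F₀.IsHomogeneous d ∧
        eval (fun m => coeff m F₀) Φ ≠ 0) ∧
      ∀ (T : Type) [TopologicalSpace T] [FirstCountableTopology T]
        (F : T → MvPolynomial (Fin (n + 1)) ℂ), CoefFam d F → ∀ t0 : T,
          eval (fun m => coeff m (F t0)) Φ ≠ 0 →
            ∃ C c : ℝ, 0 < c ∧ ∀ᶠ t in 𝓝 t0,
              (∀ f, (DCx {F t} s r e δ f ∨ DAlg {F t} m f) → fs f 0 ≤ C) ∧
              KobGe c fun f => DCx {F t} s r e δ f ∨ DAlg {F t} m f := by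
  obtain ⟨N, hN⟩ := fam_none n d s r e δ
  set M := max N m with hM
  obtain ⟨Φ, h1, h2⟩ := Pool.Agent.V1153.GH.gen_hyp (n := n) (d := d) hd ((n + 1) * M)
  refine ⟨Φ, h1, fun T _ _ F hF t0 ht0 => ?_⟩
  have hfib : ∀ t, fib (fun (_ : Unit) => F) t = {F t} := fun t => Set.range_const
  obtain ⟨C, hC⟩ := stab_alg M (fun (_ : Unit) => F) (fun _ => ⟨d, hF.cfam⟩) t0 (by
    rw [hfib]
    exact h2 (F t0) (hF.hom t0) ht0)
  refine ⟨(n + 1) * C, kc n C, kc_pos n C, ?_⟩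
  filter_upwards [hC] with t ht
  rw [hfib] at ht
  obtain ⟨h3, h4⟩ := ht
  obtain ⟨-, -, h5⟩ := hN {F t} 1 ⟨fun G hG => ⟨d, le_rfl, by
    rw [Set.mem_singleton_iff] at hG
    rw [hG]
    exact hF.hom t⟩, 0, Nat.zero_le _, isHomogeneous_one _ _⟩ fun P hP =>
      h3 P ⟨fun j => (hP.deg j).trans (le_max_left _ _), hP.mem, hP.off, hP.nc⟩
  exact h4 _ fun f hf => hf.elim (fun hf => (DCx.alg h5 hf).le (le_max_left _ _))
    fun hf => hf.le (le_max_right _ _)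

/-- **Complements of general hypersurfaces.** -/
theorem comp_gen (n q : ℕ) (d : Fin q → ℕ) (hd : 2 * n + 1 ≤ ∑ i, d i) (s r e δ m : ℕ) :
    ∃ Φ : MvPolynomial (Pool.Agent.TH182.VD.CI n d) ℂ, Φ ≠ 0 ∧
      ∀ (T : Type) [TopologicalSpace T] [FirstCountableTopology T]
        (F : Fin q → T → MvPolynomial (Fin (n + 1)) ℂ), (∀ i, CoefFam (d i) (F i)) → ∀ t0 : T,
          eval (fun x : Pool.Agent.TH182.VD.CI n d => coeff x.2.1 (F x.1 t0)) Φ ≠ 0 →
            ∃ C c : ℝ, 0 < c ∧ ∀ᶠ t in 𝓝 t0,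
              (∀ f, (DCxQ ∅ (∏ i, F i t) s r e δ f ∨ DAlgQ ∅ (∏ i, F i t) m f) → fs f 0 ≤ C) ∧
              KobGe c fun f => DCxQ ∅ (∏ i, F i t) s r e δ f ∨ DAlgQ ∅ (∏ i, F i t) m f := by
  classical
  obtain ⟨N, hN⟩ := fam_none n (∑ i, d i) s r e δ
  set M := max N m with hM
  set K := (n + 1) * M with hK
  have hMK : M ≤ K := Nat.le_mul_of_pos_left _ (by omega)
  have hgen := fun Z : Finset (Fin q) =>
    Pool.Agent.V1153.GH.general (n := n) d Z (by omega) K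
  choose Φ hΦ hF using hgen
  refine ⟨∏ Z, Φ Z, Finset.prod_ne_zero_iff.2 fun Z _ => hΦ Z, fun T _ _ F hFT t0 ht0 => ?_⟩
  have hcont : Continuous fun t => eval
      (fun x : Pool.Agent.TH182.VD.CI n d => coeff x.2.1 (F x.1 t)) (∏ Z, Φ Z) :=
    (MvPolynomial.continuous_eval _).comp (continuous_pi fun x => (hFT x.1).cont x.2.1)
  have hev : ∀ᶠ t in 𝓝 t0, eval
      (fun x : Pool.Agent.TH182.VD.CI n d => coeff x.2.1 (F x.1 t)) (∏ Z, Φ Z) ≠ 0 :=
    hcont.continuousAt.eventually_ne ht0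
  have hno : ∀ t, eval (fun x : Pool.Agent.TH182.VD.CI n d => coeff x.2.1 (F x.1 t))
      (∏ Z, Φ Z) ≠ 0 → ∀ (Z : Finset (Fin q)) P,
        ¬ GmBdd (Ideal.span (strE ∅ (fun i => F i t) Z)) (strQ (fun i => F i t) Z) K P := by
    intro t ht Z P
    rw [map_prod, Finset.prod_ne_zero_iff] at ht
    have h1 := hF Z (fun i => F i t) (fun i => (hFT i).hom t) (ht Z (Finset.mem_univ _)) P
    have h2 : strE (n := n) ∅ (fun i => F i t) Z = {G | ∃ i ∈ Z, G = F i t} := by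
      unfold strE
      rw [Set.empty_union]
    have h3 : strQ (fun i => F i t) Z = ∏ i ∈ Finset.univ \ Z, F i t := by
      unfold strQ
      rw [Finset.compl_eq_univ_sdiff]
    rw [h2, h3]
    exact h1
  have hfib : ∀ t, fib (fun (l : Empty) (_ : T) => (l.elim : MvPolynomial (Fin (n + 1)) ℂ)) t =
      ∅ := fun t => Set.range_eq_empty _
  obtain ⟨C, hC⟩ := str_alg M
    (F := fun (l : Empty) (_ : T) => (l.elim : MvPolynomial (Fin (n + 1)) ℂ)) (fun l => l.elim)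
    (Q := F) (fun i => ⟨d i, (hFT i).cfam⟩) t0 fun J P hP => by
    rw [hfib] at hP
    exact hno t0 ht0 J P hP.gm
  refine ⟨(n + 1) * C, kc n C, kc_pos n C, ?_⟩
  filter_upwards [hC, hev] with t ht het
  rw [hfib] at ht
  obtain ⟨-, h4⟩ := ht
  have hQh : (∏ i, F i t).IsHomogeneous (∑ i, d i) :=
    MvPolynomial.IsHomogeneous.prod _ _ _ fun i _ => (hFT i).hom t
  obtain ⟨-, -, h5⟩ := hN ∅ (∏ i, F i t) ⟨fun G hG => absurd hG (Set.notMem_empty G), _, le_rfl,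
    hQh⟩ fun P hP => by
      have h6 := hno t het ∅ P
      rw [strE_empty, strQ_empty] at h6
      exact h6 ⟨fun j => (hP.deg j).trans ((le_max_left _ _).trans hMK), hP.mem, hP.off, hP.nc⟩
  refine h4 _ fun f hf => hf.elim (fun hf => ?_) fun hf => ⟨hf.1.le (le_max_right _ _), hf.2⟩
  have h7 : DAlgQ ∅ (∏ i, F i t) N f :=
    cx_algQ (I := Ideal.span ∅) (G := 1) (γ := 0) (isHomogeneous_one _ _)
      (fun x hx F hF hh => span_zero x hx F hF hh) (fun U h hA => Or.inr (h5 U h hA)) hf (by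
        rw [map_one]
        exact one_ne_zero)
  exact ⟨h7.1.le (le_max_left _ _), h7.2⟩

end Pool.Agent.V1153.KB
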