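import Pool.Agent.V1153.PK.DefQ

/-!
Algebraic discs in quasi-projective varieties with centres away from the curves of the affine line.
-/

set_option autoImplicit false

namespace Pool.Agent.V1153.KB

open Filter Topology Set Metric MvPolynomial
open Pool.Agent.V1153.UG

variable {n : ℕ}

theorem ratio_lim {𝒰 : Ultrafilter ℕ} {v : ℕ → Fin (n + 1) → ℂ} {y : Fin (n + 1) → ℂ}
    (hy : y ≠ 0) (hlim : Tendsto (fun i => pm (v i)) 𝒰 (𝓝 (pm y)))
    {Q : MvPolynomial (Fin (n + 1)) ℂ} {q : ℕ} (hQ : Q.IsHomogeneous q) (hyQ : eval y Q ≠ 0)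
    (hv : ∀ᶠ i in (𝒰 : Filter ℕ), v i ≠ 0) (j : Fin (n + 1)) :
    Tendsto (fun i => v i j ^ q / eval (v i) Q) 𝒰 (𝓝 (y j ^ q / eval y Q)) := by
  obtain ⟨k, hk⟩ := Function.ne_iff.1 hy
  have hk' : y k ≠ 0 := hk
  have key : ∀ w : Fin (n + 1) → ℂ, w ≠ 0 → w k ≠ 0 →
      pm w (j, k) ^ q / eval (fun l => pm w (l, k)) Q = w j ^ q / eval w Q := by
    intro w hw hwk
    have h1 : (starRingEnd ℂ) (w k) / (nsq w : ℂ) ≠ 0 := div_ne_zero ((map_ne_zero _).2 hwk)
      (Complex.ofReal_ne_zero.2 (nsq_pos hw).ne')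
    rw [eval_pm hQ]
    have h2 : pm w (j, k) = (starRingEnd ℂ) (w k) / (nsq w : ℂ) * w j := by
      unfold pm
      rw [sum_conj]
      ring
    rw [h2, mul_pow]
    exact mul_div_mul_left _ _ (pow_ne_zero _ h1)
  have h2 : Tendsto (fun i j => pm (v i) (j, k)) 𝒰 (𝓝 fun j => pm y (j, k)) :=
    tendsto_pi_nhds.2 fun j => (tendsto_pi_nhds.1 hlim) (j, k)
  have h3 := ((MvPolynomial.continuous_eval Q).tendsto _).comp h2
  have h4 : eval (fun l => pm y (l, k)) Q ≠ 0 := by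
    rw [eval_pm hQ]
    exact mul_ne_zero (pow_ne_zero _ (div_ne_zero ((map_ne_zero _).2 hk')
      (Complex.ofReal_ne_zero.2 (nsq_pos hy).ne'))) hyQ
  have h5 := (((tendsto_pi_nhds.1 h2) j).pow q).div h3 h4
  rw [key y hy hk'] at h5
  refine h5.congr' ?_
  have h6 : ∀ᶠ i in (𝒰 : Filter ℕ), pm (v i) (k, k) ≠ 0 :=
    ((tendsto_pi_nhds.1 hlim) (k, k)).eventually_ne (pm_kk hk')
  filter_upwards [hv, h6] with i h7 h8
  refine key (v i) h7 fun h0 => h8 ?_
  unfold pm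
  rw [h0, zero_mul, zero_div]

theorem dichQ {𝒰 : Ultrafilter ℕ} {m : ℕ} {R : ℕ → ℝ} {g : ℕ → ℂ → Fin (n + 1) → ℂ}
    {E : Set (MvPolynomial (Fin (n + 1)) ℂ)} (hE : ∀ F ∈ E, ∃ a, F.IsHomogeneous a)
    {Q : MvPolynomial (Fin (n + 1)) ℂ} {q : ℕ} (hQ : Q.IsHomogeneous q)
    (hg : ASeq 𝒰 m R g) (hgE : ∀ i, ∀ z ∈ ball (0 : ℂ) (R i), ∀ F ∈ E, eval (g i z) F = 0)
    (hgQ : ∀ i, ∀ z ∈ ball (0 : ℂ) (R i), eval (g i z) Q ≠ 0)
    {x : Fin (n + 1) → ℂ} {δ : ℝ}
    (hxQ : ∀ y : Fin (n + 1) → ℂ, y ≠ 0 → ‖pm y - pm x‖ ≤ δ → eval y Q ≠ 0)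
    (hZ : AwayQ E Q ((n + 1) * m) x δ)
    {P : Fin (n + 1) → Polynomial ℂ} {D : Polynomial ℂ} (hD : D ≠ 0)
    (hPd : ∀ j, (P j).natDegree ≤ (n + 1) * m) (hP : ∀ z, (fun j => (P j).eval z) ≠ 0)
    (hlim : ∀ (ζ : ℕ → ℂ) (z : ℂ), D.eval z ≠ 0 → Tendsto ζ 𝒰 (𝓝 z) →
      Tendsto (fun i => pm (g i (ζ i))) 𝒰 (𝓝 (pm fun j => (P j).eval z)))
    (hz : ∃ z, ‖pm (fun j => (P j).eval z) - pm x‖ ≤ δ) (z w : ℂ) :
    pm (fun j => (P j).eval z) = pm fun j => (P j).eval w := by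
  classical
  by_contra hne
  obtain ⟨z0, hz0⟩ := hz
  have hQ0 : eval (fun j => (P j).eval z0) Q ≠ 0 := hxQ _ (hP z0) hz0
  have hQp : (aeval P Q : Polynomial ℂ) ≠ 0 := by
    intro h
    apply hQ0
    rw [← eval_aeval, h, Polynomial.eval_zero]
  refine absurd (hZ P ⟨hPd, hP, fun z F hF => ?_, fun z1 hz1 => ?_, ?_⟩ z0) (not_lt.2 hz0)
  · obtain ⟨a, ha⟩ := hE F hF
    have h1 : D * (aeval P F : Polynomial ℂ) = 0 := by
      apply Polynomial.funext
      intro z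
      rw [Polynomial.eval_mul, Polynomial.eval_zero]
      by_cases hDz : D.eval z = 0
      · rw [hDz, zero_mul]
      · rw [eval_aeval, pt_eqn (hP z) (hlim (fun _ => z) z hDz tendsto_const_nhds) ha ?_,
          mul_zero]
        filter_upwards [hg.ev (ζ := fun _ => z) tendsto_const_nhds] with i hi
        exact hgE i z hi F hF
    rw [← eval_aeval, (mul_eq_zero.1 h1).resolve_left hD, Polynomial.eval_zero]
  · -- the affine case
    rcases Nat.eq_zero_or_pos q with rfl | hq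
    · have h1 : ∀ y : Fin (n + 1) → ℂ, eval y Q = coeff 0 Q := by
        intro y
        have h2 : Q = C (coeff 0 Q) := totalDegree_eq_zero_iff_eq_C.1
          (Nat.le_zero.1 (hQ.totalDegree_le))
        rw [h2, eval_C, coeff_C, if_pos rfl]
      rw [h1] at hz1 hQ0
      exact hQ0 hz1
    obtain ⟨j, hj⟩ := Function.ne_iff.1 (hP z1)
    have hj' : (P j).eval z1 ≠ 0 := hj
    -- the circle
    have hDQ : D * (aeval P Q : Polynomial ℂ) ≠ 0 := mul_ne_zero hD hQp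
    obtain ⟨r, hr, hrD⟩ : ∃ r > 0, ∀ z ∈ ball z1 r, z ≠ z1 →
        (D * (aeval P Q : Polynomial ℂ)).eval z ≠ 0 := by
      have h4 : {w | (D * (aeval P Q : Polynomial ℂ)).eval w = 0}.Finite := by
        refine ((D * (aeval P Q : Polynomial ℂ)).roots.toFinset.finite_toSet).subset
          fun w hw => ?_
        rw [Finset.mem_coe, Multiset.mem_toFinset, Polynomial.mem_roots hDQ]
        exact hw
      have h5 : (({w | (D * (aeval P Q : Polynomial ℂ)).eval w = 0} \ {z1})ᶜ : Set ℂ) ∈ 𝓝 z1 :=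
        (h4.subset sdiff_subset).isClosed.isOpen_compl.mem_nhds fun h => h.2 rfl
      obtain ⟨r, hr, h6⟩ := Metric.mem_nhds_iff.1 h5
      exact ⟨r, hr, fun z hz hzz h0 => h6 hz ⟨h0, hzz⟩⟩
    have hrD' : ∀ z ∈ ball z1 r, z ≠ z1 → D.eval z ≠ 0 ∧
        eval (fun j => (P j).eval z) Q ≠ 0 := by
      intro z hz hzz
      have h1 := hrD z hz hzz
      rw [Polynomial.eval_mul, eval_aeval] at h1
      exact ⟨left_ne_zero_of_mul h1, right_ne_zero_of_mul h1⟩
    let φ : ℕ → ℂ → ℂ := fun i z => g i z j ^ q / eval (g i z) Q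
    have hφlim : ∀ (ζ : ℕ → ℂ) (z : ℂ), z ∈ ball z1 r → z ≠ z1 → Tendsto ζ 𝒰 (𝓝 z) →
        Tendsto (fun i => φ i (ζ i)) 𝒰
          (𝓝 ((P j).eval z ^ q / eval (fun j => (P j).eval z) Q)) := by
      intro ζ z hz hzz hζ
      obtain ⟨h1, h2⟩ := hrD' z hz hzz
      refine ratio_lim (hP z) (hlim ζ z h1 hζ) hQ h2 ?_ j
      filter_upwards [hg.ev hζ] with i hi
      exact hg.ne i _ hi
    have hmax : ∀ i, ∃ z ∈ sphere z1 (r / 2),
        (ContinuousOn (fun z => ‖φ i z‖) (sphere z1 (r / 2)) →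
          ∀ w ∈ sphere z1 (r / 2), ‖φ i w‖ ≤ ‖φ i z‖) := by
      intro i
      have hne : (sphere z1 (r / 2)).Nonempty := NormedSpace.sphere_nonempty.2 (by linarith)
      by_cases hc : ContinuousOn (fun z => ‖φ i z‖) (sphere z1 (r / 2))
      · obtain ⟨z, hz, h1⟩ := (isCompact_sphere z1 (r / 2)).exists_isMaxOn hne hc
        exact ⟨z, hz, fun _ w hw => h1 hw⟩
      · obtain ⟨z, hz⟩ := hne
        exact ⟨z, hz, fun h => absurd h hc⟩
    choose ζ hζ1 hζ2 using hmax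
    obtain ⟨zs, hzs, hζ⟩ := (isCompact_sphere z1 (r / 2)).ultrafilter_le_nhds (𝒰.map ζ) (by
      rw [Filter.le_principal_iff]
      change ∀ᶠ i in (𝒰 : Filter ℕ), ζ i ∈ sphere z1 (r / 2)
      exact Filter.Eventually.of_forall fun i => hζ1 i)
    have hζ' : Tendsto ζ 𝒰 (𝓝 zs) := hζ
    have hzsb : zs ∈ ball z1 r := by
      rw [mem_sphere] at hzs
      rw [mem_ball, hzs]
      linarith
    have hzsn : zs ≠ z1 := by
      intro h
      rw [h, mem_sphere, dist_self] at hzs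
      linarith
    set M : ℝ := ‖(P j).eval zs ^ q / eval (fun j => (P j).eval zs) Q‖ + 1 with hM
    have hMev : ∀ᶠ i in (𝒰 : Filter ℕ), ‖φ i (ζ i)‖ < M :=
      (hφlim ζ zs hzsb hzsn hζ').norm.eventually (gt_mem_nhds (lt_add_one _))
    have hbd : ∀ z ∈ ball z1 (r / 2), z ≠ z1 →
        ‖(P j).eval z ^ q / eval (fun j => (P j).eval z) Q‖ ≤ M := by
      intro z hz hzz
      have hzr : z ∈ ball z1 r := ball_subset_ball (by linarith) hz
      refine le_of_tendsto (hφlim (fun _ => z) z hzr hzz tendsto_const_nhds).norm ?_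
      filter_upwards [hMev, hg.rad (‖z1‖ + r)] with i hi hR
      have hsub : ball z1 r ⊆ ball (0 : ℂ) (R i) := by
        intro w hw
        rw [mem_ball, dist_eq_norm] at hw
        rw [mem_ball_zero_iff]
        have h1 := norm_add_le (w - z1) z1
        rw [sub_add_cancel] at h1
        linarith
      have hd : DifferentiableOn ℂ (φ i) (ball z1 r) :=
        (((hg.diff i j).mono hsub).pow q).div (diffOn_eval (fun j => (hg.diff i j).mono hsub) Q)
          fun w hw => hgQ i w (hsub hw)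
      have hsph : sphere z1 (r / 2) ⊆ ball z1 r := by
        intro w hw
        rw [mem_sphere] at hw
        rw [mem_ball, hw]
        linarith
      have hm := hζ2 i ((hd.continuousOn.mono hsph).norm)
      exact Complex.norm_le_of_forall_mem_frontier_norm_le (f := φ i) (U := ball z1 (r / 2))
        (C := M) (z := z) isBounded_ball
        (hd.diffContOnCl_ball (closedBall_subset_ball (by linarith))) (by
          intro w hw
          have hw' : w ∈ sphere z1 (r / 2) := by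
            rwa [frontier_ball z1 (by linarith : r / 2 ≠ 0)] at hw
          exact (hm w hw').trans hi.le) (subset_closure hz)
    -- the contradiction
    have hc1 : Tendsto (fun z => ‖(P j).eval z ^ q‖) (𝓝[≠] z1) (𝓝 ‖(P j).eval z1 ^ q‖) :=
      ((((P j).continuous.tendsto z1).pow q).norm).mono_left nhdsWithin_le_nhds
    have hc2 : Tendsto (fun z => M * ‖eval (fun j => (P j).eval z) Q‖) (𝓝[≠] z1)
        (𝓝 (M * ‖eval (fun j => (P j).eval z1) Q‖)) :=
      (((cont_eval P Q).tendsto z1).norm.const_mul M).mono_left nhdsWithin_le_nhds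
    rw [hz1, norm_zero, mul_zero] at hc2
    have hfin := le_of_tendsto_of_tendsto hc1 hc2 (by
      have h1 : ball z1 (r / 2) ∈ 𝓝 z1 := ball_mem_nhds _ (by linarith)
      filter_upwards [mem_nhdsWithin_of_mem_nhds h1, self_mem_nhdsWithin] with z hz hzz
      have h2 := hbd z hz hzz
      have h3 := (hrD' z (ball_subset_ball (by linarith) hz) hzz).2
      rw [norm_div, div_le_iff₀ (norm_pos_iff.2 h3)] at h2
      exact h2)
    have h1 : 0 < ‖(P j).eval z1 ^ q‖ := norm_pos_iff.2 (pow_ne_zero _ hj')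
    linarith
  · by_contra hcon
    push Not at hcon
    exact hne (pm_congr (hP z) (hP w) fun j k => hcon z w j k)

/-- **Algebraic discs in quasi-projective varieties.** -/
theorem pseudoQ {m : ℕ} {E : Set (MvPolynomial (Fin (n + 1)) ℂ)}
    (hE : ∀ F ∈ E, ∃ a, F.IsHomogeneous a) {Q : MvPolynomial (Fin (n + 1)) ℂ} {q : ℕ}
    (hQ : Q.IsHomogeneous q) {x : Fin (n + 1) → ℂ} {δ : ℝ} (hδ : 0 < δ)
    (hδ' : δ ≤ 1 / (2 * ((n : ℝ) + 1)))
    (hxQ : ∀ y : Fin (n + 1) → ℂ, y ≠ 0 → ‖pm y - pm x‖ ≤ δ → eval y Q ≠ 0)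
    (hZ : AwayQ E Q ((n + 1) * m) x δ) :
    ∃ ε > 0, ∃ C : ℝ, ∀ f, DAlg E m f → OffD Q f → ‖pm (f 0) - pm x‖ < ε → W f 0 ≤ C := by
  classical
  by_contra hcon
  push Not at hcon
  set A : ℝ := 24 * ((n : ℝ) + 1) ^ 2 with hAdef
  have hA : 0 < A := by positivity
  have hseq : ∀ i : ℕ, ∃ (f : ℂ → Fin (n + 1) → ℂ) (b : ℂ), DAlg E m f ∧ OffD Q f ∧
      ‖pm (f 0) - pm x‖ < 1 / ((i : ℝ) + 1) ∧ b ≠ 0 ∧ ‖b‖ < 1 / ((i : ℝ) + 1) ∧ ‖b‖ ≤ 1 / 2 ∧
      (∀ z, ‖z‖ < ‖b‖ → ‖pm (f z) - pm (f 0)‖ < δ) ∧ δ ≤ ‖pm (f b) - pm (f 0)‖ := by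
    intro i
    have hi0 : (0 : ℝ) < (i : ℝ) + 1 := by positivity
    obtain ⟨f, hf, hfQ, hfx, hW⟩ :=
      hcon (1 / ((i : ℝ) + 1)) (by positivity) (2 * A * ((i : ℝ) + 1))
    have hcont : ContinuousOn (fun z => ‖pm (f z) - pm (f 0)‖) (closedBall 0 (1 / 2)) := by
      refine ((pm_contOn (fun j => ((hf.1.diff j).continuousOn)) hf.1.ne).mono ?_).sub
        continuousOn_const |>.norm
      exact closedBall_subset_ball (by norm_num)
    let K : Set ℂ := closedBall 0 (1 / 2) ∩ (fun z => ‖pm (f z) - pm (f 0)‖) ⁻¹' Ici δ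
    have hKc : IsCompact K := by
      refine (isCompact_closedBall (0 : ℂ) (1 / 2)).of_isClosed_subset ?_ inter_subset_left
      exact hcont.preimage_isClosed_of_isClosed isClosed_closedBall isClosed_Ici
    have hKn : K.Nonempty := by
      by_contra hK
      rw [Set.not_nonempty_iff_eq_empty] at hK
      have h1 := loc_bd (f := f) (ρ := 1 / 2) (by norm_num)
        (fun j => (hf.1.diff j).mono (ball_subset_ball (by norm_num)))
        (fun z hz => hf.1.ne z (ball_subset_ball (by norm_num) hz)) (by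
          intro z hz
          have h2 : z ∉ K := by
            rw [hK]
            exact notMem_empty z
          have h3 : ‖pm (f z) - pm (f 0)‖ < δ := by
            by_contra h4
            push Not at h4
            exact h2 ⟨ball_subset_closedBall hz, h4⟩
          exact h3.le.trans hδ') 0 (mem_ball_self (by norm_num))
      rw [← hAdef] at h1
      have h2 : A / (1 / 2) = 2 * A := by ring
      rw [h2] at h1
      have h3 : 2 * A ≤ 2 * A * ((i : ℝ) + 1) := by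
        have : (0 : ℝ) ≤ i := Nat.cast_nonneg _
        nlinarith
      linarith
    obtain ⟨b, hbK, hbmin⟩ := hKc.exists_isMinOn hKn (continuous_norm.continuousOn)
    have hbK2 : δ ≤ ‖pm (f b) - pm (f 0)‖ := hbK.2
    have hb12 : ‖b‖ ≤ 1 / 2 := mem_closedBall_zero_iff.1 hbK.1
    have hb0 : b ≠ 0 := by
      rintro rfl
      rw [sub_self, norm_zero] at hbK2
      linarith
    have hbn : 0 < ‖b‖ := norm_pos_iff.2 hb0
    have hlt : ∀ z, ‖z‖ < ‖b‖ → ‖pm (f z) - pm (f 0)‖ < δ := by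
      intro z hz
      by_contra h4
      push Not at h4
      have h5 : z ∈ K := ⟨mem_closedBall_zero_iff.2 (by linarith), h4⟩
      have h6 : ‖b‖ ≤ ‖z‖ := hbmin h5
      linarith
    refine ⟨f, b, hf, hfQ, hfx, hb0, ?_, hb12, hlt, hbK2⟩
    have h1 := loc_bd (f := f) (ρ := ‖b‖) hbn
      (fun j => (hf.1.diff j).mono (ball_subset_ball (by linarith)))
      (fun z hz => hf.1.ne z (ball_subset_ball (by linarith) hz)) (fun z hz =>
        (hlt z (mem_ball_zero_iff.1 hz)).le.trans hδ') 0 (mem_ball_self (by linarith))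
    rw [← hAdef] at h1
    have h2 := hW.trans_le h1
    rw [lt_div_iff₀ hbn] at h2
    rw [lt_div_iff₀ hi0]
    have h3 : A * (2 * (‖b‖ * ((i : ℝ) + 1))) < A * 1 := by linarith
    have h4 := lt_of_mul_lt_mul_left h3 hA.le
    have h5 : 0 ≤ ‖b‖ * ((i : ℝ) + 1) := by positivity
    linarith
  choose f b hf hfQ hfx hb0 hb1 hb2 hlt hge using hseq
  obtain ⟨𝒰, h𝒰le⟩ : ∃ 𝒰 : Ultrafilter ℕ, (𝒰 : Filter ℕ) ≤ atTop :=
    ⟨Filter.hyperfilter ℕ, Nat.hyperfilter_le_atTop⟩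
  have htop : Tendsto (fun i : ℕ => (i : ℝ)) 𝒰 atTop := tendsto_natCast_atTop_atTop.mono_left h𝒰le
  have hbn : ∀ i, 0 < ‖b i‖ := fun i => norm_pos_iff.2 (hb0 i)
  -- the first rescaling
  let g : ℕ → ℂ → Fin (n + 1) → ℂ := fun i w => f i (0 + w * b i)
  let R : ℕ → ℝ := fun i => ‖b i‖⁻¹
  have hin : ∀ i, ∀ w ∈ ball (0 : ℂ) (R i), 0 + w * b i ∈ ball (0 : ℂ) 1 := by
    intro i w hw
    rw [mem_ball_zero_iff] at hw ⊢
    rw [zero_add, norm_mul]
    calc ‖w‖ * ‖b i‖ < ‖b i‖⁻¹ * ‖b i‖ := mul_lt_mul_of_pos_right hw (hbn i)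
      _ = 1 := inv_mul_cancel₀ (hbn i).ne'
  have hRi : ∀ i : ℕ, (i : ℝ) + 1 < R i := by
    intro i
    have h1 := hb1 i
    have h2 : (0 : ℝ) < (i : ℝ) + 1 := by positivity
    rw [lt_div_iff₀ h2] at h1
    change (i : ℝ) + 1 < ‖b i‖⁻¹
    rw [lt_inv_comm₀ h2 (hbn i), ← one_div, lt_div_iff₀ h2]
    exact h1
  have hRpos : ∀ i, 0 < R i := fun i => inv_pos.2 (hbn i)
  have hg : ASeq 𝒰 m R g := by
    refine ⟨fun M => ?_, fun i j => ?_, fun i z hz => (hf i).1.ne _ (hin i z hz), fun i j k => ?_⟩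
    · filter_upwards [htop.eventually_gt_atTop M] with i hi
      linarith [hRi i]
    · refine ((hf i).1.diff j).comp ?_ (hin i)
      exact (differentiableOn_const _).add (differentiableOn_id.mul (differentiableOn_const _))
    · refine ((hf i).2 j k).comp (s := b i) (t := 0) (u := 0) (v := 1)
        (φ := fun w => 0 + w * b i) (infinite_ball (hRpos i)) (hin i) (fun x _ y _ hxy => ?_)
        (fun w _ => by rw [zero_mul, zero_add]; exact one_ne_zero) fun w _ => by ring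
      exact mul_right_cancel₀ (hb0 i) (add_left_cancel hxy)
  have hgE : ∀ i, ∀ z ∈ ball (0 : ℂ) (R i), ∀ F ∈ E, eval (g i z) F = 0 := fun i z hz =>
    (hf i).1.mem _ (hin i z hz)
  have hgQ : ∀ i, ∀ z ∈ ball (0 : ℂ) (R i), eval (g i z) Q ≠ 0 := fun i z hz =>
    hfQ i _ (hin i z hz)
  have hg0e : ∀ i, g i 0 = f i 0 := fun i => by
    change f i (0 + 0 * b i) = f i 0
    rw [zero_mul, add_zero]
  have hg1e : ∀ i, g i 1 = f i (b i) := fun i => by
    change f i (0 + 1 * b i) = f i (b i)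
    rw [one_mul, zero_add]
  have hg0 : Tendsto (fun i => pm (g i 0)) 𝒰 (𝓝 (pm x)) := by
    rw [tendsto_iff_norm_sub_tendsto_zero]
    have h1 : Tendsto (fun i : ℕ => 1 / ((i : ℝ) + 1)) 𝒰 (𝓝 0) :=
      (tendsto_one_div_add_atTop_nhds_zero_nat (𝕜 := ℝ)).mono_left h𝒰le
    refine squeeze_zero (fun i => norm_nonneg _) (fun i => ?_) h1
    rw [hg0e]
    exact (hfx i).le
  have hgs : ∀ i, ∀ w : ℂ, ‖w‖ < 1 → ‖pm (g i w) - pm (g i 0)‖ < δ := by
    intro i w hw
    rw [hg0e]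
    refine hlt i _ ?_
    rw [zero_add, norm_mul]
    calc ‖w‖ * ‖b i‖ < 1 * ‖b i‖ := mul_lt_mul_of_pos_right hw (hbn i)
      _ = ‖b i‖ := one_mul _
  have hR1 : ∀ i, 1 ≤ R i := fun i => by
    have h1 := hRi i
    have h2 : (0 : ℝ) ≤ i := Nat.cast_nonneg _
    linarith
  obtain ⟨P, D, hD, hDd, hPd, hP, hlim⟩ := curve_gen hg
  -- the limit is constant
  have hPw : ∀ w : ℂ, D.eval w ≠ 0 → ‖w‖ < 1 → ‖pm (fun j => (P j).eval w) - pm x‖ ≤ δ := by
    intro w hw hw1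
    refine le_of_tendsto ((hlim (fun _ => w) w hw tendsto_const_nhds).sub hg0).norm ?_
    exact Filter.Eventually.of_forall fun i => (hgs i w hw1).le
  have hPc : ∀ z w, pm (fun j => (P j).eval z) = pm fun j => (P j).eval w := by
    obtain ⟨w, hw, hDw⟩ := exists_small hD one_pos
    exact dichQ hE hQ hg hgE hgQ hxQ hZ hD hPd hP hlim ⟨w, hPw w hDw (mem_ball_zero_iff.1 hw)⟩
  have hPlip : ∀ w : ℂ, D.eval w ≠ 0 → ‖w‖ < 1 / 2 →
      ‖pm (fun j => (P j).eval w) - pm x‖ ≤ 2 * ((n : ℝ) + 1) * A * ‖w‖ := by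
    intro w hw hw1
    refine le_of_tendsto ((hlim (fun _ => w) w hw tendsto_const_nhds).sub hg0).norm ?_
    refine Filter.Eventually.of_forall fun i => ?_
    have h1 := loc_bd (f := g i) (ρ := 1) one_pos
      (fun j => (hg.diff i j).mono (ball_subset_ball (hR1 i)))
      (fun z hz => hg.ne i z (ball_subset_ball (hR1 i) hz)) (fun z hz =>
        (hgs i z (mem_ball_zero_iff.1 hz)).le.trans hδ')
    rw [← hAdef, div_one] at h1
    have h12 : ball (0 : ℂ) (1 / 2) ⊆ ball (0 : ℂ) (R i) :=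
      ball_subset_ball ((by norm_num : (1 : ℝ) / 2 ≤ 1).trans (hR1 i))
    have h2 := pm_lip (f := g i) (U := ball 0 (1 / 2)) isOpen_ball (convex_ball 0 (1 / 2))
      (fun j => (hg.diff i j).mono h12) (fun z hz => hg.ne i z (h12 hz)) h1
      (mem_ball_self (by norm_num)) (mem_ball_zero_iff.2 hw1)
    rwa [sub_zero] at h2
  have hPx : ∀ z, pm (fun j => (P j).eval z) = pm x := by
    intro z
    by_contra hne
    have h1 : 0 < ‖pm (fun j => (P j).eval z) - pm x‖ := norm_pos_iff.2 (sub_ne_zero.2 hne)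
    set e : ℝ := ‖pm (fun j => (P j).eval z) - pm x‖ with he
    set L : ℝ := 2 * ((n : ℝ) + 1) * A with hL
    have hL0 : 0 < L := by positivity
    obtain ⟨w, hw, hDw⟩ := exists_small hD (r := min (1 / 2) (e / (2 * L))) (by positivity)
    rw [mem_ball_zero_iff, lt_min_iff] at hw
    have h2 := hPlip w hDw hw.1
    rw [hPc w z, ← he] at h2
    have h3 : L * ‖w‖ < L * (e / (2 * L)) := mul_lt_mul_of_pos_left hw.2 hL0
    have h4 : L * (e / (2 * L)) = e / 2 := by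
      field_simp
    linarith
  -- the second centre
  let g1 : ℕ → ℂ → Fin (n + 1) → ℂ := fun i w => g i (1 + w * 1)
  let R1 : ℕ → ℝ := fun i => R i - 1
  have hin1 : ∀ i, ∀ w ∈ ball (0 : ℂ) (R1 i), 1 + w * 1 ∈ ball (0 : ℂ) (R i) := by
    intro i w hw
    rw [mem_ball_zero_iff] at hw ⊢
    have h1 := norm_add_le (1 : ℂ) (w * 1)
    rw [norm_one, mul_one] at h1
    rw [mul_one]
    have h2 : ‖w‖ < R i - 1 := hw
    linarith
  have hR1pos : ∀ᶠ i in (𝒰 : Filter ℕ), 0 < R1 i := by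
    filter_upwards [hg.rad 1] with i hi
    change 0 < R i - 1
    linarith
  have hg1 : ASeq 𝒰 m R1 g1 := by
    refine ⟨fun M => ?_, fun i j => ?_, fun i z hz => hg.ne i _ (hin1 i z hz), fun i j k => ?_⟩
    · filter_upwards [hg.rad (M + 1)] with i hi
      change M < R i - 1
      linarith
    · refine (hg.diff i j).comp ?_ (hin1 i)
      exact (differentiableOn_const _).add (differentiableOn_id.mul (differentiableOn_const _))
    · have hpos : 0 < R1 i := by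
        change 0 < R i - 1
        have h1 := hRi i
        have h2 : 2 ≤ R i := by
          change 2 ≤ ‖b i‖⁻¹
          rw [le_inv_comm₀ two_pos (hbn i)]
          linarith [hb2 i]
        linarith
      refine (hg.alg i j k).comp (s := 1) (t := 1) (u := 0) (v := 1)
        (φ := fun w => 1 + w * 1) (infinite_ball hpos) (hin1 i) (fun x _ y _ hxy => ?_)
        (fun w _ => by rw [zero_mul, zero_add]; exact one_ne_zero) fun w _ => by ring
      exact mul_right_cancel₀ one_ne_zero (add_left_cancel hxy)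
  obtain ⟨Y, hY, hval⟩ := values (𝒰 := 𝒰) hg1.alg
  obtain ⟨η, hη, hηY⟩ := (Ioo_infinite hδ).exists_notMem_finite
    (hY.image fun v => ‖v - pm x‖)
  set s : ℕ := (n + 1) * (n + 1) * (m + m) with hs
  let ω : Fin (2 * s + 1) → ℂ := fun k => ((k : ℕ) : ℂ) + 1
  have hωn : ∀ k, ‖ω k‖ ≤ 2 * s + 1 := by
    intro k
    refine (norm_add_le _ _).trans ?_
    rw [norm_one, RCLike.norm_natCast]
    have h1 : ((k : ℕ) : ℝ) ≤ 2 * s := by
      have := k.2
      exact_mod_cast (by omega : (k : ℕ) ≤ 2 * s)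
    linarith
  have hωinj : Function.Injective ω := by
    intro k l h
    have h1 : ((k : ℕ) : ℂ) = ((l : ℕ) : ℂ) := add_right_cancel h
    exact Fin.ext (by exact_mod_cast h1)
  let d : ℕ → Fin (2 * s + 1) → ℝ → ℝ := fun i k ρ => ‖pm (g1 i ((ρ : ℂ) * ω k)) - pm x‖
  have hgood : ∀ᶠ i in (𝒰 : Filter ℕ), (∀ k, η < d i k 0) ∧ (∃ T : Finset (Fin (2 * s + 1)),
      T.card = s + 1 ∧ ∀ k ∈ T, d i k 1 ≤ η) ∧ 2 * (s : ℝ) + 1 < R1 i := by
    have e1 : ∀ᶠ i in (𝒰 : Filter ℕ), ∀ k, η < d i k 0 := by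
      have h1 : ∀ᶠ i in (𝒰 : Filter ℕ), ‖pm (g i 0) - pm x‖ < δ - η := by
        have h2 := (tendsto_iff_norm_sub_tendsto_zero.1 hg0).eventually
          (gt_mem_nhds (sub_pos.2 hη.2))
        exact h2
      filter_upwards [h1] with i hi k
      change η < ‖pm (g i (1 + ((0 : ℝ) : ℂ) * ω k * 1)) - pm x‖
      rw [Complex.ofReal_zero, zero_mul, zero_mul, add_zero, hg1e]
      have h2 := hge i
      have h3 : ‖pm (f i (b i)) - pm (f i 0)‖ ≤ ‖pm (f i (b i)) - pm x‖ +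
          ‖pm (g i 0) - pm x‖ := by
        rw [hg0e]
        have h4 : pm (f i (b i)) - pm (f i 0) = (pm (f i (b i)) - pm x) -
          (pm (f i 0) - pm x) := by abel
        rw [h4]
        exact norm_sub_le _ _
      linarith
    have e2 : ∀ᶠ i in (𝒰 : Filter ℕ), ∃ T : Finset (Fin (2 * s + 1)), T.card = s + 1 ∧
        ∀ k ∈ T, d i k 1 ≤ η := by
      let Tg : Finset (Fin (2 * s + 1)) := Finset.univ.filter fun k => D.eval (1 + ω k) ≠ 0
      have hTg : s + 1 ≤ Tg.card := by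
        by_contra hc
        have h2 : s + 1 ≤ (Tgᶜ).card := by
          rw [Finset.card_compl, Fintype.card_fin]
          omega
        obtain ⟨T, hT, hTc⟩ := Finset.exists_subset_card_eq h2
        obtain ⟨k, hk, h3⟩ := good_pt hD hDd (ψ := fun k => 1 + ω k)
          (fun k l h => hωinj (add_left_cancel h)) hTc
        exact (Finset.mem_compl.1 (hT hk)) (Finset.mem_filter.2 ⟨Finset.mem_univ _, h3⟩)
      obtain ⟨T, hT, hTc⟩ := Finset.exists_subset_card_eq hTg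
      have h1 : ∀ k ∈ T, ∀ᶠ i in (𝒰 : Filter ℕ), d i k 1 ≤ η := by
        intro k hk
        have h2 := (Finset.mem_filter.1 (hT hk)).2
        have h3 := hlim (fun _ => 1 + ω k) (1 + ω k) h2 tendsto_const_nhds
        rw [hPx] at h3
        have h4 := (tendsto_iff_norm_sub_tendsto_zero.1 h3).eventually (gt_mem_nhds hη.1)
        filter_upwards [h4] with i hi
        change ‖pm (g i (1 + ((1 : ℝ) : ℂ) * ω k * 1)) - pm x‖ ≤ η
        rw [Complex.ofReal_one, one_mul, mul_one]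
        exact hi.le
      have h2 := (Finset.eventually_all T).2 h1
      filter_upwards [h2] with i hi
      exact ⟨T, hTc, hi⟩
    filter_upwards [e1, e2, hg1.rad (2 * (s : ℝ) + 1)] with i h1 h2 h3
    exact ⟨h1, h2, h3⟩
  have hscale : ∀ i, ∃ (ρ : ℝ) (T T' : Finset (Fin (2 * s + 1))), 0 < ρ ∧ ρ ≤ 1 ∧
      (((∀ k, η < d i k 0) ∧ (∃ T : Finset (Fin (2 * s + 1)),
        T.card = s + 1 ∧ ∀ k ∈ T, d i k 1 ≤ η) ∧ 2 * (s : ℝ) + 1 < R1 i) →
        (T.card = s + 1 ∧ ∀ k ∈ T, η ≤ d i k ρ) ∧ (T'.card = s + 1 ∧ ∀ k ∈ T', d i k ρ ≤ η)) := by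
    intro i
    by_cases hi : (∀ k, η < d i k 0) ∧ (∃ T : Finset (Fin (2 * s + 1)),
        T.card = s + 1 ∧ ∀ k ∈ T, d i k 1 ≤ η) ∧ 2 * (s : ℝ) + 1 < R1 i
    · obtain ⟨h0, h1, h2⟩ := id hi
      have hmaps : ∀ k, ∀ ρ ∈ Icc (0 : ℝ) 1, (ρ : ℂ) * ω k ∈ ball (0 : ℂ) (R1 i) := by
        intro k ρ hρ
        rw [mem_ball_zero_iff, norm_mul, Complex.norm_real, Real.norm_of_nonneg hρ.1]
        calc ρ * ‖ω k‖ ≤ 1 * (2 * s + 1) := mul_le_mul hρ.2 (hωn k) (norm_nonneg _) zero_le_one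
          _ < R1 i := by rw [one_mul]; exact h2
      have hdc : ∀ k, ContinuousOn (d i k) (Icc 0 1) := by
        intro k
        have h3 := pm_contOn (f := g1 i) (fun j => (hg1.diff i j).continuousOn) (hg1.ne i)
        have h4 : ContinuousOn (fun ρ : ℝ => (ρ : ℂ) * ω k) (Icc 0 1) := by fun_prop
        exact ((h3.comp h4 (hmaps k)).sub continuousOn_const).norm
      obtain ⟨ρ, hρ, ⟨T, hT⟩, T', hT'⟩ := order_ivt (d i) hdc (fun k => (h0 k).le) h1
      refine ⟨ρ, T, T', lt_of_le_of_ne hρ.1 ?_, hρ.2, fun _ => ⟨hT, hT'⟩⟩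
      rintro rfl
      have h3 : T'.Nonempty := by
        rw [← Finset.card_pos, hT'.1]
        omega
      obtain ⟨k, hk⟩ := h3
      have h4 := hT'.2 k hk
      have h5 := h0 k
      linarith
    · exact ⟨1, ∅, ∅, one_pos, le_rfl, fun h => absurd h hi⟩
  choose ρ T T' hρ0 hρ1 hTT using hscale
  -- the second rescaling
  let h : ℕ → ℂ → Fin (n + 1) → ℂ := fun i w => g1 i (0 + w * (ρ i : ℂ))
  let R2 : ℕ → ℝ := fun i => R1 i / ρ i
  have hin2 : ∀ i, ∀ w ∈ ball (0 : ℂ) (R2 i), 0 + w * (ρ i : ℂ) ∈ ball (0 : ℂ) (R1 i) := by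
    intro i w hw
    rw [mem_ball_zero_iff] at hw ⊢
    rw [zero_add, norm_mul, Complex.norm_real, Real.norm_of_nonneg (hρ0 i).le]
    have h1 : ‖w‖ < R1 i / ρ i := hw
    rwa [lt_div_iff₀ (hρ0 i)] at h1
  have hR1p : ∀ i, 0 < R1 i := by
    intro i
    change 0 < R i - 1
    have h2 : 2 ≤ R i := by
      change 2 ≤ ‖b i‖⁻¹
      rw [le_inv_comm₀ two_pos (hbn i)]
      linarith [hb2 i]
    linarith
  have hh : ASeq 𝒰 m R2 h := by
    refine ⟨fun M => ?_, fun i j => ?_, fun i z hz => hg1.ne i _ (hin2 i z hz), fun i j k => ?_⟩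
    · filter_upwards [hg1.rad M] with i hi
      refine hi.trans_le ?_
      change R1 i ≤ R1 i / ρ i
      rw [le_div_iff₀ (hρ0 i)]
      have := hR1p i
      nlinarith [hρ1 i]
    · refine (hg1.diff i j).comp ?_ (hin2 i)
      exact (differentiableOn_const _).add (differentiableOn_id.mul (differentiableOn_const _))
    · refine (hg1.alg i j k).comp (s := (ρ i : ℂ)) (t := 0) (u := 0) (v := 1)
        (φ := fun w => 0 + w * (ρ i : ℂ)) (infinite_ball (div_pos (hR1p i) (hρ0 i))) (hin2 i)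
        (fun x _ y _ hxy => ?_)
        (fun w _ => by rw [zero_mul, zero_add]; exact one_ne_zero) fun w _ => by ring
      exact mul_right_cancel₀ (Complex.ofReal_ne_zero.2 (hρ0 i).ne') (add_left_cancel hxy)
  have hhE : ∀ i, ∀ z ∈ ball (0 : ℂ) (R2 i), ∀ F ∈ E, eval (h i z) F = 0 := fun i z hz =>
    hgE i _ (hin1 i _ (hin2 i z hz))
  have hhQ : ∀ i, ∀ z ∈ ball (0 : ℂ) (R2 i), eval (h i z) Q ≠ 0 := fun i z hz =>
    hgQ i _ (hin1 i _ (hin2 i z hz))
  obtain ⟨P', D', hD', hDd', hPd', hP', hlim'⟩ := curve_gen hh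
  have hdh : ∀ i k, d i k (ρ i) = ‖pm (h i (ω k)) - pm x‖ := by
    intro i k
    change ‖pm (g1 i ((ρ i : ℂ) * ω k)) - pm x‖ = ‖pm (g1 i (0 + ω k * (ρ i : ℂ))) - pm x‖
    rw [zero_add, mul_comm]
  obtain ⟨T0, hT0⟩ := ultra_fin (𝒰 := 𝒰) T
  obtain ⟨T0', hT0'⟩ := ultra_fin (𝒰 := 𝒰) T'
  have hev : ∀ᶠ i in (𝒰 : Filter ℕ), (T0.card = s + 1 ∧ ∀ k ∈ T0, η ≤ d i k (ρ i)) ∧
      (T0'.card = s + 1 ∧ ∀ k ∈ T0', d i k (ρ i) ≤ η) := by
    filter_upwards [hT0, hT0', hgood] with i h1 h2 h3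
    have h4 := hTT i h3
    rw [h1, h2] at h4
    exact h4
  obtain ⟨i0, hi0⟩ := hev.exists
  obtain ⟨k, hk, hDk⟩ := good_pt hD' hDd' hωinj hi0.1.1
  obtain ⟨k', hk', hDk'⟩ := good_pt hD' hDd' hωinj hi0.2.1
  have hkge : η ≤ ‖pm (fun j => (P' j).eval (ω k)) - pm x‖ := by
    refine ge_of_tendsto ((hlim' (fun _ => ω k) _ hDk tendsto_const_nhds).sub_const _).norm ?_
    filter_upwards [hev] with i hi
    have h1 := hi.1.2 k hk
    rwa [hdh] at h1
  have hkle : ‖pm (fun j => (P' j).eval (ω k')) - pm x‖ ≤ η := by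
    refine le_of_tendsto ((hlim' (fun _ => ω k') _ hDk' tendsto_const_nhds).sub_const _).norm ?_
    filter_upwards [hev] with i hi
    have h1 := hi.2.2 k' hk'
    rwa [hdh] at h1
  have hPc' : ∀ z w, pm (fun j => (P' j).eval z) = pm fun j => (P' j).eval w :=
    dichQ hE hQ hh hhE hhQ hxQ hZ hD' hPd' hP' hlim' ⟨ω k', hkle.trans hη.2.le⟩
  have hηe : ‖pm (fun j => (P' j).eval 0) - pm x‖ = η := by
    refine le_antisymm ?_ ?_
    · rw [hPc' 0 (ω k')]
      exact hkle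
    · rw [hPc' 0 (ω k)]
      exact hkge
  apply hηY
  refine ⟨pm fun j => (P' j).eval 0, ?_, hηe⟩
  refine hval ρ hρ0 D' hD' _ (hP' 0) fun z hz => ⟨?_, ?_⟩
  · filter_upwards [hh.ev (ζ := fun _ => z) tendsto_const_nhds] with i hi
    have h1 := hin2 i z hi
    rwa [zero_add, mul_comm] at h1
  · obtain ⟨y', hy', hyt, hyp⟩ := hh.vec (ζ := fun _ => z) tendsto_const_nhds
    refine ⟨fun i => ((‖h i z‖⁻¹ : ℝ) : ℂ), y', hy', ?_, fun j => ?_⟩
    · have h1 := tendsto_nhds_unique hyp (hlim' (fun _ => z) z hz tendsto_const_nhds)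
      rw [h1, hPc' z 0]
    · refine (hyt j).congr fun i => ?_
      change _ * g1 i (0 + z * (ρ i : ℂ)) j = _ * g1 i ((ρ i : ℂ) * z) j
      rw [zero_add, mul_comm z]

end Pool.Agent.V1153.KB
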