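import Pool.Agent.V1153.PK.FinQ

/-!
The Kobayashi pseudodistance modulo a closed subset.
-/

set_option autoImplicit false

namespace Pool.Agent.V1153.KB

open Filter Topology Set Metric MvPolynomial ComplexConjugate
open Pool.Agent.V1153.UG Pool.Agent.V1153.UR
open scoped ENNReal

variable {n : ℕ}

/-- the discs with values near `x` -/
theorem loc_lip {E : Set (MvPolynomial (Fin (n + 1)) ℂ)} {Q : MvPolynomial (Fin (n + 1)) ℂ}
    {m : ℕ} {x : Fin (n + 1) → ℂ} {ε C : ℝ} (hε : 0 < ε)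
    (hC : ∀ f, DAlg E m f → OffD Q f → ‖pm (f 0) - pm x‖ < ε → W f 0 ≤ C) :
    ∃ c0 > 0, ∃ K > 0, ∀ f, DAlg E m f → OffD Q f → ∀ a b : ℂ, ‖a‖ < 1 → ‖b‖ < 1 →
      ‖pm (f a) - pm x‖ ≤ ε / 2 → psh a b < c0 → ‖pm (f b) - pm (f a)‖ ≤ K * psh a b := by
  set C' : ℝ := max C 0 with hC'
  have hC0 : 0 ≤ C' := le_max_right _ _
  set K : ℝ := 4 * (n + 1) * C' + 1 with hK
  have hK0 : 0 < K := by positivity
  set c0 : ℝ := min (1 / 2) (ε / (2 * K)) with hc0
  have hc0p : 0 < c0 := by positivity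
  refine ⟨c0, hc0p, K, hK0, fun f hf hQ a b ha hb hax hab => ?_⟩
  -- the derivative of the recentred disc
  have h2 : ∀ g, DAlg E m g → OffD Q g → ∀ z ∈ ball (0 : ℂ) (1 / 2), ‖pm (g z) - pm x‖ < ε →
      W g z ≤ 2 * C' := by
    intro f hf hQ z hz hzx
    rw [mem_ball_zero_iff] at hz
    have hin : ∀ w ∈ ball (0 : ℂ) 1, z + w * (1 / 2) ∈ ball (0 : ℂ) 1 := by
      intro w hw
      rw [mem_ball_zero_iff] at hw ⊢
      refine (norm_add_le _ _).trans_lt ?_
      rw [norm_mul, norm_div, norm_one, Complex.norm_two]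
      linarith
    have h3 : DAlg E m fun w => f (z + w * (1 / 2)) := by
      refine ⟨⟨fun j => ?_, fun w hw => hf.1.ne _ (hin w hw), fun w hw => hf.1.mem _ (hin w hw)⟩,
        fun j k => ?_⟩
      · refine (hf.1.diff j).comp ?_ hin
        exact (differentiableOn_const _).add (differentiableOn_id.mul (differentiableOn_const _))
      · refine (hf.2 j k).comp (s := 1 / 2) (t := z) (u := 0) (v := 1)
          (φ := fun w => z + w * (1 / 2)) (infinite_ball one_pos) hin (fun x _ y _ hxy => ?_)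
          (fun w _ => by rw [zero_mul, zero_add]; exact one_ne_zero) fun w _ => by ring
        have h4 : x * (1 / 2) = y * (1 / 2) := add_left_cancel hxy
        exact mul_right_cancel₀ (by norm_num) h4
    have h4 := (hC _ h3 (fun w hw => hQ _ (hin w hw)) (by
      simp only [zero_mul, add_zero]
      exact hzx)).trans (le_max_left C 0)
    rw [W_affine (fun j => (hf.1.diff j).differentiableAt (isOpen_ball.mem_nhds
      (hin 0 (mem_ball_self one_pos))))] at h4
    rw [zero_mul, add_zero, norm_div, norm_one, Complex.norm_two] at h4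
    linarith
  set t : ℂ := (b - a) / (1 - conj a * b) with ht
  have htp : psh a b = ‖t‖ := rfl
  have ht1 : ‖t‖ < 1 := psh_lt ha hb
  set g : ℂ → Fin (n + 1) → ℂ := fun w => f ((w + a) / (1 + conj a * w)) with hgdef
  have hg : DAlg E m g := hf.mob ha
  have hgQ : OffD Q g := fun w hw => hQ _ (mem_ball_zero_iff.2 (mob_lt ha (mem_ball_zero_iff.1 hw)))
  have hden : 1 - conj a * b ≠ 0 := by
    have := den_ne (a := -a) (w := b) (by rwa [norm_neg]) hb
    rwa [map_neg, neg_mul, ← sub_eq_add_neg] at this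
  have hga : g 0 = f a := by
    rw [hgdef]
    simp only
    rw [zero_add, mul_zero, add_zero, div_one]
  have hgb : g t = f b := by
    rw [hgdef]
    simp only
    congr 1
    have hden2 := den_ne ha ht1
    have htd : t * (1 - conj a * b) = b - a := div_mul_cancel₀ _ hden
    rw [div_eq_iff hden2]
    linear_combination htd
  rw [htp] at hab ⊢
  rw [← hga] at hax ⊢
  rw [← hgb]
  have hlipr : ∀ r : ℝ, r ≤ 1 / 2 → (∀ w ∈ ball (0 : ℂ) r, ‖pm (g w) - pm x‖ < ε) →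
      ∀ w ∈ ball (0 : ℂ) r, ‖pm (g w) - pm (g 0)‖ ≤ 4 * (n + 1) * C' * ‖w‖ := by
    intro r hr h w hw
    have hr0 : 0 < r := by
      rw [mem_ball_zero_iff] at hw
      exact (norm_nonneg w).trans_lt hw
    have h5 := pm_lip (f := g) (U := ball 0 r) isOpen_ball (convex_ball 0 r)
      (fun j => (hg.1.diff j).mono (ball_subset_ball (by linarith)))
      (fun z hz => hg.1.ne z (ball_subset_ball (by linarith) hz))
      (fun z hz => h2 g hg hgQ z (ball_subset_ball hr hz) (h z hz))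
      (mem_ball_self hr0) hw
    rw [sub_zero] at h5
    refine h5.trans (le_of_eq ?_)
    ring
  -- the disc stays near `x`
  have hstay : ∀ w ∈ ball (0 : ℂ) c0, ‖pm (g w) - pm x‖ < ε := by
    by_contra hcon
    push Not at hcon
    obtain ⟨w0, hw0, hw0x⟩ := hcon
    rw [mem_ball_zero_iff] at hw0
    have hcont : ContinuousOn (fun z => ‖pm (g z) - pm x‖) (closedBall 0 ‖w0‖) := by
      refine (((pm_contOn (fun j => ((hg.1.diff j).continuousOn)) hg.1.ne).mono ?_).sub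
        continuousOn_const).norm
      refine closedBall_subset_ball (hw0.trans_le ((min_le_left _ _).trans (by norm_num)))
    let S : Set ℂ := closedBall 0 ‖w0‖ ∩ (fun z => ‖pm (g z) - pm x‖) ⁻¹' Ici ε
    have hSc : IsCompact S := by
      refine (isCompact_closedBall (0 : ℂ) ‖w0‖).of_isClosed_subset ?_ inter_subset_left
      exact hcont.preimage_isClosed_of_isClosed isClosed_closedBall isClosed_Ici
    obtain ⟨v, hvS, hvmin⟩ := hSc.exists_isMinOn ⟨w0, mem_closedBall_zero_iff.2 le_rfl, hw0x⟩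
      (continuous_norm.continuousOn)
    have hvx : ε ≤ ‖pm (g v) - pm x‖ := hvS.2
    have hvn : ‖v‖ < c0 := (mem_closedBall_zero_iff.1 hvS.1).trans_lt hw0
    have hv1 : ‖v‖ < 1 := hvn.trans_le ((min_le_left _ _).trans (by norm_num))
    have hlt : ∀ w ∈ ball (0 : ℂ) ‖v‖, ‖pm (g w) - pm x‖ < ε := by
      intro w hw
      rw [mem_ball_zero_iff] at hw
      by_contra h4
      push Not at h4
      have h5 : w ∈ S := ⟨mem_closedBall_zero_iff.2
        (hw.le.trans (mem_closedBall_zero_iff.1 hvS.1)), h4⟩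
      have h6 : ‖v‖ ≤ ‖w‖ := hvmin h5
      linarith
    have hl := hlipr ‖v‖ (hvn.le.trans (min_le_left _ _)) hlt
    have hv0 : v ≠ 0 := by
      rintro rfl
      linarith
    -- the limit along the radius
    have h7 : Tendsto (fun τ : ℝ => ‖pm (g ((τ : ℂ) * v)) - pm (g 0)‖) (𝓝[<] 1)
        (𝓝 ‖pm (g v) - pm (g 0)‖) := by
      have h8 : ContinuousAt (fun z => ‖pm (g z) - pm (g 0)‖) v := by
        refine ContinuousAt.norm (ContinuousAt.sub ?_ continuousAt_const)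
        exact (pm_contOn (fun j => ((hg.1.diff j).continuousOn)) hg.1.ne).continuousAt
          (isOpen_ball.mem_nhds (mem_ball_zero_iff.2 hv1))
      have h9 : Tendsto (fun τ : ℝ => (τ : ℂ) * v) (𝓝[<] 1) (𝓝 v) := by
        have h10 : Tendsto (fun τ : ℝ => (τ : ℂ) * v) (𝓝 1) (𝓝 (((1 : ℝ) : ℂ) * v)) :=
          Continuous.tendsto (by fun_prop) 1
        rw [Complex.ofReal_one, one_mul] at h10
        exact h10.mono_left nhdsWithin_le_nhds
      exact h8.tendsto.comp h9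
    have h8 : ‖pm (g v) - pm (g 0)‖ ≤ 4 * (n + 1) * C' * ‖v‖ := by
      refine le_of_tendsto h7 ?_
      filter_upwards [Ioo_mem_nhdsLT (zero_lt_one (α := ℝ))] with τ hτ
      have h9 : ‖(τ : ℂ) * v‖ = τ * ‖v‖ := by
        rw [norm_mul, Complex.norm_real, Real.norm_of_nonneg hτ.1.le]
      have hvp : 0 < ‖v‖ := norm_pos_iff.2 hv0
      have h10 := hl ((τ : ℂ) * v) (by
        rw [mem_ball_zero_iff, h9]
        nlinarith [hτ.2])
      refine h10.trans ?_
      rw [h9]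
      have h11 : τ * ‖v‖ ≤ ‖v‖ := by nlinarith [hτ.2]
      exact mul_le_mul_of_nonneg_left h11 (by positivity)
    have h9 : 4 * (n + 1) * C' * ‖v‖ ≤ K * ‖v‖ := by
      rw [hK]
      nlinarith [norm_nonneg v]
    have h10 : K * ‖v‖ < K * (ε / (2 * K)) :=
      mul_lt_mul_of_pos_left (hvn.trans_le (min_le_right _ _)) hK0
    have h11 : K * (ε / (2 * K)) = ε / 2 := by
      field_simp
    have h12 : ‖pm (g v) - pm x‖ ≤ ‖pm (g v) - pm (g 0)‖ + ‖pm (g 0) - pm x‖ := by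
      have h13 : pm (g v) - pm x = (pm (g v) - pm (g 0)) + (pm (g 0) - pm x) := by abel
      rw [h13]
      exact norm_add_le _ _
    linarith
  have h5 := hlipr c0 (min_le_left _ _) hstay t (mem_ball_zero_iff.2 hab)
  refine h5.trans ?_
  rw [hK]
  nlinarith [norm_nonneg t]

theorem chain_loc {𝒟 : (ℂ → Fin (n + 1) → ℂ) → Prop} {x : Fin (n + 1) → ℂ} {ε c0 K : ℝ}
    (hK : 0 < K) (hne : ∀ f, 𝒟 f → ∀ z ∈ ball (0 : ℂ) 1, f z ≠ 0)
    (hloc : ∀ f, 𝒟 f → ∀ a b : ℂ, ‖a‖ < 1 → ‖b‖ < 1 → ‖pm (f a) - pm x‖ ≤ ε / 2 → psh a b < c0 →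
      ‖pm (f b) - pm (f a)‖ ≤ K * psh a b) {u y : Fin (n + 1) → ℂ} {ℓ : ℝ}
    (hc : Chain 𝒟 u y ℓ) (hu : u ≠ 0) (hy : y ≠ 0) (hℓ : ℓ < c0)
    (hux : ‖pm u - pm x‖ + K * ℓ ≤ ε / 2) : ‖pm u - pm y‖ ≤ K * ℓ := by
  induction hc with
  | nil h1 => rw [pm_congr hu hy h1, sub_self, norm_zero, mul_zero]
  | @cons u y f a b ℓ h1 h2 h3 h4 h5 ih =>
    have hfa : f a ≠ 0 := hne f h1 a (mem_ball_zero_iff.2 h2)
    have hfb : f b ≠ 0 := hne f h1 b (mem_ball_zero_iff.2 h3)
    have hℓ0 := chain_nonneg h5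
    have hp0 := poin_nonneg h2 h3
    have hpp := psh_le_poin h2 h3
    have h6 := pm_congr hu hfa h4
    rw [h6] at hux ⊢
    have h7 := hloc f h1 a b h2 h3 (by nlinarith) (by linarith)
    have h8 : K * psh a b ≤ K * poin a b := mul_le_mul_of_nonneg_left hpp hK.le
    have h9 : ‖pm (f b) - pm x‖ ≤ ‖pm (f b) - pm (f a)‖ + ‖pm (f a) - pm x‖ := by
      have h10 : pm (f b) - pm x = (pm (f b) - pm (f a)) + (pm (f a) - pm x) := by abel
      rw [h10]
      exact norm_add_le _ _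
    have h10 := ih hfb hy (by linarith) (by linarith)
    have h11 : ‖pm (f a) - pm y‖ ≤ ‖pm (f b) - pm (f a)‖ + ‖pm (f b) - pm y‖ := by
      have h12 : pm (f a) - pm y = -(pm (f b) - pm (f a)) + (pm (f b) - pm y) := by abel
      rw [h12]
      refine (norm_add_le _ _).trans ?_
      rw [norm_neg]
    rw [mul_add]
    linarith

/-- positivity of the pseudodistance -/
theorem kob_pos_off {m : ℕ} {E : Set (MvPolynomial (Fin (n + 1)) ℂ)}
    (hE : ∀ F ∈ E, ∃ a, F.IsHomogeneous a) {Q : MvPolynomial (Fin (n + 1)) ℂ} {q : ℕ}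
    (hQ : Q.IsHomogeneous q) {G : MvPolynomial (Fin (n + 1)) ℂ} {γ : ℕ} (hG : G.IsHomogeneous γ)
    (hv : ∀ P, LineC E Q ((n + 1) * m) P → ∀ t, eval (fun j => (P j).eval t) G = 0)
    {𝒟 : (ℂ → Fin (n + 1) → ℂ) → Prop}
    (h𝒟 : ∀ f, 𝒟 f → RDisc E 1 f ∧ ∀ a ∈ ball (0 : ℂ) 1, eval (f a) G ≠ 0 → DAlgQ E Q m f)
    {x y : Fin (n + 1) → ℂ} (hx : x ≠ 0) (hy : y ≠ 0) (hxQ : eval x Q ≠ 0)
    (hxG : eval x G ≠ 0) (hxy : ¬ Same x y) : 0 < kob 𝒟 x y := by
  obtain ⟨δ, hδ, hδ', hnb⟩ := nbhd_ne (hQ.mul hG) hx (by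
    rw [map_mul]
    exact mul_ne_zero hxQ hxG)
  obtain ⟨ε0, hε0, C, hC⟩ := pseudoQ hE hQ hδ hδ' (fun y hy h => by
    have h1 := hnb y hy h
    rw [map_mul] at h1
    exact left_ne_zero_of_mul h1) fun P hP z => by
    by_contra h
    have h1 := hnb _ (hP.ne z) (not_lt.1 h)
    rw [map_mul] at h1
    exact right_ne_zero_of_mul h1 (hv P hP z)
  set ε : ℝ := min ε0 δ with hεdef
  have hε : 0 < ε := lt_min hε0 hδ
  obtain ⟨c0, hc0, K, hK, hloc⟩ := loc_lip (m := m) (E := E) (Q := Q) (C := C) hε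
    fun f hf hfQ hfx => hC f hf hfQ (hfx.trans_le (min_le_left _ _))
  have hloc' : ∀ f, 𝒟 f → ∀ a b : ℂ, ‖a‖ < 1 → ‖b‖ < 1 → ‖pm (f a) - pm x‖ ≤ ε / 2 →
      psh a b < c0 → ‖pm (f b) - pm (f a)‖ ≤ K * psh a b := by
    intro f hf a b ha hb hax hab
    have hfa : f a ≠ 0 := (h𝒟 f hf).1.ne a (mem_ball_zero_iff.2 ha)
    have h1 := hnb (f a) hfa (by
      have h2 := min_le_right ε0 δ
      linarith)
    rw [map_mul] at h1
    have h2 := (h𝒟 f hf).2 a (mem_ball_zero_iff.2 ha) (right_ne_zero_of_mul h1)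
    exact hloc f h2.1 h2.2 a b ha hb hax hab
  have h1 : 0 < ‖pm x - pm y‖ := by
    rw [norm_pos_iff, sub_ne_zero]
    intro h2
    exact hxy fun j k => pm_inj hx hy h2 j k
  have h2 : (0 : ℝ≥0∞) < ENNReal.ofReal (min (min c0 (ε / (2 * K))) (‖pm x - pm y‖ / K)) :=
    ENNReal.ofReal_pos.2 (lt_min (lt_min hc0 (by positivity)) (div_pos h1 hK))
  refine lt_of_lt_of_le h2 (le_iInf₂ fun ℓ hℓ => ENNReal.ofReal_le_ofReal ?_)
  by_contra hcon
  push Not at hcon
  rw [lt_min_iff, lt_min_iff] at hcon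
  obtain ⟨⟨h3, h4⟩, h5⟩ := hcon
  have h6 : K * ℓ < ε / 2 := by
    have h7 : K * ℓ < K * (ε / (2 * K)) := mul_lt_mul_of_pos_left h4 hK
    have h8 : K * (ε / (2 * K)) = ε / 2 := by field_simp
    linarith
  have h7 := chain_loc hK (fun f hf => (h𝒟 f hf).1.ne) hloc' hℓ hx hy h3 (by
    rw [sub_self, norm_zero, zero_add]
    exact h6.le)
  rw [lt_div_iff₀ hK] at h5
  linarith

/-- entire curves -/
theorem kob_ent {𝒟 : (ℂ → Fin (n + 1) → ℂ) → Prop} {h : ℂ → Fin (n + 1) → ℂ} {s t : ℂ}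
    (h𝒟 : ∀ c : ℂ, 𝒟 fun z => h (s + z * c)) : kob 𝒟 (h s) (h t) = 0 := by
  have h2 : ∀ x : ℝ, x ∈ Ioo (0 : ℝ) 1 → kob 𝒟 (h s) (h t) ≤
      ENNReal.ofReal (Real.log ((1 + x) / (1 - x))) := by
    intro x hx
    have hx0 : (x : ℂ) ≠ 0 := Complex.ofReal_ne_zero.2 hx.1.ne'
    have hnx : ‖(x : ℂ)‖ = x := by rw [Complex.norm_real, Real.norm_of_nonneg hx.1.le]
    have h3 : poin 0 (x : ℂ) = Real.log ((1 + x) / (1 - x)) := by
      unfold poin psh
      rw [map_zero, zero_mul, sub_zero, sub_zero, div_one, hnx]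
    have h4 : Chain 𝒟 (h s) (h t) (poin 0 (x : ℂ) + 0) := by
      refine Chain.cons (h𝒟 ((t - s) / x)) (by rw [norm_zero]; exact one_pos)
        (by rw [hnx]; exact hx.2) ?_ (Chain.nil ?_)
      · intro j k
        rw [zero_mul, add_zero]
        ring
      · intro j k
        have h5 : s + (x : ℂ) * ((t - s) / x) = t := by
          field_simp
          ring
        rw [h5]
        ring
    rw [add_zero, h3] at h4
    exact iInf₂_le _ h4
  have h3 : Tendsto (fun x : ℝ => ENNReal.ofReal (Real.log ((1 + x) / (1 - x)))) (𝓝[>] 0)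
      (𝓝 0) := by
    have h4 : ContinuousAt (fun x : ℝ => Real.log ((1 + x) / (1 - x))) 0 := by
      refine ContinuousAt.log ?_ (by norm_num)
      exact (continuousAt_const.add continuousAt_id).div (continuousAt_const.sub continuousAt_id)
        (by norm_num)
    have h5 := (ENNReal.continuous_ofReal.tendsto _).comp h4.tendsto
    simp only [add_zero, sub_zero, div_one, Real.log_one, ENNReal.ofReal_zero] at h5
    exact h5.mono_left nhdsWithin_le_nhds
  refine le_antisymm (ge_of_tendsto h3 ?_) bot_le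
  filter_upwards [Ioo_mem_nhdsGT (zero_lt_one (α := ℝ))] with x hx
  exact h2 x hx

end Pool.Agent.V1153.KB
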