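import Pool.Agent.V1153.PK.Gen

/-!
Quasi-normality of algebraic curves of bounded degree.
-/

set_option autoImplicit false

namespace Pool.Agent.V1153.KB

open Filter Topology Set Metric MvPolynomial
open Pool.Agent.V1153.UG

variable {n : ℕ}

/-- a sequence of algebraic maps on growing discs -/
structure ASeq (𝒰 : Ultrafilter ℕ) (m : ℕ) (R : ℕ → ℝ) (g : ℕ → ℂ → Fin (n + 1) → ℂ) : Prop where
  rad : ∀ M : ℝ, ∀ᶠ i in (𝒰 : Filter ℕ), M < R i
  diff : ∀ i j, DifferentiableOn ℂ (fun z => g i z j) (ball 0 (R i))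
  ne : ∀ i, ∀ z ∈ ball (0 : ℂ) (R i), g i z ≠ 0
  alg : ∀ i, AlgM m (R i) (g i)

theorem ASeq.ev {𝒰 : Ultrafilter ℕ} {m : ℕ} {R : ℕ → ℝ} {g : ℕ → ℂ → Fin (n + 1) → ℂ}
    (hg : ASeq 𝒰 m R g) {ζ : ℕ → ℂ} {z : ℂ} (hζ : Tendsto ζ 𝒰 (𝓝 z)) :
    ∀ᶠ i in (𝒰 : Filter ℕ), ζ i ∈ ball (0 : ℂ) (R i) := by
  filter_upwards [hg.rad (‖z‖ + 1), hζ.norm.eventually (gt_mem_nhds (lt_add_one ‖z‖))]
    with i h1 h2
  rw [mem_ball_zero_iff]
  linarith

/-- limits of the normalized vectors -/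
theorem ASeq.vec {𝒰 : Ultrafilter ℕ} {m : ℕ} {R : ℕ → ℝ} {g : ℕ → ℂ → Fin (n + 1) → ℂ}
    (hg : ASeq 𝒰 m R g) {ζ : ℕ → ℂ} {z : ℂ} (hζ : Tendsto ζ 𝒰 (𝓝 z)) :
    ∃ y : Fin (n + 1) → ℂ, y ≠ 0 ∧ (∀ j, Tendsto (fun i =>
        ((‖g i (ζ i)‖⁻¹ : ℝ) : ℂ) * g i (ζ i) j) 𝒰 (𝓝 (y j))) ∧
        Tendsto (fun i => pm (g i (ζ i))) 𝒰 (𝓝 (pm y)) := by
  have hnorm : ∀ᶠ i in (𝒰 : Filter ℕ),
      ‖fun j => ((‖g i (ζ i)‖⁻¹ : ℝ) : ℂ) * g i (ζ i) j‖ = 1 := by
    filter_upwards [hg.ev hζ] with i hi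
    have h1 : (fun j => ((‖g i (ζ i)‖⁻¹ : ℝ) : ℂ) * g i (ζ i) j) =
        ((‖g i (ζ i)‖⁻¹ : ℝ) : ℂ) • g i (ζ i) := by
      funext j
      rfl
    rw [h1, norm_smul, Complex.norm_real, Real.norm_of_nonneg (inv_nonneg.2 (norm_nonneg _)),
      inv_mul_cancel₀ (norm_ne_zero_iff.2 (hg.ne i _ hi))]
  obtain ⟨y, hy⟩ := ultra_lim (𝒰 := 𝒰) (a := fun i j => ((‖g i (ζ i)‖⁻¹ : ℝ) : ℂ) * g i (ζ i) j)
    (C := 1) (hnorm.mono fun i hi => hi.le)
  have hy1 : ‖y‖ = 1 := by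
    refine tendsto_nhds_unique hy.norm ?_
    exact tendsto_const_nhds.congr' (hnorm.mono fun i hi => hi.symm)
  have hy0 : y ≠ 0 := by
    intro h0
    rw [h0, norm_zero] at hy1
    exact zero_ne_one hy1
  refine ⟨y, hy0, fun j => (tendsto_pi_nhds.1 hy) j, ?_⟩
  refine (pm_tendsto hy0 hy).congr' ?_
  filter_upwards [hg.ev hζ] with i hi
  exact pm_smul (Complex.ofReal_ne_zero.2 (inv_ne_zero (norm_ne_zero_iff.2 (hg.ne i _ hi))))
    (hg.ne i _ hi)

/-- a nonzero polynomial -/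
noncomputable def nz (p : Polynomial ℂ) : Polynomial ℂ := by
  classical
  exact if p = 0 then 1 else p

theorem nz_ne (p : Polynomial ℂ) : nz p ≠ 0 := by
  unfold nz
  split_ifs with h
  · exact one_ne_zero
  · exact h

theorem nz_deg {p : Polynomial ℂ} {m : ℕ} (h : p.natDegree ≤ m) : (nz p).natDegree ≤ m := by
  unfold nz
  split_ifs with h0
  · rw [Polynomial.natDegree_one]
    exact Nat.zero_le _
  · exact h

theorem nz_eval {p : Polynomial ℂ} {z : ℂ} (hp : p ≠ 0) (h : (nz p).eval z ≠ 0) :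
    p.eval z ≠ 0 := by
  unfold nz at h
  rwa [if_neg hp] at h

/-- **Quasi-normality.** -/
theorem curve_gen {𝒰 : Ultrafilter ℕ} {m : ℕ} {R : ℕ → ℝ} {g : ℕ → ℂ → Fin (n + 1) → ℂ}
    (hg : ASeq 𝒰 m R g) :
    ∃ (P : Fin (n + 1) → Polynomial ℂ) (D : Polynomial ℂ), D ≠ 0 ∧
      D.natDegree ≤ (n + 1) * (n + 1) * (m + m) ∧
      (∀ j, (P j).natDegree ≤ (n + 1) * m) ∧ (∀ z, (fun j => (P j).eval z) ≠ 0) ∧
      ∀ (ζ : ℕ → ℂ) (z : ℂ), D.eval z ≠ 0 → Tendsto ζ 𝒰 (𝓝 z) →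
        Tendsto (fun i => pm (g i (ζ i))) 𝒰 (𝓝 (pm fun j => (P j).eval z)) := by
  classical
  have hpair := fun p : Fin (n + 1) × Fin (n + 1) =>
    lim_gen hg.rad (fun i => hg.diff i p.1) (fun i => hg.diff i p.2) fun i => hg.alg i p.1 p.2
  choose B H hBH hBd hHd hpt using hpair
  let D : Polynomial ℂ := ∏ p, nz (B p) * nz (H p)
  have hD : D ≠ 0 := Finset.prod_ne_zero_iff.2 fun p _ => mul_ne_zero (nz_ne _) (nz_ne _)
  have hDd : D.natDegree ≤ (n + 1) * (n + 1) * (m + m) := by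
    refine (Polynomial.natDegree_prod_le _ _).trans ?_
    refine (Finset.sum_le_card_nsmul _ _ (m + m) fun p _ => ?_).trans ?_
    · exact Polynomial.natDegree_mul_le.trans (Nat.add_le_add (nz_deg (hBd p)) (nz_deg (hHd p)))
    · rw [Finset.card_univ, Fintype.card_prod, Fintype.card_fin, smul_eq_mul]
  have hDB : ∀ z, D.eval z ≠ 0 → ∀ p, (B p ≠ 0 → (B p).eval z ≠ 0) ∧
      (H p ≠ 0 → (H p).eval z ≠ 0) := by
    intro z hz p
    have h1 : (nz (B p) * nz (H p)).eval z ≠ 0 := by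
      intro h0
      apply hz
      rw [Polynomial.eval_prod]
      exact Finset.prod_eq_zero (Finset.mem_univ p) h0
    rw [Polynomial.eval_mul] at h1
    exact ⟨fun h => nz_eval h (left_ne_zero_of_mul h1),
      fun h => nz_eval h (right_ne_zero_of_mul h1)⟩
  obtain ⟨z0, hz0⟩ := poly_ne hD
  obtain ⟨y0, hy0, hy0t, -⟩ := hg.vec (ζ := fun _ => z0) tendsto_const_nhds
  obtain ⟨k, hk⟩ := Function.ne_iff.1 hy0
  have hk' : y0 k ≠ 0 := hk
  have hBk : ∀ j, B (j, k) ≠ 0 := by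
    intro j h0
    have h1 : H (j, k) ≠ 0 := (hBH (j, k)).resolve_left fun h => h h0
    have h2 := hpt (j, k) (fun _ => z0) z0 tendsto_const_nhds _ _ _ (hy0t j) (hy0t k)
    rw [h0, Polynomial.eval_zero, zero_mul] at h2
    exact mul_ne_zero ((hDB z0 hz0 (j, k)).2 h1) hk' h2.symm
  let P : Fin (n + 1) → Polynomial ℂ := fun j =>
    H (j, k) * ∏ l ∈ Finset.univ.erase j, B (l, k)
  let Bt : Polynomial ℂ := ∏ l, B (l, k)
  have hPdeg : ∀ j, (P j).natDegree ≤ (n + 1) * m := by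
    intro j
    refine Polynomial.natDegree_mul_le.trans ?_
    have h1 : (∏ l ∈ Finset.univ.erase j, B (l, k)).natDegree ≤ n * m := by
      refine (Polynomial.natDegree_prod_le _ _).trans ?_
      refine (Finset.sum_le_card_nsmul _ _ m fun l _ => hBd (l, k)).trans ?_
      rw [Finset.card_erase_of_mem (Finset.mem_univ j), Finset.card_univ, Fintype.card_fin,
        smul_eq_mul, Nat.add_sub_cancel]
    have h2 := hHd (j, k)
    have h3 : (n + 1) * m = m + n * m := by ring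
    omega
  have hrel : ∀ (ζ : ℕ → ℂ) (z : ℂ), Tendsto ζ 𝒰 (𝓝 z) → ∀ y : Fin (n + 1) → ℂ,
      (∀ j, Tendsto (fun i => ((‖g i (ζ i)‖⁻¹ : ℝ) : ℂ) * g i (ζ i) j) 𝒰 (𝓝 (y j))) →
      ∀ j, Bt.eval z * y j = (P j).eval z * y k := by
    intro ζ z hζ y hy j
    have h2 := hpt (j, k) ζ z hζ _ _ _ (hy j) (hy k)
    have h3 : Bt = B (j, k) * ∏ l ∈ Finset.univ.erase j, B (l, k) :=
      (Finset.mul_prod_erase Finset.univ (fun l => B (l, k)) (Finset.mem_univ j)).symm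
    rw [h3]
    simp only [P, Polynomial.eval_mul]
    linear_combination (Polynomial.eval z (∏ l ∈ Finset.univ.erase j, B (l, k))) * h2
  have hBtz : ∀ z, D.eval z ≠ 0 → Bt.eval z ≠ 0 := by
    intro z hz
    change (∏ l, B (l, k)).eval z ≠ 0
    rw [Polynomial.eval_prod]
    exact Finset.prod_ne_zero_iff.2 fun l _ => (hDB z hz (l, k)).1 (hBk l)
  have hP0 : ∃ j, P j ≠ 0 := by
    refine ⟨k, fun h0 => ?_⟩
    have h1 := hrel (fun _ => z0) z0 tendsto_const_nhds y0 hy0t k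
    rw [h0, Polynomial.eval_zero, zero_mul] at h1
    exact mul_ne_zero (hBtz z0 hz0) hk' h1
  obtain ⟨g0, P', hg0, hPP, hne⟩ := primitive P hP0
  have hne' : ∀ z, (fun j => (P' j).eval z) ≠ 0 := by
    intro z h0
    obtain ⟨j, hj⟩ := hne z
    exact hj (congrFun h0 j)
  have hev : ∀ z j, (P j).eval z = g0.eval z * (P' j).eval z := fun z j => by
    rw [hPP j, Polynomial.eval_mul]
  refine ⟨P', D, hD, hDd, fun j => ?_, hne', fun ζ z hz hζ => ?_⟩
  · by_cases h0 : P' j = 0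
    · rw [h0, Polynomial.natDegree_zero]
      exact Nat.zero_le _
    · have h1 := hPdeg j
      rw [hPP j, Polynomial.natDegree_mul hg0 h0] at h1
      omega
  · obtain ⟨y, hy, hyt, hyp⟩ := hg.vec hζ
    have h1 : pm y = pm fun j => (P' j).eval z := by
      refine pm_congr hy (hne' z) fun j l => ?_
      refine mul_left_cancel₀ (hBtz z hz) ?_
      have h2 := hrel ζ z hζ y hyt j
      have h3 := hrel ζ z hζ y hyt l
      rw [hev] at h2 h3
      linear_combination (P' l).eval z * h2 - (P' j).eval z * h3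
    rwa [h1] at hyp

/-- the bound for the derivatives of maps with image in a small ball -/
theorem loc_bd {f : ℂ → Fin (n + 1) → ℂ} {ρ : ℝ} (hρ : 0 < ρ)
    (hd : ∀ j, DifferentiableOn ℂ (fun z => f z j) (ball 0 ρ))
    (hne : ∀ z ∈ ball (0 : ℂ) ρ, f z ≠ 0)
    (hb : ∀ z ∈ ball (0 : ℂ) ρ, ‖pm (f z) - pm (f 0)‖ ≤ 1 / (2 * ((n : ℝ) + 1))) :
    ∀ z ∈ ball (0 : ℂ) (ρ / 2), W f z ≤ 24 * ((n : ℝ) + 1) ^ 2 / ρ := by
  have h0in : (0 : ℂ) ∈ ball (0 : ℂ) ρ := mem_ball_self hρ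
  have hn1 : (1 : ℝ) ≤ (n : ℝ) + 1 := by
    have : (0 : ℝ) ≤ n := Nat.cast_nonneg _
    linarith
  obtain ⟨k, hgk⟩ := exists_max (f 0)
  have hchart : ∀ z ∈ ball (0 : ℂ) ρ, f z k ≠ 0 ∧
      ∀ j, ‖f z j / f z k‖ ≤ 2 * ((n : ℝ) + 1) := by
    intro z hz
    have h3 := (norm_le_pi_norm (pm (f z) - pm (f 0)) (k, k)).trans (hb z hz)
    have h4 : 1 / ((n : ℝ) + 1) ≤ ‖pm (f 0) (k, k)‖ := by
      rw [norm_pm, div_le_div_iff₀ (by positivity) (nsq_pos (hne 0 h0in)), one_mul]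
      simp only
      rw [hgk]
      have := nsq_le (f 0)
      nlinarith
    have h5 : 1 / (2 * ((n : ℝ) + 1)) ≤ ‖pm (f z) (k, k)‖ := by
      have h6 := norm_sub_norm_le (pm (f 0) (k, k)) (pm (f z) (k, k))
      rw [norm_sub_rev] at h6
      have h7 : ‖pm (f z) (k, k) - pm (f 0) (k, k)‖ ≤ 1 / (2 * ((n : ℝ) + 1)) := h3
      have h8 : 1 / ((n : ℝ) + 1) = 1 / (2 * ((n : ℝ) + 1)) + 1 / (2 * ((n : ℝ) + 1)) := by
        field_simp
        ring
      linarith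
    have hnz := nsq_pos (hne z hz)
    rw [norm_pm, div_le_div_iff₀ (by positivity) hnz, one_mul] at h5
    simp only at h5
    have hkz : f z k ≠ 0 := by
      intro h0
      rw [h0, norm_zero, zero_mul, zero_mul] at h5
      linarith
    refine ⟨hkz, fun j => ?_⟩
    have hkp : 0 < ‖f z k‖ := norm_pos_iff.2 hkz
    rw [norm_div, div_le_iff₀ hkp]
    have h6 := sq_le_nsq (f z) j
    have h7 : ‖f z j‖ ^ 2 ≤ (2 * ((n : ℝ) + 1) * ‖f z k‖) ^ 2 := by
      calc ‖f z j‖ ^ 2 ≤ nsq (f z) := h6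
        _ ≤ ‖f z k‖ * ‖f z k‖ * (2 * ((n : ℝ) + 1)) := h5
        _ ≤ ‖f z k‖ * ‖f z k‖ * (2 * ((n : ℝ) + 1)) ^ 2 := by
            gcongr
            nlinarith
        _ = _ := by ring
    exact (pow_le_pow_iff_left₀ (norm_nonneg _) (by positivity) two_ne_zero).1 h7
  have hud : ∀ j, DifferentiableOn ℂ (fun z => f z j / f z k) (ball 0 ρ) := fun j =>
    (hd j).div (hd k) fun z hz => (hchart z hz).1
  intro z hz
  rw [mem_ball_zero_iff] at hz
  have hzρ : z ∈ ball (0 : ℂ) ρ := by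
    rw [mem_ball_zero_iff]
    linarith
  have hder : ∀ j, ‖deriv (fun w => f w j / f w k) z‖ ≤ 6 * ((n : ℝ) + 1) / ρ := by
    intro j
    have hsub : closedBall z (ρ / 3) ⊆ ball (0 : ℂ) ρ := by
      intro w hw
      rw [mem_closedBall, dist_eq_norm] at hw
      rw [mem_ball_zero_iff]
      have h1 := norm_add_le (w - z) z
      rw [sub_add_cancel] at h1
      linarith
    have h1 := Complex.norm_deriv_le_of_forall_mem_sphere_norm_le (c := z) (R := ρ / 3)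
      (C := 2 * ((n : ℝ) + 1)) (by positivity) ((hud j).diffContOnCl_ball hsub) fun w hw =>
        (hchart w (hsub (sphere_subset_closedBall hw))).2 j
    refine h1.trans (le_of_eq ?_)
    field_simp
    ring
  obtain ⟨hk0, hu⟩ := hchart z hzρ
  have hda : ∀ j, DifferentiableAt ℂ (fun w => f w j) z := fun j =>
    (hd j).differentiableAt (isOpen_ball.mem_nhds hzρ)
  have hN : 0 < ‖f z‖ := norm_pos_iff.2 (hne z hzρ)
  unfold W
  rw [div_le_iff₀ (by positivity)]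
  refine (pi_norm_le_iff_of_nonneg (by positivity)).2 fun p => ?_
  have h1 : wr f z p = (f z k) ^ 2 * (f z p.1 / f z k * deriv (fun w => f w p.2 / f w k) z -
      f z p.2 / f z k * deriv (fun w => f w p.1 / f w k) z) := by
    rw [deriv_fun_div (hda _) (hda _) hk0, deriv_fun_div (hda _) (hda _) hk0]
    unfold wr
    field_simp
    ring
  have h2 : ‖f z p.1 / f z k * deriv (fun w => f w p.2 / f w k) z -
      f z p.2 / f z k * deriv (fun w => f w p.1 / f w k) z‖ ≤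
        2 * (2 * ((n : ℝ) + 1) * (6 * ((n : ℝ) + 1) / ρ)) := by
    refine (norm_sub_le _ _).trans ?_
    rw [norm_mul, norm_mul, two_mul]
    gcongr
    · exact hu _
    · exact hder _
    · exact hu _
    · exact hder _
  rw [h1, norm_mul, norm_pow]
  have h3 : ‖f z k‖ ≤ ‖f z‖ := norm_le_pi_norm _ k
  calc ‖f z k‖ ^ 2 * _ ≤ ‖f z‖ ^ 2 * (2 * (2 * ((n : ℝ) + 1) * (6 * ((n : ℝ) + 1) / ρ))) := by
        gcongr
    _ = _ := by ring

end Pool.Agent.V1153.KB
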