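import Pool.Agent.V1153.PK.Qn

/-!
The values of the constant limits of rescalings of a sequence of algebraic curves.
-/

set_option autoImplicit false

namespace Pool.Agent.V1153.KB

open Filter Topology Set Metric MvPolynomial
open Pool.Agent.V1153.UG

variable {n : ℕ}

theorem ultra_fin {ι : Type} [Finite ι] {𝒰 : Ultrafilter ℕ} (u : ℕ → ι) :
    ∃ x, ∀ᶠ i in (𝒰 : Filter ℕ), u i = x := by
  by_contra hc
  push Not at hc
  have h3 : ∀ᶠ i in (𝒰 : Filter ℕ), ∀ x, u i ≠ x := Filter.eventually_all.2 hc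
  obtain ⟨i, hi⟩ := h3.exists
  exact hi (u i) rfl

theorem coeff_sum_X {m : ℕ} (c : Fin (m + 1) → ℂ) (α : Fin (m + 1)) :
    (∑ β : Fin (m + 1), Polynomial.C (c β) * Polynomial.X ^ (β : ℕ) : Polynomial ℂ).coeff α =
      c α := by
  simp only [Polynomial.finsetSum_coeff, Polynomial.coeff_C_mul, Polynomial.coeff_X_pow]
  rw [Finset.sum_eq_single α]
  · simp
  · intro b _ hb
    rw [if_neg (fun h3 => hb (Fin.ext h3.symm)), mul_zero]
  · intro h3
    exact absurd (Finset.mem_univ _) h3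

theorem eval_sum_X {m : ℕ} (c : Fin (m + 1) → ℂ) (z : ℂ) :
    (∑ β : Fin (m + 1), Polynomial.C (c β) * Polynomial.X ^ (β : ℕ) : Polynomial ℂ).eval z =
      ∑ β : Fin (m + 1), c β * z ^ (β : ℕ) := by
  simp only [Polynomial.eval_finsetSum, Polynomial.eval_mul, Polynomial.eval_C,
    Polynomial.eval_pow, Polynomial.eval_X]

theorem val_pair {𝒰 : Ultrafilter ℕ} {m : ℕ} {R : ℕ → ℝ} {a b : ℕ → ℂ → ℂ}
    (halg : ∀ i, AlgP m (ball 0 (R i)) (a i) (b i)) :
    ∃ q : Fin (m + 1) → Fin (m + 1) → ℂ, ∀ ρ : ℕ → ℝ, (∀ i, 0 < ρ i) → ∀ D : Polynomial ℂ,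
      D ≠ 0 → ∀ ya yb : ℂ, (∀ z : ℂ, D.eval z ≠ 0 →
        (∀ᶠ i in (𝒰 : Filter ℕ), (ρ i : ℂ) * z ∈ ball (0 : ℂ) (R i)) ∧
        ∃ (μ : ℕ → ℂ) (t : ℂ), t ≠ 0 ∧
          Tendsto (fun i => μ i * a i ((ρ i : ℂ) * z)) 𝒰 (𝓝 (t * ya)) ∧
          Tendsto (fun i => μ i * b i ((ρ i : ℂ) * z)) 𝒰 (𝓝 (t * yb))) →
      ∃ α, q α ≠ 0 ∧ ∑ β : Fin (m + 1), q α β * ya ^ (β : ℕ) * yb ^ (m - (β : ℕ)) = 0 := by
  classical
  choose c hc hcz using fun i => (halg i).norm
  let col : ℕ → Fin (m + 1) → Fin (m + 1) → ℂ := fun i α β => c i β α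
  let qi : ℕ → Fin (m + 1) → Fin (m + 1) → ℂ := fun i α => ((‖col i α‖⁻¹ : ℝ) : ℂ) • col i α
  have hqn : ∀ i α, ‖qi i α‖ ≤ 1 := by
    intro i α
    simp only [qi]
    rw [norm_smul, Complex.norm_real, Real.norm_of_nonneg (inv_nonneg.2 (norm_nonneg _))]
    exact inv_mul_le_one
  have hq : ∀ α, ∃ x, Tendsto (fun i => qi i α) 𝒰 (𝓝 x) := fun α =>
    ultra_lim (C := 1) (Filter.Eventually.of_forall fun i => hqn i α)
  choose q hq using hq
  refine ⟨q, fun ρ hρ D hD ya yb hlim => ?_⟩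
  have hmax : ∀ i, ∃ α : Fin (m + 1), ∀ α' : Fin (m + 1), ρ i ^ (α' : ℕ) * ‖col i α'‖ ≤
      ρ i ^ (α : ℕ) * ‖col i α‖ := by
    intro i
    obtain ⟨α, -, hα⟩ := Finset.exists_max_image Finset.univ
      (fun α : Fin (m + 1) => ρ i ^ (α : ℕ) * ‖col i α‖) Finset.univ_nonempty
    exact ⟨α, fun α' => hα α' (Finset.mem_univ _)⟩
  choose αi hαi using hmax
  have hMpos : ∀ i, 0 < ρ i ^ (αi i : ℕ) * ‖col i (αi i)‖ := by
    intro i
    have h1 : c i ≠ 0 := by
      intro h0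
      have h2 := hc i
      rw [h0, norm_zero] at h2
      exact zero_ne_one h2
    obtain ⟨β0, hβ0⟩ := Function.ne_iff.1 h1
    obtain ⟨α0, hα0⟩ := Function.ne_iff.1 hβ0
    have h2 : col i α0 ≠ 0 := by
      intro h0
      exact hα0 (congrFun h0 β0)
    exact lt_of_lt_of_le (mul_pos (pow_pos (hρ i) _) (norm_pos_iff.2 h2)) (hαi i α0)
  obtain ⟨αs, hαs⟩ := ultra_fin (𝒰 := 𝒰) αi
  let lam : ℕ → Fin (m + 1) → ℝ := fun i α =>
    ρ i ^ (α : ℕ) * ‖col i α‖ / (ρ i ^ (αi i : ℕ) * ‖col i (αi i)‖)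
  have hlam : ∀ i α, ‖lam i α‖ ≤ 1 := by
    intro i α
    have h1 : 0 ≤ lam i α := div_nonneg (mul_nonneg (pow_nonneg (hρ i).le _) (norm_nonneg _))
      (hMpos i).le
    rw [Real.norm_of_nonneg h1]
    exact (div_le_one (hMpos i)).2 (hαi i α)
  have hL : ∀ α, ∃ x, Tendsto (fun i => lam i α) 𝒰 (𝓝 x) := fun α =>
    ultra_lim (C := 1) (Filter.Eventually.of_forall fun i => hlam i α)
  choose L hL using hL
  have hLs : L αs = 1 := by
    refine tendsto_nhds_unique (hL αs) ?_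
    refine tendsto_const_nhds.congr' ?_
    filter_upwards [hαs] with i hi
    simp only [lam]
    rw [hi]
    have h1 := hMpos i
    rw [hi] at h1
    exact (div_self h1.ne').symm
  have hqs : q αs ≠ 0 := by
    have h1 : ‖q αs‖ = 1 := by
      refine tendsto_nhds_unique (hq αs).norm ?_
      refine tendsto_const_nhds.congr' ?_
      filter_upwards [hαs] with i hi
      have h1 := hMpos i
      rw [hi] at h1
      have h2 : ‖col i αs‖ ≠ 0 := by
        intro h0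
        rw [h0, mul_zero] at h1
        exact lt_irrefl _ h1
      simp only [qi]
      rw [norm_smul, Complex.norm_real, Real.norm_of_nonneg (inv_nonneg.2 (norm_nonneg _)),
        inv_mul_cancel₀ h2]
    intro h0
    rw [h0, norm_zero] at h1
    exact zero_ne_one h1
  refine ⟨αs, hqs, ?_⟩
  let S : Fin (m + 1) → ℂ := fun α =>
    ∑ β : Fin (m + 1), q α β * ya ^ (β : ℕ) * yb ^ (m - (β : ℕ))
  have hvan : ∀ z : ℂ, D.eval z ≠ 0 →
      ∑ α : Fin (m + 1), ((L α : ℂ) * S α) * z ^ (α : ℕ) = 0 := by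
    intro z hz
    obtain ⟨hin, μ, t, ht, hta, htb⟩ := hlim z hz
    have e1 : Tendsto (fun i => ∑ α : Fin (m + 1), ((lam i α : ℝ) : ℂ) * z ^ (α : ℕ) *
        ∑ β : Fin (m + 1), qi i α β * (μ i * a i ((ρ i : ℂ) * z)) ^ (β : ℕ) *
          (μ i * b i ((ρ i : ℂ) * z)) ^ (m - (β : ℕ))) 𝒰
        (𝓝 (∑ α : Fin (m + 1), (L α : ℂ) * z ^ (α : ℕ) *
          ∑ β : Fin (m + 1), q α β * (t * ya) ^ (β : ℕ) * (t * yb) ^ (m - (β : ℕ)))) := by
      refine tendsto_finsetSum _ fun α _ => ?_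
      refine Tendsto.mul (Tendsto.mul ((Complex.continuous_ofReal.tendsto _).comp (hL α))
        tendsto_const_nhds) ?_
      refine tendsto_finsetSum _ fun β _ => ?_
      exact (((tendsto_pi_nhds.1 (hq α)) β).mul (hta.pow _)).mul (htb.pow _)
    have e2 : ∀ᶠ i in (𝒰 : Filter ℕ), ∑ α : Fin (m + 1), ((lam i α : ℝ) : ℂ) * z ^ (α : ℕ) *
        ∑ β : Fin (m + 1), qi i α β * (μ i * a i ((ρ i : ℂ) * z)) ^ (β : ℕ) *
          (μ i * b i ((ρ i : ℂ) * z)) ^ (m - (β : ℕ)) = 0 := by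
      filter_upwards [hin] with i hi
      have h1 := hcz i _ hi
      set M : ℝ := ρ i ^ (αi i : ℕ) * ‖col i (αi i)‖ with hM
      have hM0 : (M : ℂ) ≠ 0 := Complex.ofReal_ne_zero.2 (hMpos i).ne'
      have h2 : ∀ α β : Fin (m + 1), ((lam i α : ℝ) : ℂ) * qi i α β =
          (ρ i : ℂ) ^ (α : ℕ) * c i β α / M := by
        intro α β
        simp only [lam, qi]
        rw [← hM]
        change _ * (((‖col i α‖⁻¹ : ℝ) : ℂ) * c i β α) = _
        by_cases h0 : ‖col i α‖ = 0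
        · have h3 : c i β α = 0 := by
            have h4 := norm_eq_zero.1 h0
            exact congrFun h4 β
          rw [h3, mul_zero, mul_zero, mul_zero, zero_div]
        · have h3 : (‖col i α‖ : ℂ) ≠ 0 := Complex.ofReal_ne_zero.2 h0
          push_cast
          field_simp
      have h3 : ∑ α : Fin (m + 1), ((lam i α : ℝ) : ℂ) * z ^ (α : ℕ) *
          ∑ β : Fin (m + 1), qi i α β * (μ i * a i ((ρ i : ℂ) * z)) ^ (β : ℕ) *
            (μ i * b i ((ρ i : ℂ) * z)) ^ (m - (β : ℕ)) =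
          μ i ^ m / M * ∑ β : Fin (m + 1), (∑ α : Fin (m + 1), c i β α *
            ((ρ i : ℂ) * z) ^ (α : ℕ)) * a i ((ρ i : ℂ) * z) ^ (β : ℕ) *
              b i ((ρ i : ℂ) * z) ^ (m - (β : ℕ)) := by
        rw [Finset.mul_sum]
        simp only [Finset.mul_sum, Finset.sum_mul]
        rw [Finset.sum_comm]
        refine Finset.sum_congr rfl fun β _ => Finset.sum_congr rfl fun α _ => ?_
        have h4 : μ i ^ m = μ i ^ (β : ℕ) * μ i ^ (m - (β : ℕ)) := by
          rw [← pow_add]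
          congr 1
          omega
        rw [mul_pow, mul_pow, mul_pow, h4]
        have h5 := h2 α β
        calc _ = (((lam i α : ℝ) : ℂ) * qi i α β) * (z ^ (α : ℕ) *
              (μ i ^ (β : ℕ) * a i ((ρ i : ℂ) * z) ^ (β : ℕ)) *
              (μ i ^ (m - (β : ℕ)) * b i ((ρ i : ℂ) * z) ^ (m - (β : ℕ)))) := by ring
          _ = _ := by
            rw [h5]
            ring
      rw [h3, h1, mul_zero]
    have e3 := tendsto_nhds_unique e1 (tendsto_const_nhds.congr' (e2.mono fun i hi => hi.symm))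
    have e4 : ∑ α : Fin (m + 1), (L α : ℂ) * z ^ (α : ℕ) *
          ∑ β : Fin (m + 1), q α β * (t * ya) ^ (β : ℕ) * (t * yb) ^ (m - (β : ℕ)) =
        t ^ m * ∑ α : Fin (m + 1), ((L α : ℂ) * S α) * z ^ (α : ℕ) := by
      rw [Finset.mul_sum]
      refine Finset.sum_congr rfl fun α _ => ?_
      have h5 : ∑ β : Fin (m + 1), q α β * (t * ya) ^ (β : ℕ) * (t * yb) ^ (m - (β : ℕ)) =
          t ^ m * S α := by
        simp only [S]
        rw [Finset.mul_sum]
        refine Finset.sum_congr rfl fun β _ => ?_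
        have h4 : t ^ m = t ^ (β : ℕ) * t ^ (m - (β : ℕ)) := by
          rw [← pow_add]
          congr 1
          omega
        rw [mul_pow, mul_pow, h4]
        ring
      rw [h5]
      ring
    rw [e4] at e3
    exact (mul_eq_zero.1 e3).resolve_left (pow_ne_zero _ ht)
  have hp : (∑ β : Fin (m + 1), Polynomial.C ((L β : ℂ) * S β) * Polynomial.X ^ (β : ℕ) :
      Polynomial ℂ) = 0 := by
    have h1 : D * (∑ β : Fin (m + 1), Polynomial.C ((L β : ℂ) * S β) * Polynomial.X ^ (β : ℕ) :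
      Polynomial ℂ) = 0 := by
      apply Polynomial.funext
      intro z
      rw [Polynomial.eval_mul, Polynomial.eval_zero, eval_sum_X (fun β => (L β : ℂ) * S β)]
      by_cases hz : D.eval z = 0
      · rw [hz, zero_mul]
      · rw [hvan z hz, mul_zero]
    exact (mul_eq_zero.1 h1).resolve_left hD
  have h1 := coeff_sum_X (fun β => (L β : ℂ) * S β) αs
  rw [hp, Polynomial.coeff_zero, hLs, Complex.ofReal_one, one_mul] at h1
  exact h1.symm

/-- **The values of the constant limits.** -/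
theorem values {𝒰 : Ultrafilter ℕ} {m : ℕ} {R : ℕ → ℝ} {g : ℕ → ℂ → Fin (n + 1) → ℂ}
    (halg : ∀ i, AlgM m (R i) (g i)) :
    ∃ Y : Set (Fin (n + 1) × Fin (n + 1) → ℂ), Y.Finite ∧ ∀ ρ : ℕ → ℝ, (∀ i, 0 < ρ i) →
      ∀ D : Polynomial ℂ, D ≠ 0 → ∀ y : Fin (n + 1) → ℂ, y ≠ 0 → (∀ z : ℂ, D.eval z ≠ 0 →
        (∀ᶠ i in (𝒰 : Filter ℕ), (ρ i : ℂ) * z ∈ ball (0 : ℂ) (R i)) ∧
        ∃ (μ : ℕ → ℂ) (y' : Fin (n + 1) → ℂ), y' ≠ 0 ∧ pm y' = pm y ∧
          ∀ j, Tendsto (fun i => μ i * g i ((ρ i : ℂ) * z) j) 𝒰 (𝓝 (y' j))) → pm y ∈ Y := by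
  classical
  choose q hq using fun p : Fin (n + 1) × Fin (n + 1) =>
    val_pair (𝒰 := 𝒰) fun i => halg i p.1 p.2
  let Rt : Fin (n + 1) → Fin (n + 1) → Set ℂ := fun k j =>
    ⋃ α : Fin (m + 1), {u | q (j, k) α ≠ 0 ∧
      ∑ β : Fin (m + 1), q (j, k) α β * u ^ (β : ℕ) = 0}
  have hRt : ∀ k j, (Rt k j).Finite := by
    intro k j
    refine Set.finite_iUnion fun α => ?_
    by_cases h0 : q (j, k) α = 0
    · refine Set.finite_empty.subset fun u hu => ?_
      exact absurd h0 hu.1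
    · have h1 : (∑ β : Fin (m + 1), Polynomial.C (q (j, k) α β) * Polynomial.X ^ (β : ℕ) :
          Polynomial ℂ) ≠ 0 := by
        intro h2
        apply h0
        funext β
        have h3 := coeff_sum_X (q (j, k) α) β
        rw [h2, Polynomial.coeff_zero] at h3
        exact h3.symm
      refine (Polynomial.roots (∑ β : Fin (m + 1), Polynomial.C (q (j, k) α β) *
        Polynomial.X ^ (β : ℕ) : Polynomial ℂ)).toFinset.finite_toSet.subset fun u hu => ?_
      rw [Finset.mem_coe, Multiset.mem_toFinset, Polynomial.mem_roots h1]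
      change Polynomial.eval u _ = 0
      rw [eval_sum_X (q (j, k) α)]
      exact hu.2
  refine ⟨⋃ k, pm '' (Set.pi univ (Rt k)), Set.finite_iUnion fun k =>
    (Set.Finite.pi (hRt k)).image _, fun ρ hρ D hD y hy hlim => ?_⟩
  obtain ⟨k, hk⟩ := Function.ne_iff.1 hy
  have hk' : y k ≠ 0 := hk
  refine mem_iUnion.2 ⟨k, ⟨fun j => y j / y k, fun j _ => ?_, ?_⟩⟩
  · obtain ⟨α, hα, h1⟩ := hq (j, k) ρ hρ D hD (y j) (y k) (by
      intro z hz
      obtain ⟨h1, μ, y', hy', hpm, h2⟩ := hlim z hz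
      have h3 : ∀ l, y' l = y' k / y k * y l := by
        intro l
        have h4 := pm_inj hy' hy hpm l k
        field_simp
        linear_combination h4
      refine ⟨h1, μ, y' k / y k, ?_, ?_, ?_⟩
      · intro h0
        apply hy'
        funext l
        rw [h3 l, h0, zero_mul]
        rfl
      · have h4 := h2 j
        rw [h3 j] at h4
        exact h4
      · have h4 := h2 k
        rw [h3 k] at h4
        exact h4)
    refine mem_iUnion.2 ⟨α, hα, ?_⟩
    have h2 : ∑ β : Fin (m + 1), q (j, k) α β * (y j / y k) ^ (β : ℕ) =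
        ((y k) ^ m)⁻¹ * ∑ β : Fin (m + 1), q (j, k) α β * y j ^ (β : ℕ) *
          y k ^ (m - (β : ℕ)) := by
      rw [Finset.mul_sum]
      refine Finset.sum_congr rfl fun β _ => ?_
      have h4 : y k ^ m = y k ^ (β : ℕ) * y k ^ (m - (β : ℕ)) := by
        rw [← pow_add]
        congr 1
        omega
      rw [h4, div_pow]
      field_simp
    rw [h2, h1, mul_zero]
  · have h1 : (fun j => y j / y k) = fun j => (y k)⁻¹ * y j := by
      funext j
      rw [div_eq_mul_inv, mul_comm]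
    rw [h1]
    exact pm_smul (inv_ne_zero hk') hy

end Pool.Agent.V1153.KB
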